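import Pool.Agent.Lib.MP_5771ce_al.TN.SevenB
import Pool.Agent.Lib.MP_5771ce_al.LemQ

set_option autoImplicit false

/-!
# Theorem N, steps N8 and N9: no odd prime `s`
-/

open Subgroup
open scoped Pointwise commutatorElement

namespace MP_5771ce_al

variable {G : Type*} [Group G]

theorem isPGroup_zpowers_tn {l n : ℕ} {y : G} (hy : y ^ (l ^ n) = 1) : IsPGroup l (zpowers y) := by
  rintro ⟨_, i, rfl⟩
  refine ⟨n, Subtype.ext ?_⟩
  rw [SubmonoidClass.coe_pow, OneMemClass.coe_one]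
  show (y ^ i) ^ (l ^ n) = 1
  rw [← zpow_natCast, ← zpow_mul, mul_comm, zpow_mul, zpow_natCast, hy, one_zpow]

variable [Finite G]

theorem exists_commute_of_pgroup {V : Subgroup G} {s n : ℕ} (hs : s.Prime) {y : G}
    (hV : IsPGroup s V) (hne : V ≠ ⊥) (hy : y ^ (s ^ n) = 1) (hyV : y ∈ normalizer (V : Set G)) :
    ∃ c ∈ V, c ≠ 1 ∧ y * c = c * y := by
  have hfact : Fact s.Prime := ⟨hs⟩
  have hle : zpowers y ≤ normalizer (V : Set G) := by rwa [zpowers_le]
  let f : zpowers y →* MulAut V := V.normalizerMonoidHom.comp (inclusion hle)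
  let _ : MulAction (zpowers y) V := MulAction.compHom V f
  have hsm : ∀ (g : zpowers y) (v : V), ((g • v : V) : G) = g * v * (g : G)⁻¹ := fun g v => rfl
  have hcard : s ∣ Nat.card V := by
    rcases hV.card_eq_or_dvd with h | h
    · exact absurd (card_eq_one.1 h) hne
    · exact h
  obtain ⟨b, hb, hb1⟩ :=
    (isPGroup_zpowers_tn hy).exists_fixed_point_of_prime_dvd_card_of_fixed_point
    V hcard (a := (1 : V)) (by
      intro g
      apply Subtype.ext
      rw [hsm]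
      simp)
  refine ⟨b, b.2, fun h => hb1 (Subtype.ext h.symm), ?_⟩
  have h1 := congrArg Subtype.val (hb ⟨y, mem_zpowers y⟩)
  rw [hsm] at h1
  rwa [mul_inv_eq_iff_eq_mul] at h1

section one
variable {A K : Subgroup G} {l s : ℕ} {y : G} (hB : BadData A K l y)

include hB in
/-- the image of `y` in the automorphism group of `T = O_s(K)` lies in `O_l` -/
theorem BadData.image_mem_opc (hA : HerPermutable A)
    (hrad : A ≤ rad (normalizer (opc s K : Set G))) (hyN : y ∈ normalizer (opc s K : Set G)) :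
    (opc s K).normalizerMonoidHom.rangeRestrict ⟨y, hyN⟩ ∈
      opc l (⊤ : Subgroup (opc s K).normalizerMonoidHom.range) := by
  have hAN : A ≤ normalizer (opc s K : Set G) := hB.A_le_normalizer
  set T := opc s K with hT
  set q := T.normalizerMonoidHom.rangeRestrict with hq
  have hqs : Function.Surjective q := MonoidHom.rangeRestrict_surjective _
  have hker : ∀ g : normalizer (T : Set G), (g : G) ∈ centralizer (T : Set G) → q g = 1 := by
    intro g hg
    rw [← MonoidHom.mem_ker, hq, MonoidHom.ker_rangeRestrict, normalizerMonoidHom_ker,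
      mem_subgroupOf]
    exact hg
  obtain ⟨χ, hχ1, hχ⟩ := hB.char
  have hfact : Fact l.Prime := ⟨hB.prime⟩
  set Y := q ⟨y, hyN⟩ with hY
  -- conjugation
  have hconj : ∀ (a : G) (ha : a ∈ A) (k : ℕ), (k : ZMod l) = χ ⟨a, ha⟩ →
      (q ⟨a, hAN ha⟩)⁻¹ * Y * q ⟨a, hAN ha⟩ = Y ^ k := by
    intro a ha k hk
    have h1 := hker ((⟨y, hyN⟩ ^ k)⁻¹ *
      ((⟨a, hAN ha⟩ : normalizer (T : Set G))⁻¹ * ⟨y, hyN⟩ * ⟨a, hAN ha⟩))
      (hB.K_le (hχ ⟨a, ha⟩ k hk))
    rw [map_mul, map_inv, map_pow, inv_mul_eq_one, map_mul, map_mul, map_inv] at h1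
    exact h1.symm
  obtain ⟨n, hn⟩ := hB.lel
  have hYn : Y ^ (l ^ n) = 1 := by
    rw [hY, ← map_pow]
    have : (⟨y, hyN⟩ : normalizer (T : Set G)) ^ (l ^ n) = 1 := Subtype.ext hn
    rw [this, map_one]
  have hle : zpowers Y ≤ opc l ⊤ := by
    refine lemmaP (A := (A.subgroupOf (normalizer (T : Set G))).map q)
      ((hA.subgroupOf hAN).map hqs) ?_ (isPGroup_zpowers_tn hYn) ?_ ?_
    · refine (map_mono ((le_rad_iff_subgroupOf hAN).1 hrad)).trans ((map_rad_le ⊤ q).trans ?_)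
      rw [map_top_of_surjective q hqs]
    · rintro _ ⟨⟨a, haN⟩, ha, rfl⟩ _ ⟨i, rfl⟩
      have ha' : a⁻¹ ∈ A := inv_mem (mem_subgroupOf.1 ha)
      have h1 := hconj a⁻¹ ha' (χ ⟨a⁻¹, ha'⟩ : ZMod l).val (ZMod.natCast_zmod_val _)
      have h2 : (q ⟨a⁻¹, hAN ha'⟩) = (q ⟨a, haN⟩)⁻¹ := by
        rw [← map_inv]
        rfl
      rw [h2, inv_inv] at h1
      show q ⟨a, haN⟩ * Y ^ i * (q ⟨a, haN⟩)⁻¹ ∈ zpowers Y
      rw [← conj_zpow, h1]
      exact zpow_mem (pow_mem (mem_zpowers Y) _) i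
    · obtain ⟨a, ha, haK⟩ := hB.ne
      set k := (χ ⟨a, ha⟩ : ZMod l).val with hk
      have hkχ : (k : ZMod l) = χ ⟨a, ha⟩ := ZMod.natCast_zmod_val _
      have hk1 : ¬ (l : ℤ) ∣ k - 1 := by
        intro hdvd
        have h1 : (((k : ℤ) - 1 : ℤ) : ZMod l) = 0 :=
          (ZMod.intCast_zmod_eq_zero_iff_dvd _ l).2 hdvd
        push_cast at h1
        rw [hkχ, sub_eq_zero] at h1
        exact haK ((hχ1 ⟨a, ha⟩).1 (Units.ext h1))
      have h1 := hconj a ha k hkχ
      rw [zpowers_le]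
      refine mem_of_zpow_mem_of_pow_eq_one hB.prime hYn hk1 ?_
      have h2 : Y ^ ((k : ℤ) - 1) = ⁅Y⁻¹, (q ⟨a, hAN ha⟩)⁻¹⁆ := by
        rw [commutatorElement_def, zpow_sub, zpow_one, zpow_natCast, ← h1]
        have h3 : (q ⟨a, hAN ha⟩)⁻¹ * Y * q ⟨a, hAN ha⟩ * Y⁻¹ =
            Y⁻¹ * ((q ⟨a, hAN ha⟩)⁻¹ * Y * q ⟨a, hAN ha⟩) := by
          rw [h1]
          exact (((Commute.refl Y).pow_left k).inv_right).eq
        rw [h3]
        group
      rw [h2]
      exact commutator_mem_commutator (inv_mem (mem_zpowers Y))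
        (inv_mem ⟨⟨a, hAN ha⟩, mem_subgroupOf.2 ha, rfl⟩)
  exact hle (mem_zpowers _)

end one

section two
variable {A M D : Subgroup G} {P : ℕ → Subgroup G} (h : NHyp A M D P)

include h in
/-- N8: bad elements for `s` and for `l ≠ s` cannot both exist -/
theorem NHyp.eight {K : Subgroup G} {s l : ℕ} {y w : G} (hsl : s ≠ l)
    (hy : BadData A K s y) (hw : BadData A K l w)
    (hT : ¬ A ≤ centralizer (opc s K : Set G)) : False := by
  have hfs : Fact s.Prime := ⟨hy.prime⟩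
  have hfl : Fact l.Prime := ⟨hw.prime⟩
  set T := opc s K with hTdef
  have hTs : IsPGroup s T := opc_isPGroup s K
  have hTne : T ≠ ⊥ := by
    intro h0
    apply hT
    rw [h0]
    intro a _
    rw [mem_centralizer_iff]
    intro t ht
    have : t = 1 := ht
    rw [this, one_mul, mul_one]
  have hTab : ∀ a ∈ T, ∀ b ∈ T, a * b = b * a := fun a ha b hb =>
    hy.ab a (opc_le s K ha) b (opc_le s K hb)
  have hAN : A ≤ normalizer (T : Set G) := hy.A_le_normalizer
  have hNne : normalizer (T : Set G) ≠ ⊤ := h.nrm T (isSolvable_of_isPGroup hTs) hTne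
  have hrad := h.radical _ hAN hNne
  have hyN : y ∈ normalizer (T : Set G) := hy.y_mem_normalizer
  have hwN : w ∈ normalizer (T : Set G) := hw.y_mem_normalizer
  have h1 := hy.image_mem_opc h.her hrad hyN
  have h2 := hw.image_mem_opc (s := s) h.her hrad hwN
  -- `z = [y, w]` centralises `T`
  have hz : y * w * y⁻¹ * w⁻¹ ∈ centralizer (T : Set G) := by
    set q := T.normalizerMonoidHom.rangeRestrict with hq
    have hn1 : (opc s (⊤ : Subgroup T.normalizerMonoidHom.range)).Normal :=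
      normalIn_top.1 (opc_normalIn s ⊤)
    have hn2 : (opc l (⊤ : Subgroup T.normalizerMonoidHom.range)).Normal :=
      normalIn_top.1 (opc_normalIn l ⊤)
    have h3 : q ⟨y, hyN⟩ * q ⟨w, hwN⟩ * (q ⟨y, hyN⟩)⁻¹ * (q ⟨w, hwN⟩)⁻¹ = 1 := by
      refine eq_one_of_coprime_groups hsl (opc_isPGroup s ⊤) (opc_isPGroup l ⊤) ?_ ?_
      · have h4 := hn1.conj_mem _ (inv_mem h1) (q ⟨w, hwN⟩)
        have h5 := mul_mem h1 h4
        convert h5 using 1
        group
      · exact mul_mem (hn2.conj_mem _ h2 (q ⟨y, hyN⟩)) (inv_mem h2)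
    rw [← map_inv, ← map_inv, ← map_mul, ← map_mul, ← map_mul, ← MonoidHom.mem_ker, hq,
      MonoidHom.ker_rangeRestrict, normalizerMonoidHom_ker, mem_subgroupOf] at h3
    exact h3
  have hzw : ∀ t ∈ T, y * (w * t * w⁻¹) * y⁻¹ = w * (y * t * y⁻¹) * w⁻¹ := by
    intro t ht
    have h3 := mem_normalizer_conj hwN (mem_normalizer_conj hyN ht)
    have h4 := mem_centralizer_iff.1 hz _ h3
    have h5 : y * (w * t * w⁻¹) * y⁻¹ = (y * w * y⁻¹ * w⁻¹) * (w * (y * t * y⁻¹) * w⁻¹) *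
        (y * w * y⁻¹ * w⁻¹)⁻¹ := by group
    rw [h5, ← h4, mul_inv_cancel_right]
  -- `C = C_T(y)` is centralised by `A`, normalised by `w`, hence centralised by `w`
  have hC : ∀ c ∈ T, y * c = c * y → w * c = c * w := by
    set C : Subgroup G := T ⊓ centralizer ({y} : Set G) with hCdef
    have hmemC : ∀ c, c ∈ C ↔ c ∈ T ∧ y * c = c * y := by
      intro c
      rw [hCdef, mem_inf, mem_centralizer_singleton_iff]
      exact and_congr_right fun _ => eq_comm
    have hwC : w ∈ normalizer (C : Set G) := by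
      have h3 : ∀ c ∈ C, w * c * w⁻¹ ∈ C := by
        intro c hc
        obtain ⟨hcT, hcy⟩ := (hmemC c).1 hc
        refine (hmemC _).2 ⟨mem_normalizer_conj hwN hcT, ?_⟩
        have h4 := hzw c hcT
        rw [hcy, mul_inv_cancel_right, mul_inv_eq_iff_eq_mul] at h4
        exact h4
      exact mem_normalizer_fintype h3
    have hKC : K ≤ centralizer (C : Set G) := fun x hx => mem_centralizer_iff.2 fun c hc =>
      hy.ab c (opc_le s K ((hmemC c).1 hc).1) x hx
    obtain ⟨a, ha, haK⟩ := hy.ne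
    have haC : a ∈ centralizer (C : Set G) := mem_centralizer_iff.2 fun c hc =>
      (hy.cen c (opc_le s K ((hmemC c).1 hc).1) ((hmemC c).1 hc).2.symm a ha).symm
    have h3 := hw.y_mem_centralizer hwC hKC ha haK haC
    intro c hcT hcy
    exact (mem_centralizer_iff.1 h3 c ((hmemC c).2 ⟨hcT, hcy⟩)).symm
  -- the subgroup `V` of all `t w t⁻¹ w⁻¹`
  let δ : T →* G :=
    { toFun := fun t => t * (w * (t : G)⁻¹ * w⁻¹)
      map_one' := by simp
      map_mul' := fun a b => by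
        have h3 : w * (a : G)⁻¹ * w⁻¹ ∈ T := mem_normalizer_conj hwN (inv_mem a.2)
        have h4 : w * (b : G)⁻¹ * w⁻¹ ∈ T := mem_normalizer_conj hwN (inv_mem b.2)
        have h5 : w * ((a : G) * b)⁻¹ * w⁻¹ = (w * (b : G)⁻¹ * w⁻¹) * (w * (a : G)⁻¹ * w⁻¹) := by
          group
        show (a : G) * b * (w * ((a : G) * b)⁻¹ * w⁻¹) = _
        rw [h5, hTab _ h4 _ h3, mul_assoc (a : G) b, ← mul_assoc (b : G),
          hTab _ b.2 _ h3]
        group }
  have hδ : ∀ t : T, δ t = t * (w * (t : G)⁻¹ * w⁻¹) := fun t => rfl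
  have hδT : ∀ t : T, δ t ∈ T := fun t => mul_mem t.2 (mem_normalizer_conj hwN (inv_mem t.2))
  set V := δ.range with hV
  have hVT : V ≤ T := by
    rintro _ ⟨t, rfl⟩
    exact hδT t
  have hVne : V ≠ ⊥ := by
    intro h0
    apply hw.y_notMem hT
    rw [mem_centralizer_iff]
    intro t ht
    have h3 : δ ⟨t, ht⟩ ∈ V := ⟨_, rfl⟩
    rw [h0, mem_bot, hδ] at h3
    have h4 : t = w * t * w⁻¹ := by
      rw [mul_eq_one_iff_eq_inv] at h3
      refine (show t = (w * t⁻¹ * w⁻¹)⁻¹ from h3).trans ?_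
      group
    rw [eq_mul_inv_iff_mul_eq] at h4
    exact h4
  have hyV : y ∈ normalizer (V : Set G) := by
    refine mem_normalizer_fintype ?_
    rintro _ ⟨⟨t, ht⟩, rfl⟩
    refine ⟨⟨y * t * y⁻¹, mem_normalizer_conj hyN ht⟩, ?_⟩
    rw [hδ, hδ]
    have h3 := hzw t⁻¹ (inv_mem ht)
    have h4 : y * (t * (w * t⁻¹ * w⁻¹)) * y⁻¹ = (y * t * y⁻¹) * (y * (w * t⁻¹ * w⁻¹) * y⁻¹) := by
      group
    show y * t * y⁻¹ * (w * (y * t * y⁻¹)⁻¹ * w⁻¹) = y * (t * (w * t⁻¹ * w⁻¹)) * y⁻¹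
    rw [h4, h3]
    group
  obtain ⟨n, hn⟩ := hy.lel
  obtain ⟨_, ⟨⟨t, ht⟩, rfl⟩, hc1, hcy⟩ := exists_commute_of_pgroup hy.prime
    (hTs.to_le hVT) hVne hn hyV
  have hcw := hC _ (hδT _) hcy
  rw [hδ] at hcw hc1
  -- `w` centralises `c = t w t⁻¹ w⁻¹`: then `w ^ k t w ^ {-k} = c ^ {-k} t`
  obtain ⟨m, hm⟩ := hw.lel
  set c := t * (w * t⁻¹ * w⁻¹) with hcdef
  have h3 : ∀ k : ℕ, w ^ k * t⁻¹ * (w ^ k)⁻¹ = t⁻¹ * c ^ k := by
    intro k
    induction k with
    | zero => simp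
    | succ k ih =>
      have h4 : w ^ (k + 1) * t⁻¹ * (w ^ (k + 1))⁻¹ = w * (w ^ k * t⁻¹ * (w ^ k)⁻¹) * w⁻¹ := by
        rw [pow_succ']
        group
      rw [h4, ih]
      have h5 : w * (t⁻¹ * c ^ k) * w⁻¹ = (w * t⁻¹ * w⁻¹) * (w * c ^ k * w⁻¹) := by group
      have h6 : w * c ^ k * w⁻¹ = c ^ k := by
        rw [((show Commute w c from hcw).pow_right k).eq, mul_inv_cancel_right]
      rw [h5, h6, pow_succ', ← mul_assoc]
      congr 1
      rw [hcdef]
      group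
  have h4 := h3 (l ^ m)
  rw [hm, one_mul, inv_one, mul_one] at h4
  have h5 : c ^ (l ^ m) = 1 := by
    have := mul_left_cancel (h4.symm.trans (mul_one t⁻¹).symm)
    exact this
  have h6 : c = 1 := eq_one_of_coprime_groups (Ne.symm hsl) (isPGroup_zpowers_tn h5) hTs
    (mem_zpowers c) (hδT ⟨t, ht⟩)
  exact hc1 h6

omit [Finite G] in
include h in
theorem NHyp.exists_bad {l : ℕ} (hl : l.Prime) (hM : ¬ P l ≤ M) : ∃ y, Bad M P l y := by
  obtain ⟨v, hvP, hvM⟩ := SetLike.not_le_iff_exists.1 hM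
  obtain ⟨j, h1, h2⟩ := exists_pow_bad (h.Pp l hl) hvP hvM
  exact ⟨_, hl, pow_mem hvP _, h1, h2⟩

include h in
/-- N9 -/
theorem NHyp.nine {K : Subgroup G} (hK : ∀ l y, Bad M P l y → BadData A K l y) {l₀ : ℕ} {y₀ : G}
    (hb₀ : Bad M P l₀ y₀) {s : ℕ} (hs : s.Prime) (hs2 : s ≠ 2)
    (hT : ¬ A ≤ centralizer (opc s K : Set G)) : False := by
  have hfs : Fact s.Prime := ⟨hs⟩
  have hB₀ := hK _ _ hb₀
  have hTne : opc s K ≠ ⊥ := by
    intro h0
    apply hT
    rw [h0]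
    intro a _
    rw [mem_centralizer_iff]
    intro t ht
    have : t = 1 := ht
    rw [this, one_mul, mul_one]
  have hTA : opc s K ≤ A := (opc_le s K).trans hB₀.nA.1
  -- `P s` is not contained in `M`
  have hsM : ¬ P s ≤ M := by
    obtain ⟨p, hp, hpN, hpM⟩ := h.KK _ hTA hTne hB₀.A_le_normalizer
    by_cases hps : p = s
    · rwa [← hps]
    · exfalso
      obtain ⟨w, hwA, hwK, hq, -⟩ := h.seven hK hs hp (Ne.symm hps) hpM hpN
      exact hwK (hB₀.quad_mem hs hs2 hT hwA hq)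
  obtain ⟨y, hy⟩ := h.exists_bad hs hsM
  -- all other `P l` are contained in `M`
  have hlM : ∀ l, l.Prime → l ≠ s → P l ≤ M := by
    intro l hl hls
    by_contra hcon
    obtain ⟨w, hw⟩ := h.exists_bad hl hcon
    exact h.eight (Ne.symm hls) (hK _ _ hy) (hK _ _ hw) hT
  -- the index of `M` is a power of `s`
  have hidx : M.index = s ^ M.index.primeFactorsList.length := by
    refine Nat.eq_prime_pow_of_unique_prime_dvd M.index_ne_zero_of_finite ?_
    intro q hq hqM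
    by_contra hqs
    exact h.Pi q hq (hqM.trans (index_dvd_of_le (hlM q hq hqs)))
  have hPne : P s ≠ ⊥ := fun h0 => hsM (h0 ▸ bot_le)
  obtain ⟨z, hzP, hzo, hzc⟩ := exists_central (h.Pp s hs) hPne
  have hz1 : z ≠ 1 := by
    intro h0
    rw [h0, orderOf_one] at hzo
    exact hs.one_lt.ne hzo
  by_cases hzM : z ∈ M
  · -- the normal closure of `z` is contained in `M`
    have h1 : normalClosure ({z} : Set G) ≤ M := by
      rw [normalClosure, closure_le]
      intro g hg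
      obtain ⟨x, hx, hxg⟩ := Group.mem_conjugatesOfSet_iff.1 hg
      have hx' : x = z := hx
      rw [hx', isConj_iff] at hxg
      obtain ⟨c, rfl⟩ := hxg
      obtain ⟨x, hx, m, hm, hxm⟩ := mul_eq_of_index hs (L := M) (dvd_of_eq hidx) (h.Pi s hs) c⁻¹
      have h2 : c = m⁻¹ * x⁻¹ := by rw [← mul_inv_rev, hxm, inv_inv]
      have h3 := hzc x⁻¹ (inv_mem hx)
      have h4 : c * z * c⁻¹ = m⁻¹ * (x⁻¹ * z * x⁻¹⁻¹) * m := by rw [h2]; group
      rw [h4, h3]
      exact mul_mem (mul_mem (inv_mem hm) hzM) hm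
    have h2 := h.core _ normalClosure_normal h1
    have h3 : z ∈ normalClosure ({z} : Set G) := subset_normalClosure rfl
    rw [h2, mem_bot] at h3
    exact hz1 h3
  · have hb : Bad M P s z := ⟨hs, hzP, hzM, by rw [← hzo, pow_orderOf_eq_one]; exact M.one_mem⟩
    have hB := hK _ _ hb
    apply hB.y_notMem hT
    have hsy : IsSylowIn s (A ⊓ P s) A := h.sylow_inf hs le_rfl le_sup_left
    have h1 : opc s K ≤ P s := by
      refine le_trans ?_ (hsy.opc_le.trans inf_le_right)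
      exact le_opc (hB.nA.opc s) (opc_isPGroup s K)
    rw [mem_centralizer_iff]
    intro t ht
    have h2 := hzc t (h1 ht)
    rwa [mul_inv_eq_iff_eq_mul] at h2

include h in
/-- Steps N7, N8, N9: `A` centralises `O_s(K)` for every odd prime `s` -/
theorem NHyp.odd (hnab : ¬ ∀ a ∈ A, ∀ b ∈ A, a * b = b * a) {l : ℕ} {y : G} (hb : Bad M P l y)
    {s : ℕ} (hs : s.Prime) (hs2 : s ≠ 2) :
    A ≤ centralizer (opc s (rcore A (A ⊔ zpowers y)) : Set G) := by
  by_contra hT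
  refine h.nine (K := rcore A (A ⊔ zpowers y)) ?_ hb hs hs2 hT
  intro l' y' hb'
  have h1 := h.badData hb hnab
  have h2 := h.badData hb' hnab
  rw [h1.eq_of_odd h2 hs hs2 hT hnab]
  exact h2

end two

end MP_5771ce_al
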