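import Pool.Agent.Lib.MP_5771ce_al.TN.TenA

/-!
# Theorem N, step N10, part B
-/

set_option autoImplicit false

open Subgroup
open scoped Pointwise commutatorElement

namespace MP_5771ce_al

variable {G : Type*} [Group G]

theorem mem_zpowers_of_sq {z x : G} (hz : z * z = 1) (hx : x ∈ zpowers z) : x = 1 ∨ x = z := by
  obtain ⟨n, rfl⟩ := mem_zpowers_iff.1 hx
  rcases Int.even_or_odd n with ⟨m, rfl⟩ | ⟨m, rfl⟩
  · left
    rw [zpow_add, ← (Commute.refl z).mul_zpow, hz, one_zpow]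
  · right
    have h1 : z ^ (2 * m) = 1 := by
      rw [zpow_mul]
      have : z ^ (2 : ℤ) = 1 := by rw [zpow_two]; exact hz
      rw [this, one_zpow]
    rw [zpow_add, h1, one_mul, zpow_one]

theorem quad_of_comm {w : G} {T : Subgroup G} (h : ∀ t ∈ T, ⁅⁅t, w⁆, w⁆ = 1) : Quad w T := by
  intro t ht
  have h1 := commutatorElement_eq_one_iff_mul_comm.1 (h t ht)
  have h2 : w * t * w⁻¹ * t⁻¹ = ⁅t, w⁆⁻¹ := by rw [commutatorElement_def]; group
  rw [h2]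
  have h3 : Commute ⁅t, w⁆ w := h1
  exact h3.symm.inv_right

section data
variable [Finite G]
variable {A K : Subgroup G} {l : ℕ} {y : G} (hB : BadData A K l y)

include hB in
/-- Claim B: `|A'| = 2`. -/
theorem BadData.exc (hT : ¬ A ≤ centralizer (opc 2 K : Set G))
    (hodd : ∀ s, s.Prime → s ≠ 2 → A ≤ centralizer (opc s K : Set G))
    (hexc : Exc A K (opc 2 K)) :
    ∃ z ∈ ⁅A, A⁆, z ≠ 1 ∧ z * z = 1 ∧
      ∀ a ∈ A, ∀ b ∈ A, a * b * a⁻¹ * b⁻¹ = 1 ∨ a * b * a⁻¹ * b⁻¹ = z := by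
  classical
  obtain ⟨w, hw, hwK, hq, X, hXT, hXw, c, hcT, hcyc⟩ := hexc
  set T := opc 2 K with hTdef
  have hab := hB.ab
  have hTK : T ≤ K := opc_le 2 K
  have hqw : Quad w T := quad_of_comm hq
  obtain ⟨-, r, hr⟩ := hB.ne_of_quad Nat.prime_two hT hw hwK hqw
  -- `τ`
  have hex : ∃ j, w ^ 2 ^ j ∈ K := ⟨r, hr⟩
  set j := Nat.find hex with hj
  have hj1 : w ^ 2 ^ j ∈ K := Nat.find_spec hex
  have hj0 : j ≠ 0 := by
    intro h0
    rw [h0, pow_zero, pow_one] at hj1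
    exact hwK hj1
  obtain ⟨i, hi⟩ := Nat.exists_eq_succ_of_ne_zero hj0
  have hτK : w ^ 2 ^ i ∉ K := Nat.find_min hex (by omega)
  set τ := w ^ 2 ^ i with hτ
  have hτ2 : τ ^ 2 ∈ K := by
    rw [hτ, ← pow_mul, ← pow_succ, ← Nat.succ_eq_add_one, ← hi]
    exact hj1
  have hτA : τ ∈ A := pow_mem hw _
  have hττ : ∀ t ∈ T, τ * t * τ⁻¹ * t⁻¹ = (w * t * w⁻¹ * t⁻¹) ^ 2 ^ i := by
    intro t ht
    have h1 := quad_pow hqw ht (2 ^ i)
    rw [← hτ] at h1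
    rw [h1, mul_inv_cancel_right]
  have hqτ : Quad τ T := by
    intro t ht
    rw [hττ t ht, hτ]
    exact ((hqw t ht).pow_left _).pow_right _
  have hAT : A ≤ normalizer (T : Set G) := hB.A_le_normalizer
  -- the homomorphism
  have hφmul : ∀ k ∈ K, ∀ k' ∈ K, τ * (k * k') * τ⁻¹ * (k * k')⁻¹ =
      (τ * k * τ⁻¹ * k⁻¹) * (τ * k' * τ⁻¹ * k'⁻¹) := by
    intro k hk k' hk'
    have h1 : τ * k' * τ⁻¹ * k'⁻¹ ∈ K := K.mul_mem (hB.nA.2 τ hτA k' hk') (K.inv_mem hk')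
    have h2 := hab _ h1 k hk
    calc τ * (k * k') * τ⁻¹ * (k * k')⁻¹ = τ * k * τ⁻¹ * ((τ * k' * τ⁻¹ * k'⁻¹) * k⁻¹) := by group
      _ = τ * k * τ⁻¹ * (k⁻¹ * (τ * k' * τ⁻¹ * k'⁻¹)) := by
        rw [hab _ h1 k⁻¹ (K.inv_mem hk)]
      _ = _ := by group
  let φ : K →* G := 
    { toFun := fun k => τ * k * τ⁻¹ * (k : G)⁻¹
      map_one' := by simp
      map_mul' := fun a b => hφmul a a.2 b b.2 }
  have hφ : ∀ k (hk : k ∈ K), φ ⟨k, hk⟩ = τ * k * τ⁻¹ * k⁻¹ := fun k hk => rfl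
  set z := τ * c * τ⁻¹ * c⁻¹ with hz
  have hcK : c ∈ K := hTK hcT
  have hφc : φ ⟨c, hcK⟩ = z := rfl
  have hzz : z * z = 1 := by
    have h1 := quad_pow hqτ hcT 2
    have h2 : τ ^ 2 * c * (τ ^ 2)⁻¹ = c := by rw [hab _ hτ2 c hcK, mul_inv_cancel_right]
    rw [h2] at h1
    have h3 : (τ * c * τ⁻¹ * c⁻¹) ^ 2 = 1 := mul_right_cancel (h1.symm.trans (one_mul c).symm)
    rwa [pow_two] at h3
  have hφX : ∀ x (hx : x ∈ X), φ ⟨x, hTK (hXT hx)⟩ = 1 := by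
    intro x hx
    rw [hφ, hττ x (hXT hx), ← hXw x hx]
    group
  have hTφ : ∀ t (ht : t ∈ T), φ ⟨t, hTK ht⟩ ∈ zpowers z := by
    intro t ht
    obtain ⟨n, hn⟩ := hcyc t ht
    have h1 := hφX _ hn
    have h2 : (⟨t * c ^ n, hTK (hXT hn)⟩ : K) = ⟨t, hTK ht⟩ * ⟨c, hcK⟩ ^ n := rfl
    rw [h2, map_mul, map_zpow, hφc] at h1
    rw [eq_inv_of_mul_eq_one_left h1]
    exact inv_mem (zpow_mem (mem_zpowers z) n)
  have hKφ : K ≤ ((zpowers z).comap φ).map K.subtype := by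
    refine mem_of_forall_opc hab fun s hs x hx => ?_
    refine ⟨⟨x, opc_le s K hx⟩, ?_, rfl⟩
    rw [SetLike.mem_coe, mem_comap]
    by_cases hs2 : s = 2
    · subst hs2
      exact hTφ x hx
    · have h1 := mem_centralizer_iff.1 (hodd s hs hs2 hτA) x hx
      rw [hφ, ← h1, mul_inv_cancel_right, mul_inv_cancel]
      exact one_mem _
  have hKz : ∀ k ∈ K, τ * k * τ⁻¹ * k⁻¹ = 1 ∨ τ * k * τ⁻¹ * k⁻¹ = z := by
    intro k hk
    obtain ⟨⟨k', hk'⟩, h1, h2⟩ := hKφ hk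
    have h3 : k' = k := h2
    subst h3
    exact mem_zpowers_of_sq hzz h1
  have hz1 : z ≠ 1 := by
    intro h
    apply hτK
    refine hB.mem_of_centralizes hT hτA (mem_centralizer_iff.2 fun t ht => ?_)
    have h1 := hKz t (hTK ht)
    rw [h, or_self, mul_inv_eq_one, mul_inv_eq_iff_eq_mul] at h1
    exact h1.symm
  have hl3 : l = 3 := by
    refine hB.eq_three hτA hcK (fun h => hz1 ?_) hzz hKz
    rw [hz, h, mul_inv_cancel_right, mul_inv_cancel]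
  -- `A = K ∪ Kτ`
  have hAK : ∀ a ∈ A, a ∈ K ∨ a * τ⁻¹ ∈ K := by
    obtain ⟨χ, hχ1, -⟩ := hB.char
    intro a ha
    rw [or_iff_not_imp_left]
    intro haK
    have h1 : χ ⟨a, ha⟩ ≠ 1 := fun h => haK ((hχ1 ⟨a, ha⟩).1 h)
    have h2 : χ ⟨τ, hτA⟩ ≠ 1 := fun h => hτK ((hχ1 ⟨τ, hτA⟩).1 h)
    have h3 : ∀ u v : (ZMod l)ˣ, u ≠ 1 → v ≠ 1 → u = v := by
      subst hl3
      decide
    have h4 := (hχ1 (⟨a, ha⟩ * ⟨τ, hτA⟩⁻¹)).1 (by
      rw [map_mul, map_inv, h3 _ _ h1 h2, mul_inv_cancel])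
    exact h4
  refine ⟨z, ?_, hz1, hzz, ?_⟩
  · have h1 := commutator_mem_commutator hτA (hB.nA.1 hcK)
    rwa [commutatorElement_def] at h1
  · -- commutators
    have h1 : ∀ k ∈ K, k * τ * k⁻¹ * τ⁻¹ = 1 ∨ k * τ * k⁻¹ * τ⁻¹ = z := by
      intro k hk
      have h2 : k * τ * k⁻¹ * τ⁻¹ = (τ * k * τ⁻¹ * k⁻¹)⁻¹ := by group
      rw [h2]
      rcases hKz k hk with h | h
      · left; rw [h, inv_one]
      · right; rw [h]; exact inv_eq_of_mul_eq_one_right hzz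
    intro a ha b hb
    rcases hAK a ha with haK | haK <;> rcases hAK b hb with hbK | hbK
    · left
      rw [hab a haK b hbK]; group
    · -- `a ∈ K`, `b = b' τ`
      set b' := b * τ⁻¹ with hb'
      have h2 : a * b * a⁻¹ * b⁻¹ = b' * (a * τ * a⁻¹ * τ⁻¹) * b'⁻¹ := by
        have h3 : b = b' * τ := by rw [hb']; group
        have h4 : a * b' = b' * a := hab a haK b' hbK
        rw [h3]
        calc a * (b' * τ) * a⁻¹ * (b' * τ)⁻¹ = (a * b') * τ * a⁻¹ * τ⁻¹ * b'⁻¹ := by group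
          _ = (b' * a) * τ * a⁻¹ * τ⁻¹ * b'⁻¹ := by rw [h4]
          _ = _ := by group
      have h5 : a * τ * a⁻¹ * τ⁻¹ ∈ K := by
        have h6 := K.mul_mem haK (hB.nA.2 τ hτA _ (K.inv_mem haK))
        have h7 : a * (τ * a⁻¹ * τ⁻¹) = a * τ * a⁻¹ * τ⁻¹ := by group
        rwa [h7] at h6
      rw [h2, hab b' hbK _ h5, mul_inv_cancel_right]
      exact h1 a haK
    · set a' := a * τ⁻¹ with ha'
      have h3 : a = a' * τ := by rw [ha']; group
      have h5 : τ * b * τ⁻¹ * b⁻¹ ∈ K := K.mul_mem (hB.nA.2 τ hτA _ hbK) (K.inv_mem hbK)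
      have h2 : a * b * a⁻¹ * b⁻¹ = a' * (τ * b * τ⁻¹ * b⁻¹) * a'⁻¹ := by
        rw [h3]
        have h4 : b * a'⁻¹ = a'⁻¹ * b := hab b hbK a'⁻¹ (K.inv_mem haK)
        calc a' * τ * b * (a' * τ)⁻¹ * b⁻¹ = a' * (τ * b * τ⁻¹) * (b * a'⁻¹⁻¹)⁻¹ := by group
          _ = a' * (τ * b * τ⁻¹) * (a'⁻¹⁻¹ * b)⁻¹ := by
            rw [hab b hbK a'⁻¹⁻¹ (K.inv_mem (K.inv_mem haK))]
          _ = _ := by group
      rw [h2, hab a' haK _ h5, mul_inv_cancel_right]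
      exact hKz b hbK
    · set a' := a * τ⁻¹ with ha'
      set b' := b * τ⁻¹ with hb'
      have h3 : a = a' * τ := by rw [ha']; group
      have h4 : b = b' * τ := by rw [hb']; group
      have hk : b' * a'⁻¹ ∈ K := K.mul_mem hbK (K.inv_mem haK)
      have h5 : τ * (b' * a'⁻¹) * τ⁻¹ * (b' * a'⁻¹)⁻¹ ∈ K :=
        K.mul_mem (hB.nA.2 τ hτA _ hk) (K.inv_mem hk)
      have h2 : a * b * a⁻¹ * b⁻¹ = a' * (τ * (b' * a'⁻¹) * τ⁻¹ * (b' * a'⁻¹)⁻¹) * a'⁻¹ *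
          (a' * b' * a'⁻¹ * b'⁻¹) := by
        rw [h3, h4]; group
      have h6 : a' * b' * a'⁻¹ * b'⁻¹ = 1 := by
        rw [hab a' haK b' hbK]; group
      rw [h2, h6, mul_one, hab a' haK _ h5, mul_inv_cancel_right]
      exact hKz _ hk

end data

section final
variable [Finite G] {A M D : Subgroup G} {P : ℕ → Subgroup G} (h : NHyp A M D P)

include h in
/-- Claim A: there is a bad element with an exceptional situation. -/
theorem NHyp.exists_exc (hnab : ¬ ∀ a ∈ A, ∀ b ∈ A, a * b = b * a)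
    (hodd : ∀ l y, Bad M P l y → ∀ s, s.Prime → s ≠ 2 →
      A ≤ centralizer (opc s (rcore A (A ⊔ zpowers y)) : Set G)) :
    ∃ l y, Bad M P l y ∧ Exc A (rcore A (A ⊔ zpowers y)) (opc 2 (rcore A (A ⊔ zpowers y))) := by
  have hex : ∀ q, q.Prime → ¬ P q ≤ M → ∃ y, Bad M P q y := by
    intro q hq hqM
    obtain ⟨x, hx, hxM⟩ := SetLike.not_le_iff_exists.1 hqM
    obtain ⟨j, hj1, hj2⟩ := exists_pow_bad (h.Pp q hq) hx hxM
    exact ⟨_, hq, pow_mem hx _, hj1, hj2⟩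
  have hne : A ≠ ⊥ := by
    rintro rfl
    apply hnab
    intro a ha b hb
    rw [mem_bot] at ha hb
    rw [ha, hb]
  obtain ⟨p₀, hp₀, -, hp₀M⟩ := h.KK A le_rfl hne le_normalizer
  obtain ⟨y₀, hy₀⟩ := hex p₀ hp₀ hp₀M
  have hB₀ := h.badData hy₀ hnab
  have h2 : ∀ l y, Bad M P l y →
      ¬ A ≤ centralizer (opc 2 (rcore A (A ⊔ zpowers y)) : Set G) := by
    intro l y hb
    obtain ⟨s, hs, hsT⟩ := (h.badData hb hnab).exists_s hnab
    by_cases hs2 : s = 2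
    · rwa [hs2] at hsT
    · exact absurd (hodd l y hb s hs hs2) hsT
  by_cases hall : ∀ l y, Bad M P l y → rcore A (A ⊔ zpowers y) = rcore A (A ⊔ zpowers y₀)
  · -- all `K` are equal
    set K := rcore A (A ⊔ zpowers y₀) with hK
    have hT := h2 p₀ y₀ hy₀
    have hTne : opc 2 K ≠ ⊥ := by
      intro hb
      apply hT
      rw [hb]
      intro a _
      rw [mem_centralizer_iff]
      intro x hx
      rw [SetLike.mem_coe, mem_bot] at hx
      rw [hx, one_mul, mul_one]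
    obtain ⟨q, hq, hqT, hqM⟩ := h.KK (opc 2 K) ((opc_le 2 K).trans hB₀.nA.1) hTne
      hB₀.A_le_normalizer
    obtain ⟨y₁, hy₁⟩ := hex q hq hqM
    have hq2 : q ≠ 2 := (h.badData hy₁ hnab).l_ne_two
    rcases h.n7 hnab hall Nat.prime_two hq hq2 hqM with h3 | h3
    · exact absurd h3 hqT
    · exact ⟨p₀, y₀, hy₀, h3⟩
  · push Not at hall
    obtain ⟨l, y, hb, hKne⟩ := hall
    have hB := h.badData hb hnab
    refine ⟨l, y, hb, ?_⟩
    set K₁ := rcore A (A ⊔ zpowers y) with hK₁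
    set K₀ := rcore A (A ⊔ zpowers y₀) with hK₀
    have hnle : ¬ K₀ ≤ K₁ := by
      intro hle
      exact hKne (le_antisymm (hB.le_of_le hB₀ hnab hle) hle)
    obtain ⟨w, hw, hwK⟩ := SetLike.not_le_iff_exists.1 hnle
    obtain ⟨c₀, hc₀, hcyc⟩ := hB₀.cyc
    obtain ⟨c, hc, hcyc'⟩ := cyc_sub hB₀.nA.2 hB₀.nA.1 hc₀ hcyc
      ((opc_le 2 K₁).trans hB.nA.1)
    refine ⟨w, hB₀.nA.1 hw, hwK, ?_, opc 2 K₁ ⊓ K₀, inf_le_left, ?_, c, hc, ?_⟩
    · intro t ht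
      have h3 := hB.quad_of_mem hB₀ (s := 2) hw t ht
      rw [commutatorElement_eq_one_iff_mul_comm]
      have h4 : ⁅t, w⁆ = (w * t * w⁻¹ * t⁻¹)⁻¹ := by rw [commutatorElement_def]; group
      rw [h4]
      exact h3.inv_right.symm.eq
    · rintro x ⟨-, hx⟩
      exact hB₀.ab x hx w hw
    · intro t ht
      obtain ⟨n, hn⟩ := hcyc' t ht
      exact ⟨n, mul_mem ht (zpow_mem hc n), hn⟩

include h in
/-- Step N10. -/
theorem NHyp.ten (hnab : ¬ ∀ a ∈ A, ∀ b ∈ A, a * b = b * a)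
    (hodd : ∀ l y, Bad M P l y → ∀ s, s.Prime → s ≠ 2 →
      A ≤ centralizer (opc s (rcore A (A ⊔ zpowers y)) : Set G)) : False := by
  obtain ⟨l, y, hb, hexc⟩ := h.exists_exc hnab hodd
  have hB := h.badData hb hnab
  have h2 : ∀ l y, Bad M P l y →
      ¬ A ≤ centralizer (opc 2 (rcore A (A ⊔ zpowers y)) : Set G) := by
    intro l y hb
    obtain ⟨s, hs, hsT⟩ := (h.badData hb hnab).exists_s hnab
    by_cases hs2 : s = 2
    · rwa [hs2] at hsT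
    · exact absurd (hodd l y hb s hs hs2) hsT
  obtain ⟨z, hzA, hz1, hzz, hcomm⟩ := hB.exc (h2 l y hb) (hodd l y hb) hexc
  -- every bad prime is `3`
  have h3 : ∀ q y', Bad M P q y' → q = 3 := by
    intro q y' hb'
    have hB' := h.badData hb' hnab
    have h4 := h2 q y' hb'
    obtain ⟨a, ha, haT⟩ := SetLike.not_le_iff_exists.1 h4
    rw [mem_centralizer_iff] at haT
    push Not at haT
    obtain ⟨k, hk, hne⟩ := haT
    exact hB'.eq_three ha (opc_le 2 _ hk) (Ne.symm hne) hzz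
      fun k' hk' => hcomm a ha k' (hB'.nA.1 hk')
  have h4 : ∀ q, q.Prime → q ≠ 3 → P q ≤ M := by
    intro q hq hq3
    by_contra hqM
    obtain ⟨x, hx, hxM⟩ := SetLike.not_le_iff_exists.1 hqM
    obtain ⟨j, hj1, hj2⟩ := exists_pow_bad (h.Pp q hq) hx hxM
    exact hq3 (h3 q _ ⟨hq, pow_mem hx _, hj1, hj2⟩)
  have h5 : opp 3 (A ⊔ P 3) = ⊥ :=
    h.c2 3 Nat.prime_three h4 _ (opp_normalIn Nat.prime_three _)
      (not_dvd_card_opp Nat.prime_three _)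
  have h6 := inf_centralizer_opc_le Nat.prime_three (h.Psol 3 Nat.prime_three) h5
  -- `z` is central
  have hzAmem : z ∈ A := by
    have h7 : ⁅A, A⁆ ≤ A := by
      rw [commutator_le]
      intro a ha b hb
      rw [commutatorElement_def]
      exact mul_mem (mul_mem (mul_mem ha hb) (inv_mem ha)) (inv_mem hb)
    exact h7 hzA
  have hzc : ∀ a ∈ A, a * z * a⁻¹ = z := by
    intro a ha
    rcases hcomm a ha z hzAmem with h7 | h7
    · rwa [mul_inv_eq_one] at h7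
    · exfalso
      apply hz1
      have h8 : a * z * a⁻¹ = z * z := by
        calc a * z * a⁻¹ = a * z * a⁻¹ * z⁻¹ * z := by group
          _ = z * z := by rw [h7]
      rw [hzz] at h8
      have h9 : z = a⁻¹ * (a * z * a⁻¹) * a := by group
      rw [h9, h8]; group
  have hf3 : Fact (Nat.Prime 3) := ⟨Nat.prime_three⟩
  set L := A ⊔ P 3 with hL
  have hAL : A ≤ L := le_sup_left
  have hOn := opc_normalIn 3 L
  have h7 : ∀ x ∈ zpowers z, ∀ n ∈ opc 3 L, x * n = n * x := by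
    refine lemmaQ (A := A) (B := A) (r := 3) (opc_isPGroup 3 L)
      (fun Y hY => h.her.permutes_of_le_opc hAL hY) (fun a ha => hOn.2 a (hAL ha))
      (fun a ha => hOn.2 a (hAL ha)) ?_ ?_ ?_ ?_
    · intro a ha x hx
      obtain ⟨n, rfl⟩ := mem_zpowers_iff.1 hx
      rw [← conj_zpow, hzc a ha]
      exact zpow_mem (mem_zpowers z) n
    · rw [zpowers_le]
      exact hzA
    · rw [Nat.card_zpowers]
      intro hd
      have h8 : orderOf z ∣ 2 := orderOf_dvd_of_pow_eq_one (by rw [pow_two]; exact hzz)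
      have h9 := (hd.trans h8)
      norm_num at h9
    · rintro n ⟨hnA, -⟩ x hx
      obtain ⟨i, rfl⟩ := mem_zpowers_iff.1 hx
      have h8 : Commute n z := mul_inv_eq_iff_eq_mul.1 (hzc n hnA)
      exact (h8.zpow_right i).eq
  have h8 : z ∈ opc 3 L := by
    exact h6 ⟨hAL hzAmem, mem_centralizer_iff.2 fun n hn => (h7 z (mem_zpowers z) n hn).symm⟩
  obtain ⟨n, hn⟩ := exists_pow_eq_one_of_isPGroup (opc_isPGroup 3 L) h8
  apply hz1
  have h9 : orderOf z ∣ 2 := orderOf_dvd_of_pow_eq_one (by rw [pow_two]; exact hzz)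
  have h10 : orderOf z ∣ 3 ^ n := orderOf_dvd_of_pow_eq_one hn
  exact orderOf_eq_one_iff.1 (Nat.eq_one_of_dvd_coprimes
    (Nat.Coprime.pow_right n (by norm_num)) h9 h10)

end final

end MP_5771ce_al
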