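import Pool.Agent.Lib.MP_5771ce_al.TN.Inst
import Pool.Agent.Lib.MP_5771ce_al.TN.Odd
import Pool.Agent.Lib.MP_5771ce_al.TN.TenB

/-!
# Theorem N

In a minimal counterexample `(G, A)` with an isolated pair the subgroup `A` is abelian.
-/

set_option autoImplicit false

open Subgroup

namespace MP_5771ce_al

universe u

variable {G : Type u} [Group G]

/-- THEOREM N. -/
theorem MC.comm_of_isoPair [Finite G] {A D : Subgroup G} {p : ℕ} [Fact p.Prime] (h : MC A)
    (hD : IsoPair A p D) : ∀ a ∈ A, ∀ b ∈ A, a * b = b * a := by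
  by_contra hnab
  obtain ⟨M, D', P, h'⟩ := h.exists_nHyp hD
  exact h'.ten hnab fun l y hb s hs hs2 => h'.odd hnab hb hs hs2

end MP_5771ce_al
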