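import Pool.Agent.Lib.MP_5771ce_al.LibCore

set_option autoImplicit false

/-!
# Theorem N, part 2: Lemma F (quadratic elements inverting nothing of order `l`)
-/

open Subgroup
open scoped Pointwise commutatorElement

namespace MP_5771ce_al

/-! ### The ring version -/

theorem lemF_ring {R : Type*} [Ring R] {V W Y : R} {l k : ℕ} (hl : l.Prime) (hk0 : ¬ l ∣ k)
    (hk1 : (k : ZMod l) ≠ 1) (hVW : V * W = 1) (hWV : W * V = 1) (hY : Y ^ l = 1)
    (hYV : Y * V = V * Y ^ k) (hV : (V - 1) * (V - 1) = 0) (h2 : ∀ x : R, 2 * x = 0 → x = 0)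
    (hl' : ∀ x : R, (l : R) * x = 0 → x = 0) : Y = 1 := by
  have hfact : Fact l.Prime := ⟨hl⟩
  have hmod : ∀ n m : ℕ, (n : ZMod l) = m → Y ^ n = Y ^ m := by
    intro n m h
    rw [ZMod.natCast_eq_natCast_iff'] at h
    rw [pow_eq_pow_mod n hY, pow_eq_pow_mod m hY, h]
  have hval : ∀ z : ZMod l, ((z.val : ℕ) : ZMod l) = z := fun z => ZMod.natCast_zmod_val z
  have hYn : ∀ n : ℕ, Y ^ n * V = V * Y ^ (k * n) := by
    intro n
    have h1 : SemiconjBy V (Y ^ k) Y := hYV.symm
    have h3 : V * (Y ^ k) ^ n = Y ^ n * V := h1.pow_right n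
    rw [← h3, pow_mul]
  -- `X + X⁻¹ = 2` for quadratic units
  have hquad : ∀ X Z : R, Z * X = 1 → (X - 1) * (X - 1) = 0 → X + Z = 2 := by
    intro X Z hZX hX
    have h1 : Z * ((X - 1) * (X - 1)) = X - 1 - (1 - Z) := by
      have : Z * ((X - 1) * (X - 1)) = (Z * X) * X - Z * X - (Z * X - Z) := by noncomm_ring
      rw [this, hZX, one_mul]
    rw [hX, mul_zero] at h1
    have h3 : X + Z = (X - 1 - (1 - Z)) + 2 := by
      rw [← one_add_one_eq_two]
      abel
    rw [h3, ← h1, zero_add]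
  -- the elements `V Y^j`
  have hVY : ∀ z : ZMod l, V * Y ^ z.val + Y ^ (-z).val * W = 2 := by
    intro z
    refine hquad _ _ ?_ ?_
    · have h1 : Y ^ (-z).val * W * (V * Y ^ z.val) = Y ^ (-z).val * (W * V) * Y ^ z.val := by
        noncomm_ring
      rw [h1, hWV, mul_one, ← pow_add]
      have h3 := hmod ((-z).val + z.val) 0 (by push_cast; rw [hval, hval]; simp)
      rw [h3, pow_zero]
    · -- `V Y^z` is a conjugate of `V`
      have hk1' : (1 - (k : ZMod l)) ≠ 0 := sub_ne_zero.2 (Ne.symm hk1)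
      set i : ZMod l := z * (1 - (k : ZMod l))⁻¹ with hi
      have h1 : Y ^ (-i).val * V * Y ^ i.val = V * Y ^ z.val := by
        rw [hYn, mul_assoc, ← pow_add]
        congr 1
        apply hmod
        push_cast
        rw [hval, hval, hval]
        have : (k : ZMod l) * -i + i = i * (1 - k) := by ring
        rw [this, hi, mul_assoc, inv_mul_cancel₀ hk1', mul_one]
      have h3 : Y ^ (-i).val * Y ^ i.val = 1 := by
        rw [← pow_add]
        have := hmod ((-i).val + i.val) 0 (by push_cast; rw [hval, hval]; simp)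
        rw [this, pow_zero]
      have h4 : Y ^ i.val * Y ^ (-i).val = 1 := by
        rw [← pow_add]
        have := hmod (i.val + (-i).val) 0 (by push_cast; rw [hval, hval]; simp)
        rw [this, pow_zero]
      have h5 : V * Y ^ z.val - 1 = Y ^ (-i).val * (V - 1) * Y ^ i.val := by
        rw [mul_sub, sub_mul, h1, mul_one, h3]
      rw [h5]
      have h6 : Y ^ (-i).val * (V - 1) * Y ^ i.val * (Y ^ (-i).val * (V - 1) * Y ^ i.val) =
          Y ^ (-i).val * (V - 1) * (Y ^ i.val * Y ^ (-i).val) * (V - 1) * Y ^ i.val := by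
        noncomm_ring
      rw [h6, h4, mul_one, mul_assoc (Y ^ (-i).val), hV, mul_zero, zero_mul]
  set S : R := ∑ z : ZMod l, Y ^ z.val with hS
  have hS' : ∑ z : ZMod l, Y ^ (-z).val = S :=
    Equiv.sum_comp (Equiv.neg (ZMod l)) (fun z : ZMod l => Y ^ z.val)
  have hk0' : (k : ZMod l) ≠ 0 := by
    rwa [Ne, ZMod.natCast_eq_zero_iff]
  have hSV : S * V = V * S := by
    rw [hS, Finset.sum_mul, Finset.mul_sum]
    have h1 : ∀ z : ZMod l, Y ^ z.val * V = V * Y ^ ((k : ZMod l) * z).val := by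
      intro z
      rw [hYn]
      congr 1
      apply hmod
      push_cast
      rw [hval, hval]
    simp only [h1]
    exact Equiv.sum_comp (Equiv.mulLeft₀ (k : ZMod l) hk0') (fun z : ZMod l => V * Y ^ z.val)
  have hSW : S * W = W * S := by
    calc S * W = (W * V) * (S * W) := by rw [hWV, one_mul]
      _ = W * (V * S) * W := by noncomm_ring
      _ = W * (S * V) * W := by rw [hSV]
      _ = W * S * (V * W) := by noncomm_ring
      _ = W * S := by rw [hVW, mul_one]
  have hsum : V * S + S * W = 2 * (l : R) := by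
    have h1 : ∑ z : ZMod l, (V * Y ^ z.val + Y ^ (-z).val * W) = ∑ _z : ZMod l, (2 : R) :=
      Finset.sum_congr rfl fun z _ => hVY z
    rw [Finset.sum_add_distrib, ← Finset.mul_sum, ← Finset.sum_mul, hS', Finset.sum_const,
      Finset.card_univ, ZMod.card, nsmul_eq_mul] at h1
    rw [h1]
    exact (Nat.cast_commute l (2 : R)).eq
  have hVW2 : V + W = 2 := hquad V W hWV hV
  have h3 : 2 * (S - (l : R)) = 0 := by
    rw [mul_sub, ← hsum, hSW, ← add_mul, hVW2, sub_self]
  have h4 : S = (l : R) := sub_eq_zero.1 (h2 _ h3)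
  have h5 : Y * S = S := by
    rw [hS, Finset.mul_sum]
    have h1 : ∀ z : ZMod l, Y * Y ^ z.val = Y ^ (z + 1).val := by
      intro z
      rw [← pow_succ']
      apply hmod
      push_cast
      rw [hval, hval]
    simp only [h1]
    exact Equiv.sum_comp (Equiv.addRight (1 : ZMod l)) (fun z : ZMod l => Y ^ z.val)
  rw [h4] at h5
  have h6 : (l : R) * (Y - 1) = 0 := by
    rw [mul_sub, mul_one, (Nat.cast_commute l Y).eq, h5, sub_self]
  exact sub_eq_zero.1 (hl' _ h6)

/-! ### The group version -/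

universe u

variable {G : Type u} [Group G]

/-- `w` acts quadratically on `T` -/
def Quad (w : G) (T : Subgroup G) : Prop := ∀ t ∈ T, Commute w (w * t * w⁻¹ * t⁻¹)

theorem eq_one_of_pow_coprime {s n : ℕ} {T : Subgroup G} (hT : IsPGroup s T)
    (hn : s.Coprime n) {t : G} (ht : t ∈ T) (h : t ^ n = 1) : t = 1 := by
  obtain ⟨j, hj⟩ := hT ⟨t, ht⟩
  have hj' : t ^ s ^ j = 1 := congrArg Subtype.val hj
  have h1 : orderOf t ∣ Nat.gcd (s ^ j) n :=
    Nat.dvd_gcd (orderOf_dvd_of_pow_eq_one hj') (orderOf_dvd_of_pow_eq_one h)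
  rw [Nat.Coprime.gcd_eq_one (hn.pow_left j), Nat.dvd_one] at h1
  exact orderOf_eq_one_iff.1 h1

/-- conjugation as an endomorphism of an abelian normalised subgroup, written additively -/
theorem exists_conjEnd (T : Subgroup G) (hab : ∀ a ∈ T, ∀ b ∈ T, a * b = b * a) :
    ∃ (M : Type u) (_ : AddCommGroup M) (e : T ≃ M), (∀ a b, e (a * b) = e a + e b) ∧
      ∀ g ∈ normalizer (T : Set G), ∃ f : AddMonoid.End M, ∀ t t' : T,
        (t' : G) = g * t * g⁻¹ → f (e t) = e t' := by
  let _ : CommGroup T := { (inferInstance : Group T) with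
    mul_comm := fun a b => Subtype.ext (hab a a.2 b b.2) }
  refine ⟨Additive T, inferInstance, Additive.ofMul, fun a b => rfl, fun g hg => ?_⟩
  have hg' : ∀ t ∈ T, g * t * g⁻¹ ∈ T := fun t ht => (mem_normalizer_iff.1 hg t).1 ht
  let c : T →* T :=
    { toFun := fun t => ⟨g * t * g⁻¹, hg' t t.2⟩
      map_one' := by apply Subtype.ext; simp
      map_mul' := by intro a b; apply Subtype.ext; simp [mul_assoc] }
  refine ⟨MonoidHom.toAdditive c, fun t t' h => ?_⟩
  show Additive.ofMul (c t) = Additive.ofMul t'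
  congr 1
  exact Subtype.ext h.symm

theorem lemF {T : Subgroup G} (hab : ∀ a ∈ T, ∀ b ∈ T, a * b = b * a) {s : ℕ} (hs : s.Prime)
    (hT : IsPGroup s T) (hs2 : s ≠ 2) {l : ℕ} (hl : l.Prime) (hsl : s ≠ l) {w y : G}
    (hw : w ∈ normalizer (T : Set G)) (hy : y ∈ normalizer (T : Set G)) (hquad : Quad w T)
    (hyl : ∀ t ∈ T, Commute (y ^ l) t) {k : ℕ} (hk0 : ¬ l ∣ k) (hk1 : (k : ZMod l) ≠ 1)
    (hyw : ∀ t ∈ T, Commute ((y ^ k)⁻¹ * (w⁻¹ * y * w)) t) : ∀ t ∈ T, Commute y t := by
  obtain ⟨M, _, e, he, hconj⟩ := exists_conjEnd T hab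
  have he1 : e 1 = 0 := by
    have := he 1 1
    rw [mul_one] at this
    exact left_eq_add.1 this
  have heinv : ∀ a, e a⁻¹ = - e a := by
    intro a
    rw [eq_neg_iff_add_eq_zero, ← he, inv_mul_cancel, he1]
  have hpow : ∀ (a : T) (n : ℕ), e (a ^ n) = n • e a := by
    intro a n
    induction n with
    | zero => simp [he1]
    | succ n ih => rw [pow_succ, he, ih, succ_nsmul]
  have hmem : ∀ g ∈ normalizer (T : Set G), ∀ t ∈ T, g * t * g⁻¹ ∈ T := fun g hg t ht =>
    (mem_normalizer_iff.1 hg t).1 ht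
  obtain ⟨V, hV⟩ := hconj w hw
  obtain ⟨W, hW⟩ := hconj w⁻¹ (inv_mem hw)
  obtain ⟨Y, hY⟩ := hconj y hy
  have hV' : ∀ t : T, V (e t) = e ⟨w * t * w⁻¹, hmem w hw t t.2⟩ := fun t => hV _ _ rfl
  have hW' : ∀ t : T, W (e t) = e ⟨w⁻¹ * t * w⁻¹⁻¹, hmem _ (inv_mem hw) t t.2⟩ := fun t =>
    hW _ _ rfl
  have hY' : ∀ t : T, Y (e t) = e ⟨y * t * y⁻¹, hmem y hy t t.2⟩ := fun t => hY _ _ rfl
  have hYn : ∀ (n : ℕ) (t : T), (Y ^ n) (e t) =
      e ⟨y ^ n * t * (y ^ n)⁻¹, hmem _ (pow_mem hy n) t t.2⟩ := by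
    intro n
    induction n with
    | zero =>
      intro t
      show e t = _
      congr 1
      apply Subtype.ext
      simp
    | succ n ih =>
      intro t
      rw [pow_succ]
      show (Y ^ n) (Y (e t)) = _
      rw [hY', ih]
      congr 1
      apply Subtype.ext
      simp only [pow_succ]
      group
  have hext : ∀ f f' : AddMonoid.End M, (∀ t : T, f (e t) = f' (e t)) → f = f' := by
    intro f f' h
    ext m
    have := h (e.symm m)
    rwa [Equiv.apply_symm_apply] at this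
  have htf : ∀ n : ℕ, s.Coprime n → ∀ x : AddMonoid.End M, (n : AddMonoid.End M) * x = 0 →
      x = 0 := by
    intro n hn x hx
    apply hext
    intro t
    have h1 : (n : AddMonoid.End M) (x (e t)) = 0 := by
      have := congrArg (fun f : AddMonoid.End M => f (e t)) hx
      exact this
    have h3 : n • x (e t) = 0 := by
      rw [← h1]
      simp
    set a := e.symm (x (e t)) with ha
    have hea : e a = x (e t) := e.apply_symm_apply _
    rw [← hea, ← hpow, ← he1] at h3
    have h4 : a ^ n = 1 := e.injective h3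
    have h5 : (a : G) = 1 := eq_one_of_pow_coprime hT hn a.2 (congrArg Subtype.val h4)
    have h6 : a = 1 := Subtype.ext h5
    rw [← hea, h6, he1]
    rfl
  have hcop : ∀ q : ℕ, q.Prime → s ≠ q → s.Coprime q := fun q hq hne =>
    (Nat.coprime_primes hs hq).2 hne
  have hY1 : Y = 1 := by
    refine lemF_ring (V := V) (W := W) (k := k) hl hk0 hk1 ?_ ?_ ?_ ?_ ?_ ?_ ?_
    · apply hext
      intro t
      show V (W (e t)) = e t
      rw [hW', hV']
      congr 1
      apply Subtype.ext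
      show w * (w⁻¹ * t * w⁻¹⁻¹) * w⁻¹ = t
      group
    · apply hext
      intro t
      show W (V (e t)) = e t
      rw [hV', hW']
      congr 1
      apply Subtype.ext
      show w⁻¹ * (w * t * w⁻¹) * w⁻¹⁻¹ = t
      group
    · apply hext
      intro t
      rw [hYn]
      show _ = e t
      congr 1
      apply Subtype.ext
      show y ^ l * t * (y ^ l)⁻¹ = t
      rw [(hyl t t.2).eq, mul_inv_cancel_right]
    · apply hext
      intro t
      show Y (V (e t)) = V ((Y ^ k) (e t))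
      rw [hV', hY', hYn, hV']
      congr 1
      apply Subtype.ext
      show y * (w * t * w⁻¹) * y⁻¹ = w * (y ^ k * t * (y ^ k)⁻¹) * w⁻¹
      have h1 := (hyw t t.2).eq
      have h3 : w⁻¹ * y * w * (t : G) = y ^ k * t * ((y ^ k)⁻¹ * (w⁻¹ * y * w)) := by
        rw [mul_assoc (y ^ k), ← h1]
        group
      have h4 : y * (w * (t : G) * w⁻¹) * y⁻¹ =
          w * (w⁻¹ * y * w * (t : G)) * (w⁻¹ * y * w)⁻¹ * w⁻¹ := by group
      rw [h4, h3]
      group
    · apply hext
      intro t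
      show V (V (e t) - e t) - (V (e t) - e t) = 0
      have h1 : V (e t) - e t = e (⟨w * t * w⁻¹, hmem w hw t t.2⟩ * t⁻¹) := by
        rw [hV', he, heinv, sub_eq_add_neg]
      rw [h1, hV', sub_eq_zero]
      congr 1
      apply Subtype.ext
      show w * (w * t * w⁻¹ * (t : G)⁻¹) * w⁻¹ = w * t * w⁻¹ * (t : G)⁻¹
      rw [(hquad t t.2).eq, mul_inv_cancel_right]
    · intro x hx
      exact htf 2 (hcop 2 Nat.prime_two hs2) x (by exact_mod_cast hx)
    · exact htf l (hcop l hl hsl)
  intro t ht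
  have h1 := hY' ⟨t, ht⟩
  rw [hY1] at h1
  have h3 : (⟨t, ht⟩ : T) = ⟨y * t * y⁻¹, hmem y hy t ht⟩ := e.injective h1
  have h4 : t = y * t * y⁻¹ := congrArg Subtype.val h3
  show y * t = t * y
  calc y * t = (y * t * y⁻¹) * y := by group
    _ = t * y := by rw [← h4]

end MP_5771ce_al
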