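import Pool.Agent.Lib.MP_5771ce_al.LibCore
import Pool.Agent.Lib.MP_5771ce_al.LibFrat

set_option autoImplicit false

/-!
# Theorem N, part 3: utilities
-/

open Subgroup
open scoped Pointwise commutatorElement

namespace MP_5771ce_al

variable {G : Type*} [Group G]

/-! ### Powers -/

theorem mem_of_zpow_mem {H : Subgroup G} {y : G} {i j : ℤ} (hi : y ^ i ∈ H) (hj : y ^ j ∈ H)
    (h : IsCoprime i j) : y ∈ H := by
  obtain ⟨u, v, huv⟩ := h
  have h1 : y = (y ^ i) ^ u * (y ^ j) ^ v := by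
    rw [← zpow_mul, ← zpow_mul, ← zpow_add]
    have : i * u + j * v = 1 := by rw [← huv]; ring
    rw [this, zpow_one]
  rw [h1]
  exact H.mul_mem (H.zpow_mem hi u) (H.zpow_mem hj v)

theorem isCoprime_of_not_dvd {l : ℕ} (hl : l.Prime) {i : ℤ} (h : ¬ (l : ℤ) ∣ i) :
    IsCoprime i (l : ℤ) := by
  have hp : Prime (l : ℤ) := Nat.prime_iff_prime_int.1 hl
  exact ((hp.coprime_iff_not_dvd).2 h).symm

theorem dvd_of_zpow_mem {H : Subgroup G} {y : G} {l : ℕ} (hl : l.Prime) (hyl : y ^ l ∈ H)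
    (hy : y ∉ H) {i : ℤ} (hi : y ^ i ∈ H) : (l : ℤ) ∣ i := by
  by_contra h
  refine hy (mem_of_zpow_mem hi (j := (l : ℤ)) ?_ (isCoprime_of_not_dvd hl h))
  rw [zpow_natCast]
  exact hyl

theorem zpow_mem_zpowers_pow {y : G} {l : ℕ} {i : ℤ} (h : (l : ℤ) ∣ i) :
    y ^ i ∈ zpowers (y ^ l) := by
  obtain ⟨j, rfl⟩ := h
  refine mem_zpowers_iff.2 ⟨j, ?_⟩
  rw [zpow_mul, zpow_natCast]

theorem relIndex_zpowers_of_prime {H : Subgroup G} {y : G} {l : ℕ} (hl : l.Prime)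
    (hyl : y ^ l ∈ H) (hy : y ∉ H) : H.relIndex (zpowers y) = l := by
  have hl0 : 0 < l := hl.pos
  set K := H.subgroupOf (zpowers y) with hK
  have hmemK : ∀ i : ℤ, (⟨y ^ i, zpow_mem_zpowers y i⟩ : zpowers y) ∈ K ↔ (l : ℤ) ∣ i := by
    intro i
    rw [hK, mem_subgroupOf]
    constructor
    · intro h
      exact dvd_of_zpow_mem hl hyl hy h
    · rintro ⟨j, rfl⟩
      show y ^ ((l : ℤ) * j) ∈ H
      rw [zpow_mul, zpow_natCast]
      exact H.zpow_mem hyl j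
  show K.index = l
  rw [Subgroup.index]
  have : Nat.card (zpowers y ⧸ K) = Nat.card (Fin l) := by
    refine (Nat.card_congr (Equiv.ofBijective
      (fun i : Fin l => (QuotientGroup.mk (⟨y ^ ((i : ℕ) : ℤ), zpow_mem_zpowers y _⟩ : zpowers y) :
        zpowers y ⧸ K)) ⟨?_, ?_⟩)).symm
    · intro i j hij
      have h1 : (QuotientGroup.mk (⟨y ^ ((i : ℕ) : ℤ), zpow_mem_zpowers y _⟩ : zpowers y) :
        zpowers y ⧸ K) = QuotientGroup.mk (⟨y ^ ((j : ℕ) : ℤ), zpow_mem_zpowers y _⟩ : zpowers y) := hij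
      rw [QuotientGroup.eq] at h1
      have h2 : (⟨y ^ ((i : ℕ) : ℤ), zpow_mem_zpowers y _⟩ : zpowers y)⁻¹ *
          ⟨y ^ ((j : ℕ) : ℤ), zpow_mem_zpowers y _⟩ =
          ⟨y ^ (((j : ℕ) : ℤ) - ((i : ℕ) : ℤ)), zpow_mem_zpowers y _⟩ := by
        apply Subtype.ext
        show (y ^ ((i : ℕ) : ℤ))⁻¹ * y ^ ((j : ℕ) : ℤ) = y ^ (((j : ℕ) : ℤ) - ((i : ℕ) : ℤ))
        rw [← zpow_neg, ← zpow_add]
        congr 1
        ring
      rw [h2, hmemK] at h1
      have h3 := i.2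
      have h4 := j.2
      apply Fin.ext
      obtain ⟨c, hc⟩ := h1
      have h5 : |(l : ℤ) * c| < l := by
        rw [← hc, abs_lt]
        constructor <;> omega
      have h6 : c = 0 := by
        by_contra hc0
        have h7 : 1 ≤ |c| := Int.one_le_abs hc0
        rw [abs_mul, Nat.abs_cast] at h5
        nlinarith
      rw [h6, mul_zero] at hc
      omega
    · intro g
      induction g using QuotientGroup.induction_on with
      | H g =>
      obtain ⟨_, i, rfl⟩ := g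
      have h1 : 0 ≤ i % (l : ℤ) := Int.emod_nonneg _ (by omega)
      have h2 : i % (l : ℤ) < l := Int.emod_lt_of_pos _ (by omega)
      refine ⟨⟨(i % (l : ℤ)).toNat, by omega⟩, ?_⟩
      show (QuotientGroup.mk (⟨y ^ (((i % (l : ℤ)).toNat : ℕ) : ℤ), zpow_mem_zpowers y _⟩ : zpowers y) :
        zpowers y ⧸ K) = QuotientGroup.mk (⟨y ^ i, _⟩ : zpowers y)
      rw [QuotientGroup.eq]
      have h3 : (((i % (l : ℤ)).toNat : ℕ) : ℤ) = i % (l : ℤ) := Int.toNat_of_nonneg h1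
      have h4 : (⟨y ^ (((i % (l : ℤ)).toNat : ℕ) : ℤ), zpow_mem_zpowers y _⟩ : zpowers y)⁻¹ *
          ⟨y ^ i, zpow_mem_zpowers y i⟩ = ⟨y ^ (i - i % (l : ℤ)), zpow_mem_zpowers y _⟩ := by
        apply Subtype.ext
        show (y ^ (((i % (l : ℤ)).toNat : ℕ) : ℤ))⁻¹ * y ^ i = y ^ (i - i % (l : ℤ))
        rw [h3, ← zpow_neg, ← zpow_add]
        congr 1
        ring
      rw [h4, hmemK]
      exact Int.dvd_self_sub_emod
  rw [this, Nat.card_eq_fintype_card, Fintype.card_fin]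

/-! ### `A` permutes with every subgroup of a `p`-group it permutes with -/

theorem HerPermutable.permutes_of_le_pgroup [Finite G] {A : Subgroup G} (hA : HerPermutable A)
    {p : ℕ} (hp : p.Prime) : ∀ (n : ℕ) (P : Subgroup G), Nat.card P = n → IsPGroup p P →
      Permutes A P → ∀ N ≤ P, Permutes A N := by
  have hfact : Fact p.Prime := ⟨hp⟩
  intro n
  induction n using Nat.strong_induction_on with
  | _ n ih =>
    intro P hn hP hAP N hN
    rcases hN.eq_or_lt with rfl | hlt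
    · exact hAP
    · have h1 : N.subgroupOf P ≠ ⊤ := by
        rw [Ne, subgroupOf_eq_top]
        exact hlt.not_ge
      obtain ⟨K, hK, hNK⟩ := (eq_top_or_exists_le_coatom (N.subgroupOf P)).resolve_left h1
      have hKn : K.Normal := normal_of_coatom_of_pgroup hP hK
      have hKP : K.map P.subtype ≤ P := map_subtype_le K
      have h2 : Permutes A (K.map P.subtype) := by
        refine hA.permutes_of_normal hAP hKP ?_
        rintro b hb _ ⟨⟨k, hk'⟩, hk, rfl⟩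
        exact ⟨⟨b, hb⟩ * ⟨k, hk'⟩ * ⟨b, hb⟩⁻¹, hKn.conj_mem _ hk ⟨b, hb⟩, rfl⟩
      have h3 : Nat.card (K.map P.subtype) < n := by
        rw [← hn]
        apply card_lt_of_lt
        refine lt_of_le_of_ne hKP fun h => hK.1 ?_
        rw [eq_top_iff]
        rintro ⟨x, hx⟩ _
        rw [← h] at hx
        obtain ⟨⟨k, hk'⟩, hk, hkx⟩ := hx
        have : k = x := hkx
        subst this
        exact hk
      have h4 : N ≤ K.map P.subtype := by
        intro x hx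
        exact ⟨⟨x, hN hx⟩, hNK (by rw [mem_subgroupOf]; exact hx), rfl⟩
      exact ih _ h3 _ rfl (hP.to_le hKP) h2 N h4

theorem HerPermutable.permutes_pgroup [Finite G] {A P N : Subgroup G} (hA : HerPermutable A)
    {p : ℕ} (hp : p.Prime) (hP : IsPGroup p P) (hAP : Permutes A P) (hN : N ≤ P) :
    Permutes A N := hA.permutes_of_le_pgroup hp _ P rfl hP hAP N hN

/-! ### The trace map -/

section trace
variable {N : Subgroup G} (hab : ∀ a ∈ N, ∀ b ∈ N, a * b = b * a) {x : G}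
  (hx : ∀ n ∈ N, x⁻¹ * n * x ∈ N)

include hab hx in
theorem trace_aux (i : ℕ) : (∀ n ∈ N, (x ^ i)⁻¹ * (x * n) ^ i ∈ N) ∧
    ∀ n ∈ N, ∀ m ∈ N, (x ^ i)⁻¹ * (x * (n * m)) ^ i =
      ((x ^ i)⁻¹ * (x * n) ^ i) * ((x ^ i)⁻¹ * (x * m) ^ i) := by
  induction i with
  | zero => simp
  | succ i ih =>
    obtain ⟨h1, h2⟩ := ih
    have hrec : ∀ n, (x ^ (i + 1))⁻¹ * (x * n) ^ (i + 1) =
        (x⁻¹ * ((x ^ i)⁻¹ * (x * n) ^ i) * x) * n := by
      intro n
      rw [pow_succ, pow_succ (x * n)]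
      group
    refine ⟨fun n hn => ?_, fun n hn m hm => ?_⟩
    · rw [hrec]
      exact N.mul_mem (hx _ (h1 n hn)) hn
    · rw [hrec, hrec, hrec, h2 n hn m hm]
      set a := (x ^ i)⁻¹ * (x * n) ^ i with ha
      set b := (x ^ i)⁻¹ * (x * m) ^ i with hb
      have e1 : x⁻¹ * (a * b) * x = (x⁻¹ * a * x) * (x⁻¹ * b * x) := by group
      rw [e1]
      have e2 := hab _ (hx _ (h1 m hm)) n hn
      calc x⁻¹ * a * x * (x⁻¹ * b * x) * (n * m)
          = x⁻¹ * a * x * ((x⁻¹ * b * x) * n) * m := by group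
        _ = x⁻¹ * a * x * (n * (x⁻¹ * b * x)) * m := by rw [e2]
        _ = x⁻¹ * a * x * n * (x⁻¹ * b * x * m) := by group

include hab hx in
theorem trace_zpow (i : ℕ) {n : G} (hn : n ∈ N) (j : ℤ) :
    (x ^ i)⁻¹ * (x * n ^ j) ^ i = ((x ^ i)⁻¹ * (x * n) ^ i) ^ j := by
  have h := trace_aux hab hx i
  let t : N →* G :=
    { toFun := fun n => (x ^ i)⁻¹ * (x * n) ^ i
      map_one' := by simp
      map_mul' := fun a b => h.2 a a.2 b b.2 }
  exact map_zpow t ⟨n, hn⟩ j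

end trace

/-! ### `l`-elements of abelian groups -/

theorem mem_opc_of_abelian_pow {N : Subgroup G} (hab : ∀ a ∈ N, ∀ b ∈ N, a * b = b * a) {l c : ℕ}
    {n : G} (hn : n ∈ N) (hc : n ^ (l ^ c) = 1) : n ∈ opc l N := by
  have h1 : zpowers n ≤ opc l N := by
    refine le_opc ⟨by rwa [zpowers_le], ?_⟩ ?_
    · rintro e he _ ⟨i, rfl⟩
      have h2 : e * n ^ i * e⁻¹ = n ^ i := by
        rw [hab e he _ (N.zpow_mem hn i), mul_inv_cancel_right]
      show e * n ^ i * e⁻¹ ∈ zpowers n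
      rw [h2]
      exact zpow_mem_zpowers n i
    · rintro ⟨_, ⟨i, rfl⟩⟩
      refine ⟨c, Subtype.ext ?_⟩
      show (n ^ i) ^ (l ^ c) = 1
      rw [← zpow_natCast, ← zpow_mul, mul_comm, zpow_mul, zpow_natCast, hc, one_zpow]
  exact h1 (mem_zpowers n)

theorem exists_lpart [Finite G] {l : ℕ} (hl : l.Prime) (n : G) :
    ∃ q c : ℕ, ¬ l ∣ q ∧ (n ^ q) ^ (l ^ c) = 1 := by
  obtain ⟨c, q, hq, hqc⟩ := Nat.exists_eq_pow_mul_and_not_dvd (orderOf_pos n).ne' l hl.ne_one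
  refine ⟨q, c, hq, ?_⟩
  rw [← pow_mul, mul_comm, ← hqc, pow_orderOf_eq_one]

theorem exists_pow_eq_one_of_isPGroup {p : ℕ} {P : Subgroup G} (hP : IsPGroup p P) {x : G}
    (hx : x ∈ P) : ∃ n, x ^ (p ^ n) = 1 := by
  obtain ⟨n, hn⟩ := hP ⟨x, hx⟩
  exact ⟨n, congrArg Subtype.val hn⟩

/-- if `x` is an `l`-element and `x^e ∈ H` with `e` prime to `l` then `x ∈ H` -/
theorem mem_of_zpow_mem_of_pow_eq_one {H : Subgroup G} {x : G} {l n : ℕ} (hl : l.Prime)
    (hx : x ^ (l ^ n) = 1) {e : ℤ} (he : ¬ (l : ℤ) ∣ e) (h : x ^ e ∈ H) : x ∈ H := by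
  refine mem_of_zpow_mem h (j := ((l ^ n : ℕ) : ℤ)) ?_ ?_
  · rw [zpow_natCast, hx]
    exact H.one_mem
  · rw [Nat.cast_pow]
    exact (isCoprime_of_not_dvd hl he).pow_right

end MP_5771ce_al
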