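import Pool.Agent.Lib.MP_5771ce_al.TN.PrimeIndex
import Pool.Agent.Lib.MP_5771ce_al.TN.Util
import Pool.Agent.Lib.MP_5771ce_al.TN.LemF

set_option autoImplicit false

/-!
# Theorem N, part 4: the hypotheses, bad elements, steps N1, N2, N3
-/

open Subgroup
open scoped Pointwise commutatorElement

namespace MP_5771ce_al

variable {G : Type*} [Group G]

/-- The facts on a minimal counterexample with an isolated pair which are used in Theorem N.
`D` is `Ω₁(O_p(M))` of the isolated pair, `P p` is a Sylow `p`-subgroup permuting with `A`. -/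
structure NHyp (A M D : Subgroup G) (P : ℕ → Subgroup G) : Prop where
  her : HerPermutable A
  hAM : A ≤ M
  hM : M ≠ ⊤
  hMD : M ≤ normalizer (D : Set G)
  comm : ∀ a ∈ A, ∀ g ∈ M, a * g * a⁻¹ * g⁻¹ ∈ centralizer (D : Set G)
  uniq : ∀ E : Subgroup G, A ≤ E → D ≤ E → E ≠ ⊤ → E ≤ M
  nrm : ∀ W : Subgroup G, Group.IsSolvable W → W ≠ ⊥ → normalizer (W : Set G) ≠ ⊤
  core : ∀ W : Subgroup G, W.Normal → W ≤ M → W = ⊥
  radical : ∀ E : Subgroup G, A ≤ E → E ≠ ⊤ → A ≤ rad E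
  Pp : ∀ p, p.Prime → IsPGroup p (P p)
  Pi : ∀ p, p.Prime → ¬ p ∣ (P p).index
  Pperm : ∀ p, p.Prime → Permutes A (P p)
  Psol : ∀ p, p.Prime → Group.IsSolvable (A ⊔ P p : Subgroup G)
  Pne : ∀ p, p.Prime → A ⊔ P p ≠ ⊤
  KK : ∀ Y : Subgroup G, Y ≤ A → Y ≠ ⊥ → A ≤ normalizer (Y : Set G) →
    ∃ p, p.Prime ∧ ¬ P p ≤ normalizer (Y : Set G) ∧ ¬ P p ≤ M
  c2 : ∀ p, p.Prime → (∀ q, q.Prime → q ≠ p → P q ≤ M) →
    ∀ O : Subgroup G, NormalIn O (A ⊔ P p) → ¬ p ∣ Nat.card O → O = ⊥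

/-- a bad element: `y ∈ P_l ∖ M`, `y^l ∈ M` -/
def Bad (M : Subgroup G) (P : ℕ → Subgroup G) (l : ℕ) (y : G) : Prop :=
  l.Prime ∧ y ∈ P l ∧ y ∉ M ∧ y ^ l ∈ M

theorem exists_pow_bad {H Q : Subgroup G} {l : ℕ} (hQ : IsPGroup l Q) {x : G} (hx : x ∈ Q)
    (hxH : x ∉ H) : ∃ j, x ^ (l ^ j) ∉ H ∧ (x ^ (l ^ j)) ^ l ∈ H := by
  classical
  obtain ⟨n, hn⟩ := exists_pow_eq_one_of_isPGroup hQ hx
  have hex : ∃ n, x ^ (l ^ n) ∈ H := ⟨n, hn ▸ H.one_mem⟩
  have h0 : Nat.find hex ≠ 0 := by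
    intro h0
    have := Nat.find_spec hex
    rw [h0, pow_zero, pow_one] at this
    exact hxH this
  obtain ⟨j, hj⟩ := Nat.exists_eq_succ_of_ne_zero h0
  refine ⟨j, Nat.find_min hex (by omega), ?_⟩
  have := Nat.find_spec hex
  rwa [hj, Nat.succ_eq_add_one, pow_succ, pow_mul] at this

/-- Dedekind's law for `A⟨y⟩ ∩ U` -/
theorem sup_zpowers_inf {A U : Subgroup G} {y : G} {l : ℕ} (hl : l.Prime) (hAU : A ≤ U)
    (hp : Permutes A (zpowers y)) (hy : y ∉ U) (hyl : y ^ l ∈ U) :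
    (A ⊔ zpowers y) ⊓ U = A ⊔ zpowers (y ^ l) := by
  apply le_antisymm
  · rintro g ⟨hg, hgU⟩
    obtain ⟨a, ha, _, ⟨i, rfl⟩, rfl⟩ := hp.mem_sup.1 hg
    have h1 : y ^ i ∈ U := by
      have := U.mul_mem (U.inv_mem (hAU ha)) hgU
      simpa using this
    exact mul_mem (mem_sup_left ha)
      (mem_sup_right (zpow_mem_zpowers_pow (dvd_of_zpow_mem hl hyl hy h1)))
  · refine le_inf (sup_le le_sup_left ?_) (sup_le hAU ?_)
    · rw [zpowers_le]
      exact mem_sup_right (pow_mem (mem_zpowers y) l)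
    · rwa [zpowers_le]

theorem relIndex_sup_zpowers {A F : Subgroup G} {y : G} {l : ℕ} (hl : l.Prime) (hAF : A ≤ F)
    (hFE : F ≤ A ⊔ zpowers y) (hp : Permutes A (zpowers y)) (hy : y ∉ F) (hyl : y ^ l ∈ F) :
    F.relIndex (A ⊔ zpowers y) = l := by
  have h1 : Permutes F (zpowers y) := by
    rw [permutes_iff]
    intro f hf b hb
    have h2 : f * b ∈ A ⊔ zpowers y := mul_mem (hFE hf) (mem_sup_right hb)
    obtain ⟨b', hb', a, ha, h3⟩ := hp.mem_sup'.1 h2
    exact ⟨b', hb', a, hAF ha, h3.symm⟩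
  have h2 : F ⊔ zpowers y = A ⊔ zpowers y :=
    le_antisymm (sup_le hFE le_sup_right) (sup_le_sup_right hAF _)
  rw [← h2, h1.relIndex_sup, relIndex_zpowers_of_prime hl hyl hy]

section steps
variable {A M D : Subgroup G} {P : ℕ → Subgroup G} (h : NHyp A M D P)

include h in
/-- the basic tool: a subgroup normalised by `A` and an element outside `M` and centralising `D` is
trivial -/
theorem NHyp.eq_bot {J : Subgroup G} (hJ : Group.IsSolvable J)
    (hA : A ≤ normalizer (J : Set G)) {y : G} (hy : y ∈ normalizer (J : Set G)) (hyM : y ∉ M)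
    (hD : J ≤ centralizer (D : Set G)) : J = ⊥ := by
  by_contra hne
  have h1 : D ≤ normalizer (J : Set G) := by
    have h2 : D ≤ centralizer (J : Set G) := fun d hd => mem_centralizer_iff.2 fun j hj =>
      (mem_centralizer_iff.1 (hD hj) d hd).symm
    exact h2.trans (centralizer_le_normalizer _)
  exact hyM (h.uniq _ hA h1 (h.nrm J hJ hne) hy)

include h in
theorem NHyp.perm_zpowers [Finite G] {l : ℕ} (hl : l.Prime) {y : G} (hy : y ∈ P l) :
    Permutes A (zpowers y) :=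
  h.her.permutes_pgroup hl (h.Pp l hl) (h.Pperm l hl) (by rwa [zpowers_le])

include h in
theorem NHyp.isSolvable_sup {l : ℕ} (hl : l.Prime) {y : G} (hy : y ∈ P l) :
    Group.IsSolvable (A ⊔ zpowers y : Subgroup G) :=
  isSolvable_of_le (h.Psol l hl) (sup_le_sup_left (by rwa [zpowers_le]) _)

include h in
/-- commutators of `A⟨z⟩`, `z ∈ M`, centralise `D` -/
theorem NHyp.comm_sup {z : G} (hz : z ∈ M) {f g : G} (hf : f ∈ A ⊔ zpowers z)
    (hg : g ∈ A ⊔ zpowers z) : f * g * f⁻¹ * g⁻¹ ∈ centralizer (D : Set G) := by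
  -- the action of `M` on `D`
  set ρ := D.normalizerMonoidHom with hρ
  have hle : A ⊔ zpowers z ≤ M := sup_le h.hAM (by rwa [zpowers_le])
  have hker : ∀ g : normalizer (D : Set G), ρ g = 1 ↔ (g : G) ∈ centralizer (D : Set G) := by
    intro g
    rw [← MonoidHom.mem_ker, hρ, normalizerMonoidHom_ker, mem_subgroupOf]
  -- commuting with everything of `M`
  have key : ∀ g : normalizer (D : Set G), (∃ x ∈ A ⊔ zpowers z, (g : G) = x) →
      ∀ f : normalizer (D : Set G), (∃ x ∈ A ⊔ zpowers z, (f : G) = x) → Commute (ρ f) (ρ g) := by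
    have hcomm : ∀ f g : normalizer (D : Set G), (f : G) * g * (f : G)⁻¹ * (g : G)⁻¹ ∈
        centralizer (D : Set G) → Commute (ρ f) (ρ g) := by
      intro f g hfg
      have h1 : ρ (f * g * f⁻¹ * g⁻¹) = 1 := (hker _).2 hfg
      rw [map_mul, map_mul, map_mul, map_inv, map_inv, mul_inv_eq_one, mul_inv_eq_iff_eq_mul] at h1
      exact h1
    have h1 : ∀ a : normalizer (D : Set G), (a : G) ∈ A → ∀ g : normalizer (D : Set G),
        (g : G) ∈ M → Commute (ρ a) (ρ g) := fun a ha g hg => hcomm a g (h.comm a ha g hg)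
    have h2 : ∀ g : normalizer (D : Set G), (g : G) ∈ A ⊔ zpowers z → Commute (ρ g)
        (ρ ⟨z, h.hMD hz⟩) := by
      intro g hg
      have h3 : A ⊔ zpowers z ≤
          ((centralizer {ρ ⟨z, h.hMD hz⟩}).comap ρ).map (normalizer (D : Set G)).subtype := by
        refine sup_le (fun a ha => ?_) ?_
        · refine ⟨⟨a, h.hMD (h.hAM ha)⟩, ?_, rfl⟩
          rw [SetLike.mem_coe, mem_comap, mem_centralizer_singleton_iff]
          exact h1 _ ha _ hz
        · rw [zpowers_le]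
          refine ⟨⟨z, h.hMD hz⟩, ?_, rfl⟩
          rw [SetLike.mem_coe, mem_comap, mem_centralizer_singleton_iff]
      obtain ⟨g', hg', hgg⟩ := h3 hg
      have h4 : g' = g := Subtype.ext hgg
      subst h4
      rw [SetLike.mem_coe, mem_comap, mem_centralizer_singleton_iff] at hg'
      exact hg'
    rintro g ⟨x, hx, hgx⟩ f ⟨x', hx', hfx⟩
    have h3 : A ⊔ zpowers z ≤
        ((centralizer {ρ g}).comap ρ).map (normalizer (D : Set G)).subtype := by
      refine sup_le (fun a ha => ?_) ?_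
      · refine ⟨⟨a, h.hMD (h.hAM ha)⟩, ?_, rfl⟩
        rw [SetLike.mem_coe, mem_comap, mem_centralizer_singleton_iff]
        exact h1 _ ha g (by rw [hgx]; exact hle hx)
      · rw [zpowers_le]
        refine ⟨⟨z, h.hMD hz⟩, ?_, rfl⟩
        rw [SetLike.mem_coe, mem_comap, mem_centralizer_singleton_iff]
        exact (h2 g (by rw [hgx]; exact hx)).symm
    obtain ⟨f', hf', hff⟩ := h3 (hfx ▸ hx')
    have h4 : f' = f := Subtype.ext hff
    subst h4
    rw [SetLike.mem_coe, mem_comap, mem_centralizer_singleton_iff] at hf'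
    exact hf'
  have h5 := key ⟨g, h.hMD (hle hg)⟩ ⟨g, hg, rfl⟩ ⟨f, h.hMD (hle hf)⟩ ⟨f, hf, rfl⟩
  have h6 : ρ (⟨f, h.hMD (hle hf)⟩ * ⟨g, h.hMD (hle hg)⟩ * ⟨f, h.hMD (hle hf)⟩⁻¹ *
      ⟨g, h.hMD (hle hg)⟩⁻¹) = 1 := by
    rw [map_mul, map_mul, map_mul, map_inv, map_inv, h5.eq]
    group
  exact (hker _).1 h6

variable {l : ℕ} {y : G} (hb : Bad M P l y)

include h hb in
/-- N1 -/
theorem NHyp.core_abelian :
    ∀ a ∈ rcore (A ⊔ zpowers (y ^ l)) (A ⊔ zpowers y),
      ∀ b ∈ rcore (A ⊔ zpowers (y ^ l)) (A ⊔ zpowers y), a * b = b * a := by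
  obtain ⟨hl, hyP, hyM, hylM⟩ := hb
  set E := A ⊔ zpowers y with hE
  set F := A ⊔ zpowers (y ^ l) with hF
  have hFE : F ≤ E := sup_le le_sup_left (by
    rw [zpowers_le]
    exact mem_sup_right (pow_mem (mem_zpowers y) l))
  set N := rcore F E with hN
  have hNE : NormalIn N E := rcore_normalIn hFE
  have hJE : NormalIn ⁅N, N⁆ E := hNE.commutator hNE
  have hJ : ⁅N, N⁆ = ⊥ := by
    refine h.eq_bot (y := y) (isSolvable_of_le (h.isSolvable_sup hl hyP) hJE.1) ?_ ?_ hyM ?_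
    · exact le_sup_left.trans hJE.le_normalizer
    · exact hJE.le_normalizer (mem_sup_right (mem_zpowers y))
    · rw [commutator_le]
      intro a ha b hb
      exact h.comm_sup hylM (rcore_le F E ha) (rcore_le F E hb)
  intro a ha b hb
  have h1 := commutator_mem_commutator ha hb
  rw [hJ, mem_bot, commutatorElement_eq_one_iff_mul_comm] at h1
  exact h1

/-- the character in the form used below -/
theorem exists_char_sup [Finite G] (hl : l.Prime) (hAE : Group.IsSolvable (A ⊔ zpowers y : Subgroup G))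
    (hp : Permutes A (zpowers y)) {F : Subgroup G} (hAF : A ≤ F) (hFE : F ≤ A ⊔ zpowers y)
    (hyF : y ∉ F) (hylF : y ^ l ∈ F) {n : ℕ} (hyn : y ^ (l ^ n) = 1) :
    y ^ l ∈ rcore F (A ⊔ zpowers y) ∧ ∃ χ : (A ⊔ zpowers y : Subgroup G) →* (ZMod l)ˣ,
      (∀ (e : (A ⊔ zpowers y : Subgroup G)) (k : ℕ), (k : ZMod l) = χ e →
        (y ^ k)⁻¹ * ((e : G)⁻¹ * y * e) ∈ rcore F (A ⊔ zpowers y)) ∧
      ∀ f : (A ⊔ zpowers y : Subgroup G), (f : G) ∈ F →
        (χ f = 1 ↔ (f : G) ∈ rcore F (A ⊔ zpowers y)) :=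
  prime_index hAE hFE hl (relIndex_sup_zpowers hl hAF hFE hp hyF hylF)
    (mem_sup_right (mem_zpowers y)) hyF hyn

include h hb in
/-- elements of `N` commuting with `y` commute with `A` -/
theorem NHyp.core_cen [Finite G] :
    ∀ c ∈ rcore (A ⊔ zpowers (y ^ l)) (A ⊔ zpowers y), c * y = y * c →
      ∀ a ∈ A, a * c = c * a := by
  have habN := h.core_abelian hb
  obtain ⟨hl, hyP, hyM, hylM⟩ := hb
  have hp := h.perm_zpowers hl hyP
  obtain ⟨n, hyn⟩ := exists_pow_eq_one_of_isPGroup (h.Pp l hl) hyP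
  set E := A ⊔ zpowers y with hE
  set F := A ⊔ zpowers (y ^ l) with hF
  have hFE : F ≤ E := sup_le le_sup_left (by
    rw [zpowers_le]
    exact mem_sup_right (pow_mem (mem_zpowers y) l))
  have hFM : F ≤ M := sup_le h.hAM (by rwa [zpowers_le])
  set N := rcore F E with hN
  have hNE : NormalIn N E := rcore_normalIn hFE
  obtain ⟨hylN, χ, hχ, hχ1⟩ := exists_char_sup hl (h.isSolvable_sup hl hyP) hp le_sup_left hFE
    (fun h' => hyM (hFM h')) (mem_sup_right (mem_zpowers _)) hyn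
  -- the subgroup `C_N(y)`
  set C : Subgroup G := N ⊓ centralizer {y} with hC
  have hCmem : ∀ c, c ∈ C ↔ c ∈ N ∧ c * y = y * c := by
    intro c
    rw [hC, mem_inf, mem_centralizer_singleton_iff]
  have hAC : ∀ a ∈ A, ∀ c ∈ C, a * c * a⁻¹ ∈ C := by
    intro a ha c hc
    obtain ⟨hcN, hcy⟩ := (hCmem c).1 hc
    rw [hCmem]
    refine ⟨hNE.2 a (mem_sup_left ha) c hcN, ?_⟩
    set k := (χ ⟨a, mem_sup_left ha⟩ : ZMod l).val with hk
    have hfact : Fact l.Prime := ⟨hl⟩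
    have h1 := hχ ⟨a, mem_sup_left ha⟩ k (ZMod.natCast_zmod_val _)
    set m := (y ^ k)⁻¹ * (a⁻¹ * y * a) with hm
    have h2 : a⁻¹ * y * a = y ^ k * m := by rw [hm]; group
    have h3 : Commute c (y ^ k * m) :=
      (Commute.pow_right (show Commute c y from hcy) k).mul_right (habN c hcN m h1)
    have h4 : c * (a⁻¹ * y * a) = (a⁻¹ * y * a) * c := by rw [h2]; exact h3.eq
    calc a * c * a⁻¹ * y = a * (c * (a⁻¹ * y * a)) * a⁻¹ := by group
      _ = a * ((a⁻¹ * y * a) * c) * a⁻¹ := by rw [h4]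
      _ = y * (a * c * a⁻¹) := by group
  -- the commutator with `A`
  have hW : ⁅C, A⁆ = ⊥ := by
    have hWC : ⁅C, A⁆ ≤ C := by
      rw [commutator_le]
      intro c hc a ha
      have h1 := hAC a ha c⁻¹ (inv_mem hc)
      have h2 : ⁅c, a⁆ = c * (a * c⁻¹ * a⁻¹) := by rw [commutatorElement_def]; group
      rw [h2]
      exact mul_mem hc h1
    have hAN : A ≤ normalizer (C : Set G) := by
      intro a ha
      rw [mem_normalizer_iff]
      intro c
      refine ⟨hAC a ha c, fun hc => ?_⟩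
      have := hAC a⁻¹ (inv_mem ha) _ hc
      simpa [mul_assoc] using this
    refine h.eq_bot (y := y) (isSolvable_of_le (h.isSolvable_sup hl hyP)
      (hWC.trans (inf_le_left.trans hNE.1))) ?_ ?_ hyM ?_
    · -- `A` normalises `⁅C, A⁆`
      intro a ha
      have h1 : a ∈ normalizer (C : Set G) := hAN ha
      rw [mem_normalizer_iff_conjBy] at h1 ⊢
      have h2 : conjBy A a = A := conjBy_eq_self ha
      unfold conjBy at h1 h2 ⊢
      rw [map_commutator, h1, h2]
    · -- `y` centralises it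
      have h1 : y ∈ centralizer ((⁅C, A⁆ : Subgroup G) : Set G) := by
        rw [mem_centralizer_iff]
        intro c hc
        exact ((hCmem c).1 (hWC hc)).2
      exact centralizer_le_normalizer _ h1
    · rw [commutator_le]
      intro c hc a ha
      have h1 := h.comm a ha c (hFM (rcore_le F E ((hCmem c).1 hc).1))
      have h2 : ⁅c, a⁆ = (a * c * a⁻¹ * c⁻¹)⁻¹ := by rw [commutatorElement_def]; group
      rw [h2]
      exact inv_mem h1
  intro c hc hcy a ha
  have hcC : c ∈ C := (hCmem c).2 ⟨hc, hcy⟩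
  have h1 := commutator_mem_commutator hcC ha
  rw [hW, mem_bot, commutatorElement_eq_one_iff_mul_comm] at h1
  exact h1.symm

end steps

end MP_5771ce_al
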