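import Pool.Agent.Lib.MP_5771ce_al.TN.Four

/-!
# Theorem N (section 2 of the chain `GROUP`, MP_5771ce_al): definition of `PrimeDeg`

`PrimeDeg E F N l u`: `F` has prime index `l` in `E`, `N` is the core of `F` in `E`, `u ∈ E - F` is an
element of `l`-power order; `E / N = C_l : C_m` with `C_l` generated by `u`.
-/

set_option autoImplicit false

open Subgroup

namespace MP_5771ce_al

variable {G : Type*} [Group G]

/-- See the head of the file. -/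
structure PrimeDeg (E F N : Subgroup G) (l : ℕ) (u : G) : Prop where
  N_le : N ≤ F
  F_le : F ≤ E
  conj : ∀ e ∈ E, ∀ n ∈ N, e * n * e⁻¹ ∈ N
  u_mem : u ∈ E
  u_not : u ∉ F
  pow : u ^ l ∈ N
  eq : ∀ e ∈ E, ∃ f ∈ F, ∃ i : ℤ, e = f * u ^ i
  act : ∀ f ∈ F, ∃ k : ℤ, f * u * f⁻¹ * (u ^ k)⁻¹ ∈ N
  faith : ∀ f ∈ F, f * u * f⁻¹ * u⁻¹ ∈ N → f ∈ N

theorem exists_primeDeg [Finite G] {A F : Subgroup G} {l : ℕ} (hl : l.Prime) {u : G}
    (hsol : Group.IsSolvable (A ⊔ zpowers u : Subgroup G)) (hp : Permutes A (zpowers u)) {n : ℕ}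
    (hun : u ^ (l ^ n) = 1) (hAF : A ≤ F) (hFE : F ≤ A ⊔ zpowers u) (huF : u ∉ F)
    (hulF : u ^ l ∈ F) : PrimeDeg (A ⊔ zpowers u) F (rcore F (A ⊔ zpowers u)) l u := by
  obtain ⟨hul, χ, hχ, hχ1⟩ := exists_char_sup hl hsol hp hAF hFE huF hulF hun
  have hfact : Fact l.Prime := ⟨hl⟩
  have hN := rcore_normalIn hFE
  set N := rcore F (A ⊔ zpowers u) with hNdef
  have huE : u ∈ A ⊔ zpowers u := mem_sup_right (mem_zpowers u)
  have huN : u ∉ N := fun h => huF (rcore_le _ _ h)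
  refine ⟨rcore_le _ _, hFE, hN.2, huE, huF, hul, ?_, ?_, ?_⟩
  · intro e he
    obtain ⟨a, ha, _, ⟨i, rfl⟩, rfl⟩ := hp.mem_sup.1 he
    exact ⟨a, hAF ha, i, rfl⟩
  · intro f hf
    have hfE := hFE hf
    have h1 := hχ ⟨f⁻¹, inv_mem hfE⟩ (χ ⟨f⁻¹, inv_mem hfE⟩ : ZMod l).val
      (ZMod.natCast_zmod_val _)
    set k := (χ ⟨f⁻¹, inv_mem hfE⟩ : ZMod l).val with hk
    refine ⟨k, ?_⟩
    have h2 := hN.2 (u ^ k) (pow_mem huE k) _ h1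
    rw [zpow_natCast]
    have h3 : u ^ k * ((u ^ k)⁻¹ * ((f⁻¹ : G)⁻¹ * u * f⁻¹)) * (u ^ k)⁻¹ =
        f * u * f⁻¹ * (u ^ k)⁻¹ := by group
    rw [← h3]
    exact h2
  · intro f hf hc
    have hfE := hFE hf
    rw [← hχ1 ⟨f, hfE⟩ hf]
    have h1 := hχ ⟨f, hfE⟩ (χ ⟨f, hfE⟩ : ZMod l).val (ZMod.natCast_zmod_val _)
    set k := (χ ⟨f, hfE⟩ : ZMod l).val with hk
    -- `f⁻¹ u f = u` modulo `N`
    have h2 : u⁻¹ * (f⁻¹ * u * f) ∈ N := by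
      have h3 := hN.2 (u⁻¹ * f⁻¹) (mul_mem (inv_mem huE) (inv_mem hfE)) _ (inv_mem hc)
      have h4 : u⁻¹ * f⁻¹ * (f * u * f⁻¹ * u⁻¹)⁻¹ * (u⁻¹ * f⁻¹)⁻¹ = u⁻¹ * (f⁻¹ * u * f) := by
        group
      rwa [h4] at h3
    have h3 : u ^ ((k : ℤ) - 1) ∈ N := by
      have h4 := mul_mem h2 (inv_mem h1)
      have h5 : u⁻¹ * (f⁻¹ * u * f) * ((u ^ k)⁻¹ * ((f : G)⁻¹ * u * f))⁻¹ = u⁻¹ * u ^ k := by
        group
      have h6 : u⁻¹ * u ^ k ∈ N := by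
        rw [← h5]
        exact h4
      have h7 : u ^ ((k : ℤ) - 1) = u⁻¹ * u ^ k := by
        rw [zpow_sub_one, zpow_natCast]
        exact (Commute.refl u).inv_right.pow_left k |>.eq
      rw [h7]
      exact h6
    have h4 : (l : ℤ) ∣ (k : ℤ) - 1 := dvd_of_zpow_mem hl hul huN h3
    have h5 : (k : ZMod l) = 1 := by
      have h6 : (((k : ℤ) - 1 : ℤ) : ZMod l) = 0 := (ZMod.intCast_zmod_eq_zero_iff_dvd _ _).2 h4
      push_cast at h6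
      exact sub_eq_zero.1 h6
    have h6 : (χ ⟨f, hfE⟩ : ZMod l) = 1 := by
      rw [← h5, hk, ZMod.natCast_zmod_val]
    exact Units.ext h6

end MP_5771ce_al
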