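import Pool.Agent.Lib.MP_5771ce_al.TN.Three

set_option autoImplicit false
set_option linter.unusedSectionVars false

/-!
# Theorem N, part 6: the data of a bad element, steps N4 and N6
-/

open Subgroup
open scoped Pointwise commutatorElement

namespace MP_5771ce_al

variable {G : Type*} [Group G]

/-- The output of N1-N3 for a bad element `y`. -/
structure BadData (A K : Subgroup G) (l : ℕ) (y : G) : Prop where
  prime : l.Prime
  lel : ∃ n, y ^ (l ^ n) = 1
  yl : y ^ l ∈ K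
  yA : y ∉ A
  nA : NormalIn K A
  ny : y ∈ normalizer (K : Set G)
  ab : ∀ a ∈ K, ∀ b ∈ K, a * b = b * a
  cen : ∀ c ∈ K, c * y = y * c → ∀ a ∈ A, a * c = c * a
  char : ∃ χ : A →* (ZMod l)ˣ, (∀ a : A, χ a = 1 ↔ (a : G) ∈ K) ∧
    ∀ (a : A) (k : ℕ), (k : ZMod l) = χ a → (y ^ k)⁻¹ * ((a : G)⁻¹ * y * a) ∈ K
  ne : ∃ a ∈ A, a ∉ K

theorem NHyp.badData [Finite G] {A M D : Subgroup G} {P : ℕ → Subgroup G} (h : NHyp A M D P)
    {l : ℕ} {y : G} (hb : Bad M P l y) (hnab : ¬ ∀ a ∈ A, ∀ b ∈ A, a * b = b * a) :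
    BadData A (rcore A (A ⊔ zpowers y)) l y := by
  have hyl := h.powl_mem hb hnab
  have habN := h.core_abelian hb
  have hcen := h.core_cen hb
  obtain ⟨hl, hyP, hyM, hylM⟩ := hb
  have hFA : A ⊔ zpowers (y ^ l) = A := sup_eq_left.2 (by rwa [zpowers_le])
  rw [hFA] at habN hcen
  have hp := h.perm_zpowers hl hyP
  obtain ⟨n, hyn⟩ := exists_pow_eq_one_of_isPGroup (h.Pp l hl) hyP
  have hyE : y ∈ A ⊔ zpowers y := mem_sup_right (mem_zpowers y)
  have hyA : y ∉ A := fun h' => hyM (h.hAM h')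
  have hNE : NormalIn (rcore A (A ⊔ zpowers y)) (A ⊔ zpowers y) := rcore_normalIn le_sup_left
  obtain ⟨hylN, χ, hχ, hχ1⟩ := exists_char_sup hl (h.isSolvable_sup hl hyP) hp le_rfl le_sup_left
    hyA hyl hyn
  refine ⟨hl, ⟨n, hyn⟩, hylN, hyA, hNE.of_le (rcore_le _ _) le_sup_left, hNE.le_normalizer hyE,
    habN, hcen, ⟨χ.comp (Subgroup.inclusion le_sup_left), fun a => hχ1 _ a.2,
      fun a k hk => hχ _ k hk⟩, ?_⟩
  by_contra hcon
  push Not at hcon
  exact hnab fun a ha b hb => habN a (hcon a ha) b (hcon b hb)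

/-! ### Abelian groups and their primary components -/

theorem mem_of_forall_opc [Finite G] {K H : Subgroup G} (hab : ∀ a ∈ K, ∀ b ∈ K, a * b = b * a)
    (h : ∀ s, s.Prime → opc s K ≤ H) : K ≤ H := by
  have key : ∀ n : ℕ, ∀ c ∈ K, orderOf c = n → c ∈ H := by
    intro n
    induction n using Nat.strong_induction_on with
    | _ n ih =>
      intro c hc hn
      rcases eq_or_ne n 1 with rfl | hn1
      · rw [orderOf_eq_one_iff] at hn
        rw [hn]
        exact H.one_mem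
      · have hs : (Nat.minFac n).Prime := Nat.minFac_prime hn1
        set s := Nat.minFac n with hsdef
        have hn0 : n ≠ 0 := hn ▸ (orderOf_pos c).ne'
        obtain ⟨e, q, hq, hqn⟩ := Nat.exists_eq_pow_mul_and_not_dvd hn0 s hs.ne_one
        have h1 : (c ^ q) ^ (s ^ e) = 1 := by
          rw [← pow_mul, mul_comm, ← hqn, ← hn, pow_orderOf_eq_one]
        have h2 : c ^ q ∈ H := h s hs (mem_opc_of_abelian_pow hab (K.pow_mem hc q) h1)
        have he : e ≠ 0 := by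
          rintro rfl
          rw [pow_zero, one_mul] at hqn
          exact hq (hqn ▸ Nat.minFac_dvd n)
        have hq0 : q ≠ 0 := by
          rintro rfl
          exact hn0 (by rw [hqn, mul_zero])
        have h3 : orderOf (c ^ (s ^ e)) = q := by
          rw [orderOf_pow, hn, hqn, Nat.gcd_eq_right (dvd_mul_right _ _),
            Nat.mul_div_cancel_left _ (pow_pos hs.pos e)]
        have h4 : q < n := by
          rw [hqn]
          have := Nat.one_lt_pow he hs.one_lt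
          have h5 : 0 < q := Nat.pos_of_ne_zero hq0
          nlinarith
        have h6 : c ^ (s ^ e) ∈ H := ih q h4 _ (K.pow_mem hc _) h3
        refine mem_of_zpow_mem (y := c) (i := (q : ℤ)) (j := ((s ^ e : ℕ) : ℤ)) ?_ ?_ ?_
        · rw [zpow_natCast]; exact h2
        · rw [zpow_natCast]; exact h6
        · rw [Nat.cast_pow]
          exact (isCoprime_of_not_dvd hs (by exact_mod_cast hq)).pow_right
  exact fun c hc => key _ c hc rfl

/-! ### N4 -/

section data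
variable [Finite G]
variable {A K : Subgroup G} {l : ℕ} {y : G} (hB : BadData A K l y)

include hB in
/-- if an element of `A ∖ K` centralises `X` (normalised by `y`, centralised by `K`), so does `y` -/
theorem BadData.y_mem_centralizer {X : Subgroup G} (hyX : y ∈ normalizer (X : Set G))
    (hKX : K ≤ centralizer (X : Set G)) {a : G} (ha : a ∈ A) (haK : a ∉ K)
    (haX : a ∈ centralizer (X : Set G)) : y ∈ centralizer (X : Set G) := by
  obtain ⟨χ, hχ1, hχ⟩ := hB.char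
  have hfact : Fact l.Prime := ⟨hB.prime⟩
  set k := (χ ⟨a, ha⟩ : ZMod l).val with hk
  have hkχ : (k : ZMod l) = χ ⟨a, ha⟩ := ZMod.natCast_zmod_val _
  have hk1 : ¬ (l : ℤ) ∣ k - 1 := by
    intro hdvd
    have h1 : (((k : ℤ) - 1 : ℤ) : ZMod l) = 0 := (ZMod.intCast_zmod_eq_zero_iff_dvd _ l).2 hdvd
    push_cast at h1
    rw [hkχ, sub_eq_zero] at h1
    exact haK ((hχ1 ⟨a, ha⟩).1 (Units.ext h1))
  have hm := hχ ⟨a, ha⟩ k hkχ
  have h1 : y⁻¹ * a⁻¹ * y ∈ centralizer (X : Set G) := by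
    have := conj_mem_centralizer (inv_mem hyX) (inv_mem haX)
    rwa [inv_inv] at this
  have h2 : y ^ ((k : ℤ) - 1) ∈ centralizer (X : Set G) := by
    have h3 : y ^ ((k : ℤ) - 1) = (y⁻¹ * a⁻¹ * y) * a * ((y ^ k)⁻¹ * (a⁻¹ * y * a))⁻¹ := by
      rw [zpow_sub, zpow_one, zpow_natCast]
      have h4 : y ^ k * y⁻¹ = y⁻¹ * y ^ k := ((Commute.refl y).pow_left k).inv_right.eq
      rw [h4]
      group
    rw [h3]
    exact mul_mem (mul_mem h1 haX) (inv_mem (hKX hm))
  refine mem_of_zpow_mem h2 (j := (l : ℤ)) ?_ (isCoprime_of_not_dvd hB.prime hk1)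
  rw [zpow_natCast]
  exact hKX hB.yl

include hB in
theorem BadData.exists_s (hnab : ¬ ∀ a ∈ A, ∀ b ∈ A, a * b = b * a) :
    ∃ s, s.Prime ∧ ¬ A ≤ centralizer (opc s K : Set G) := by
  by_contra hcon
  push Not at hcon
  have h1 : K ≤ centralizer (A : Set G) := by
    refine mem_of_forall_opc hB.ab fun s hs x hx => ?_
    rw [mem_centralizer_iff]
    intro a ha
    exact ((mem_centralizer_iff.1 (hcon s hs ha)) x hx).symm
  obtain ⟨χ, hχ1, -⟩ := hB.char
  have hfact : Fact l.Prime := ⟨hB.prime⟩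
  refine hnab fun a ha b hb => ?_
  have h2 := MonoidHom.isMulCommutative_of_isCyclic_of_ker_le_center χ (fun c hc => ?_)
  · exact congrArg Subtype.val (h2.is_comm.comm (⟨a, ha⟩ : A) ⟨b, hb⟩)
  · rw [MonoidHom.mem_ker, hχ1] at hc
    rw [mem_center_iff]
    intro g
    exact Subtype.ext (mem_centralizer_iff.1 (h1 hc) g g.2)

variable {s : ℕ}

include hB in
theorem BadData.K_le : K ≤ centralizer (opc s K : Set G) := fun c hc =>
  mem_centralizer_iff.2 fun t ht => hB.ab t (opc_le s K ht) c hc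

include hB in
theorem BadData.y_mem_normalizer : y ∈ normalizer (opc s K : Set G) :=
  normalizer_le_normalizer_opc s K hB.ny

include hB in
theorem BadData.y_notMem (hT : ¬ A ≤ centralizer (opc s K : Set G)) :
    y ∉ centralizer (opc s K : Set G) := by
  intro hy
  refine hT fun a ha => mem_centralizer_iff.2 fun t ht => ?_
  exact (hB.cen t (opc_le s K ht) (mem_centralizer_iff.1 hy t ht) a ha).symm

include hB in
theorem BadData.mem_of_centralizes (hT : ¬ A ≤ centralizer (opc s K : Set G)) {a : G} (ha : a ∈ A)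
    (haT : a ∈ centralizer (opc s K : Set G)) : a ∈ K := by
  by_contra haK
  exact hB.y_notMem hT (hB.y_mem_centralizer hB.y_mem_normalizer hB.K_le ha haK haT)

include hB in
theorem BadData.A_le_normalizer : A ≤ normalizer (opc s K : Set G) :=
  hB.nA.le_normalizer.trans (normalizer_le_normalizer_opc s K)

/-! ### N6 -/

theorem quad_pow {w : G} {T : Subgroup G} (hq : Quad w T) {t : G} (ht : t ∈ T) (n : ℕ) :
    w ^ n * t * (w ^ n)⁻¹ = (w * t * w⁻¹ * t⁻¹) ^ n * t := by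
  induction n with
  | zero => simp
  | succ n ih =>
    have h1 : w ^ (n + 1) * t * (w ^ (n + 1))⁻¹ = w * (w ^ n * t * (w ^ n)⁻¹) * w⁻¹ := by
      rw [pow_succ']
      group
    rw [h1, ih]
    have h2 : w * (w * t * w⁻¹ * t⁻¹) ^ n = (w * t * w⁻¹ * t⁻¹) ^ n * w :=
      ((hq t ht).pow_right n).eq
    calc w * ((w * t * w⁻¹ * t⁻¹) ^ n * t) * w⁻¹
        = (w * (w * t * w⁻¹ * t⁻¹) ^ n) * t * w⁻¹ := by group
      _ = (w * t * w⁻¹ * t⁻¹) ^ n * w * t * w⁻¹ := by rw [h2]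
      _ = (w * t * w⁻¹ * t⁻¹) ^ (n + 1) * t := by
        rw [pow_succ]
        group

/-- a quadratic element has a power of order `|T|` which is trivial on `T` -/
theorem quad_pow_card {w : G} {T : Subgroup G} (hw : w ∈ normalizer (T : Set G))
    (hq : Quad w T) : w ^ Nat.card T ∈ centralizer (T : Set G) := by
  rw [mem_centralizer_iff]
  intro t ht
  have h1 := quad_pow hq ht (Nat.card T)
  have h2 : w * t * w⁻¹ * t⁻¹ ∈ T := T.mul_mem ((mem_normalizer_iff.1 hw t).1 ht) (T.inv_mem ht)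
  have h3 : (w * t * w⁻¹ * t⁻¹) ^ Nat.card T = 1 := by
    have := pow_card_eq_one' (G := T) (x := ⟨_, h2⟩)
    exact congrArg Subtype.val this
  rw [h3, one_mul, mul_inv_eq_iff_eq_mul] at h1
  exact h1.symm

include hB in
/-- if a quadratic element lies in `A ∖ K`, then `s ≠ l` -/
theorem BadData.ne_of_quad (hs : s.Prime)
    (hT : ¬ A ≤ centralizer (opc s K : Set G)) {w : G} (hw : w ∈ A) (hwK : w ∉ K)
    (hq : Quad w (opc s K)) : s ≠ l ∧ ∃ r, w ^ (s ^ r) ∈ K := by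
  have h1 := quad_pow_card (hB.A_le_normalizer hw) hq
  have h2 : w ^ Nat.card (opc s K) ∈ K := hB.mem_of_centralizes hT (A.pow_mem hw _) h1
  have hfs : Fact s.Prime := ⟨hs⟩
  obtain ⟨r, hr⟩ := (IsPGroup.iff_card).1 (opc_isPGroup s K)
  rw [hr] at h2
  refine ⟨?_, r, h2⟩
  rintro rfl
  obtain ⟨χ, hχ1, -⟩ := hB.char
  apply hwK
  rw [← hχ1 ⟨w, hw⟩]
  have h3 : χ ⟨w, hw⟩ ^ (s ^ r) = 1 := by
    rw [← map_pow]
    exact (hχ1 _).2 h2
  have h4 : χ ⟨w, hw⟩ ^ (s - 1) = 1 := ZMod.units_pow_card_sub_one_eq_one s _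
  have h5 : orderOf (χ ⟨w, hw⟩) ∣ Nat.gcd (s ^ r) (s - 1) :=
    Nat.dvd_gcd (orderOf_dvd_of_pow_eq_one h3) (orderOf_dvd_of_pow_eq_one h4)
  have h6 : Nat.Coprime (s ^ r) (s - 1) := by
    apply Nat.Coprime.pow_left
    rw [Nat.Prime.coprime_iff_not_dvd hs]
    intro h7
    have := Nat.le_of_dvd (by have := hs.one_lt; omega) h7
    have := hs.pos
    omega
  rw [h6.gcd_eq_one, Nat.dvd_one, orderOf_eq_one_iff] at h5
  exact h5

include hB in
/-- N6: for odd `s`, quadratic elements of `A` lie in `K` -/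
theorem BadData.quad_mem (hs : s.Prime) (hs2 : s ≠ 2)
    (hT : ¬ A ≤ centralizer (opc s K : Set G)) {w : G} (hw : w ∈ A)
    (hq : Quad w (opc s K)) : w ∈ K := by
  by_contra hwK
  obtain ⟨hsl, -⟩ := hB.ne_of_quad hs hT hw hwK hq
  obtain ⟨χ, hχ1, hχ⟩ := hB.char
  have hfact : Fact l.Prime := ⟨hB.prime⟩
  have hkχ : ((χ ⟨w, hw⟩ : ZMod l).val : ZMod l) = χ ⟨w, hw⟩ := ZMod.natCast_zmod_val _
  apply hB.y_notMem hT
  rw [mem_centralizer_iff]
  intro t ht
  refine (lemF (T := opc s K) (w := w) (y := y) (fun a ha b hb => hB.ab a (opc_le s K ha) b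
    (opc_le s K hb)) hs (opc_isPGroup s K) hs2 hB.prime hsl (hB.A_le_normalizer hw)
    hB.y_mem_normalizer hq (fun t ht => ?_) (k := (χ ⟨w, hw⟩ : ZMod l).val) ?_ ?_
    (fun t ht => ?_) t ht).eq.symm
  · exact (mem_centralizer_iff.1 (hB.K_le hB.yl) t ht).symm
  · intro hdvd
    have h1 : ((χ ⟨w, hw⟩ : ZMod l).val : ZMod l) = 0 := (ZMod.natCast_eq_zero_iff _ l).2 hdvd
    rw [hkχ] at h1
    exact (χ ⟨w, hw⟩).ne_zero h1
  · intro h1
    rw [hkχ] at h1
    exact hwK ((hχ1 ⟨w, hw⟩).1 (Units.ext h1))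
  · exact (mem_centralizer_iff.1 (hB.K_le (hχ ⟨w, hw⟩ _ hkχ)) t ht).symm

end data

section two
variable [Finite G]
variable {A K₁ K₂ : Subgroup G} {l₁ l₂ : ℕ} {y₁ y₂ : G} (h₁ : BadData A K₁ l₁ y₁)
  (h₂ : BadData A K₂ l₂ y₂)

include h₁ h₂ in
theorem BadData.le_of_le (hnab : ¬ ∀ a ∈ A, ∀ b ∈ A, a * b = b * a) (hle : K₂ ≤ K₁) :
    K₁ ≤ K₂ := by
  obtain ⟨s, -, hs⟩ := h₂.exists_s hnab
  intro a ha
  refine h₂.mem_of_centralizes hs (h₁.nA.1 ha) (mem_centralizer_iff.2 fun t ht => ?_)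
  exact h₁.ab t (hle (opc_le s K₂ ht)) a ha

include h₁ h₂ in
/-- elements of an abelian normal subgroup of `A` are quadratic on `T` -/
theorem BadData.quad_of_mem {s : ℕ} {w : G} (hw : w ∈ K₂) : Quad w (opc s K₁) := by
  intro t ht
  have htA : t ∈ A := h₁.nA.1 (opc_le s K₁ ht)
  have h3 : w * t * w⁻¹ * t⁻¹ ∈ K₂ := by
    have h4 := h₂.nA.2 t htA w⁻¹ (inv_mem hw)
    have h5 : w * t * w⁻¹ * t⁻¹ = w * (t * w⁻¹ * t⁻¹) := by group
    rw [h5]
    exact mul_mem hw h4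
  exact h₂.ab w hw _ h3

include h₁ h₂ in
/-- N6, second part -/
theorem BadData.eq_of_odd {s : ℕ} (hs : s.Prime) (hs2 : s ≠ 2)
    (hT : ¬ A ≤ centralizer (opc s K₁ : Set G)) (hnab : ¬ ∀ a ∈ A, ∀ b ∈ A, a * b = b * a) :
    K₁ = K₂ := by
  have hle : K₂ ≤ K₁ := fun w hw => h₁.quad_mem hs hs2 hT (h₂.nA.1 hw) (h₁.quad_of_mem h₂ hw)
  exact le_antisymm (h₁.le_of_le h₂ hnab hle) hle

end two

end MP_5771ce_al
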