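import Pool.Agent.Lib.MP_5771ce_al.TN.Bad
import Pool.Agent.Lib.MP_5771ce_al.Iso

/-!
# Theorem N: `NHyp` for a minimal counterexample with an isolated pair
-/

set_option autoImplicit false

open Subgroup
open scoped Pointwise commutatorElement

namespace MP_5771ce_al

universe u

variable {G : Type u} [Group G]

/-- The hypotheses of Theorem N hold for a minimal counterexample with an isolated pair. -/
theorem MC.exists_nHyp [Finite G] {A D : Subgroup G} {p : ℕ} [hp : Fact p.Prime] (h : MC A)
    (hD : IsoPair A p D) : ∃ (M D' : Subgroup G) (P : ℕ → Subgroup G), NHyp A M D' P := by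
  classical
  obtain ⟨M, hM, hAM, -, hR, -, huniq⟩ := h.exists_M hD
  set R := opc p M with hRdef
  have hRc := hR.commute
  set D' := omegaAb p R hRc with hD'
  have hD'R : D' ≤ R := fun x hx => hx.1
  have hD'n : NormalIn D' M := omegaAb_normalIn hRc (opc_normalIn p M)
  have hD'ne : D' ≠ ⊥ := by
    intro hb
    apply hR.ne_bot
    rw [eq_bot_iff]
    have h1 : ∀ n : ℕ, ∀ x ∈ R, x ^ p ^ n = 1 → x = 1 := by
      intro n
      induction n with
      | zero => intro x _ hx; rwa [pow_zero, pow_one] at hx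
      | succ n ih =>
        intro x hx hxn
        rw [pow_succ', pow_mul] at hxn
        have h2 : x ^ p = 1 := ih (x ^ p) (pow_mem hx p) hxn
        have h3 : x ∈ D' := ⟨hx, h2⟩
        rwa [hb, mem_bot] at h3
    intro x hx
    obtain ⟨n, hn⟩ := exists_pow_eq_one_of_isPGroup hR.isPGroup hx
    rw [mem_bot]
    exact h1 n x hx hn
  let P : ℕ → Subgroup G := fun q =>
    if hq : q.Prime then (@HerPermutable.exists_sylPerm _ _ _ A h.her q ⟨hq⟩).choose else ⊥
  have hP : ∀ q, q.Prime → SylPerm q A (P q) := by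
    intro q hq
    have h1 : P q = (@HerPermutable.exists_sylPerm _ _ _ A h.her q ⟨hq⟩).choose := dif_pos hq
    rw [h1]
    exact (@HerPermutable.exists_sylPerm _ _ _ A h.her q ⟨hq⟩).choose_spec
  refine ⟨M, D', P, ?_⟩
  have hYrad : ∀ Y : Subgroup G, Y ≤ A → Y ≤ rad M := fun Y hY => hY.trans (h.le_rad hAM hM.1)
  constructor
  · exact h.her
  · exact hAM
  · exact hM.1
  · exact hD'n.le_normalizer
  · -- scalars
    intro a ha g hg
    have h1 : ∃ k : ℕ, ∀ x ∈ D', (MulAut.conj a).toMonoidHom x = x ^ k := by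
      refine exists_uniform_exponent (r := p) D' (fun x hx y hy => hRc x hx.1 y hy.1)
        (fun x hx => hx.2) _ (fun x hx => ?_)
      have h2 := hR.conj_mem (zpowers x) (by rw [zpowers_le]; exact hx.1) a ha x (mem_zpowers x)
      rw [← mem_powers_iff_mem_zpowers] at h2
      obtain ⟨k, hk⟩ := h2
      exact ⟨k, hk.symm⟩
    obtain ⟨k, hk⟩ := h1
    rw [mem_centralizer_iff]
    intro z hz
    have h3 := commutator_conj_eq (Z := D') (a := a) (b := g) (k := k) (fun z hz => hk z hz)
      (fun z hz => by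
        have := hD'n.2 a⁻¹ (inv_mem (hAM ha)) z hz
        rwa [inv_inv] at this)
      (fun z hz => by
        have := hD'n.2 g⁻¹ (inv_mem hg) z hz
        rwa [inv_inv] at this) hz
    have h4 : a * g * a⁻¹ * g⁻¹ = ⁅g, a⁆⁻¹ := by rw [commutatorElement_def]; group
    rw [h4]
    have h5 : Commute ⁅g, a⁆ z := h3
    exact h5.inv_left.symm.eq
  · intro E hAE hDE hE
    exact huniq D' hD'R hD'ne E hE hAE hDE
  · intro W hW hne
    exact h.normalizer_ne_top hne hW
  · intro W hW hWM
    exact h.eq_bot_of_normal_le hAM hM.1 hW hWM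
  · intro E hAE hE
    exact h.le_rad hAE hE
  · intro q hq
    exact (hP q hq).isPGroup
  · intro q hq
    exact (hP q hq).not_dvd
  · intro q hq
    exact (hP q hq).permutes
  · intro q hq
    have : Fact q.Prime := ⟨hq⟩
    exact h.isSolvable_sup_of_isPGroup (hP q hq).isPGroup (hP q hq).permutes
  · intro q hq
    have : Fact q.Prime := ⟨hq⟩
    exact h.sup_ne_top_of_isPGroup (hP q hq).isPGroup (hP q hq).permutes
  · intro Y hYA hY hn
    obtain ⟨q, hq, h1⟩ := h.K (U₁ := normalizer (Y : Set G)) (U₂ := M) hY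
      (normalIn_of_le_normalizer le_normalizer le_rfl) (hYrad Y hYA)
    exact ⟨q, hq, (h1 _ (hP q hq)).1, (h1 _ (hP q hq)).2⟩
  · intro q hq hall O hO hqO
    have h1 : M.index ≠ 0 := Subgroup.index_ne_zero_of_finite
    have h2 : M.index = q ^ M.index.primeFactorsList.length := by
      refine Nat.eq_prime_pow_of_unique_prime_dvd h1 ?_
      intro d hd hdM
      by_contra hne
      exact (hP d hd).not_dvd (hdM.trans (Subgroup.index_dvd_of_le (hall d hd hne)))
    refine h.C2 (k := M.index.primeFactorsList.length) hq hAM hM.1 ?_ ?_ hO hqO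
    · rw [← h2]
    · exact fun hd => (hP q hq).not_dvd (hd.trans (Subgroup.index_dvd_of_le le_sup_right))

end MP_5771ce_al
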