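import Pool.Agent.Lib.MP_5771ce_al.TN.BadDefs
import Pool.Agent.Lib.MP_5771ce_al.LibSylow

/-!
# Theorem N: lemmas for N7
-/

set_option autoImplicit false

open Subgroup
open scoped Pointwise commutatorElement

namespace MP_5771ce_al

universe u

theorem comm_pow_eq_one {Q : Type*} [Group Q] {t z n : Q} {k : ℤ} {l : ℕ}
    (h1 : t * z * t⁻¹ = n * z ^ k) (h2 : Commute n z) (h3 : Commute t (z ^ l)) :
    (t * z * t⁻¹ * z⁻¹) ^ l = 1 := by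
  have h4 : n ^ l * (z ^ k) ^ l = z ^ l := by
    rw [← (h2.zpow_right k).mul_pow, ← h1, conj_pow, h3.eq, mul_inv_cancel_right]
  have h5 : Commute n (z ^ k * z⁻¹) := (h2.zpow_right k).mul_right h2.inv_right
  have h6 : Commute (z ^ k) z⁻¹ := ((Commute.refl z).zpow_left k).inv_right
  rw [h1, mul_assoc, h5.mul_pow, h6.mul_pow, ← mul_assoc, h4, inv_pow, mul_inv_cancel]

variable {G : Type u} [Group G]

/-- The quotient map of `E` by a subgroup normal in `E`. -/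
theorem exists_quot {E T₂ : Subgroup G} (hT : NormalIn T₂ E) :
    ∃ (Q : Type u) (_ : Group Q) (f : E →* Q), ∀ x : E, f x = 1 ↔ (x : G) ∈ T₂ := by
  have := hT.subgroupOf_normal
  refine ⟨E ⧸ T₂.subgroupOf E, inferInstance, QuotientGroup.mk' _, fun x => ?_⟩
  rw [QuotientGroup.mk'_apply, QuotientGroup.eq_one_iff, mem_subgroupOf]

theorem commute_of_comm_mem {E : Subgroup G} {T₂ : Subgroup G} {Q : Type*} [Group Q] {f : E →* Q}
    (hf : ∀ x : E, f x = 1 ↔ (x : G) ∈ T₂) {a b : E}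
    (h : (a : G) * b * (a : G)⁻¹ * (b : G)⁻¹ ∈ T₂) : Commute (f a) (f b) := by
  have h1 := (hf (a * b * a⁻¹ * b⁻¹)).2 h
  rw [map_mul, map_mul, map_mul, map_inv, map_inv, mul_inv_eq_one, mul_inv_eq_iff_eq_mul] at h1
  exact h1

theorem comm_mem_of_commute {E : Subgroup G} {T₂ : Subgroup G} {Q : Type*} [Group Q] {f : E →* Q}
    (hf : ∀ x : E, f x = 1 ↔ (x : G) ∈ T₂) {a b : E} (h : Commute (f a) (f b)) :
    (a : G) * b * (a : G)⁻¹ * (b : G)⁻¹ ∈ T₂ := by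
  have h1 : f (a * b * a⁻¹ * b⁻¹) = 1 := by
    rw [map_mul, map_mul, map_mul, map_inv, map_inv, mul_inv_eq_one, mul_inv_eq_iff_eq_mul]
    exact h
  exact (hf _).1 h1

theorem comm_pow_mem {E T₂ : Subgroup G} (hT : NormalIn T₂ E) {t z n : G} (ht : t ∈ E)
    (hz : z ∈ E) (hn : n ∈ E) {k : ℤ} {l : ℕ} (h1 : t * z * t⁻¹ = n * z ^ k)
    (h2 : n * z * n⁻¹ * z⁻¹ ∈ T₂) (h3 : t * z ^ l * t⁻¹ * (z ^ l)⁻¹ ∈ T₂) :
    (t * z * t⁻¹ * z⁻¹) ^ l ∈ T₂ := by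
  obtain ⟨Q, _, f, hf⟩ := exists_quot hT
  have h4 := comm_pow_eq_one (t := f ⟨t, ht⟩) (z := f ⟨z, hz⟩) (n := f ⟨n, hn⟩) (k := k) (l := l)
    (by
      rw [← map_zpow, ← map_mul, ← map_inv, ← map_mul, ← map_mul]
      congr 1
      exact Subtype.ext h1)
    (commute_of_comm_mem hf h2)
    (by
      rw [← map_pow]
      exact commute_of_comm_mem hf h3)
  rw [← map_inv, ← map_inv, ← map_mul, ← map_mul, ← map_mul, ← map_pow] at h4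
  exact (hf _).1 h4

theorem mul_pow_mem {E T₂ : Subgroup G} (hT : NormalIn T₂ E) {x y : G} (hx : x ∈ E)
    (hy : y ∈ E) (h : x * y * x⁻¹ * y⁻¹ ∈ T₂) (l : ℕ) : (x * y) ^ l * (x ^ l * y ^ l)⁻¹ ∈ T₂ := by
  obtain ⟨Q, _, f, hf⟩ := exists_quot hT
  have hc : Commute (f ⟨x, hx⟩) (f ⟨y, hy⟩) := commute_of_comm_mem hf h
  have h1 := hc.mul_pow l
  have h2 : f ((⟨x, hx⟩ * ⟨y, hy⟩) ^ l * (⟨x, hx⟩ ^ l * ⟨y, hy⟩ ^ l)⁻¹) = 1 := by
    rw [map_mul, map_inv, map_mul, map_pow, map_pow, map_pow, map_mul, h1, mul_inv_cancel]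
  exact (hf _).1 h2

/-- elements of `E` whose commutators with `N` lie in `T₂` -/
def centMod (E N T₂ : Subgroup G) (hN : NormalIn N E) (hT : NormalIn T₂ E) : Subgroup G where
  carrier := {x | x ∈ E ∧ ∀ n ∈ N, x * n * x⁻¹ * n⁻¹ ∈ T₂}
  one_mem' := ⟨one_mem _, fun n _ => by simp⟩
  mul_mem' := by
    rintro a b ⟨ha, ha'⟩ ⟨hb, hb'⟩
    refine ⟨mul_mem ha hb, fun n hn => ?_⟩
    have h1 := ha' _ (hN.2 b hb n hn)
    have h2 := hb' n hn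
    have h3 : a * b * n * (a * b)⁻¹ * n⁻¹ =
      a * (b * n * b⁻¹) * a⁻¹ * (b * n * b⁻¹)⁻¹ * (b * n * b⁻¹ * n⁻¹) := by group
    rw [h3]
    exact mul_mem h1 h2
  inv_mem' := by
    rintro a ⟨ha, ha'⟩
    refine ⟨inv_mem ha, fun n hn => ?_⟩
    have h1 := hT.2 a⁻¹ (inv_mem ha) _ (inv_mem (ha' n hn))
    have h3 : a⁻¹ * n * a⁻¹⁻¹ * n⁻¹ = a⁻¹ * (a * n * a⁻¹ * n⁻¹)⁻¹ * a⁻¹⁻¹ := by group
    rw [h3]
    exact h1

theorem mem_centMod {E N T₂ : Subgroup G} {hN : NormalIn N E} {hT : NormalIn T₂ E} {x : G} :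
    x ∈ centMod E N T₂ hN hT ↔ x ∈ E ∧ ∀ n ∈ N, x * n * x⁻¹ * n⁻¹ ∈ T₂ := Iff.rfl

theorem centMod_normalIn {E N T₂ : Subgroup G} {hN : NormalIn N E} {hT : NormalIn T₂ E} :
    NormalIn (centMod E N T₂ hN hT) E := by
  refine ⟨fun x hx => hx.1, ?_⟩
  rintro e he x ⟨hx, hx'⟩
  refine ⟨mul_mem (mul_mem he hx) (inv_mem he), fun n hn => ?_⟩
  have h1 := hN.2 e⁻¹ (inv_mem he) n hn
  have h2 := hT.2 e he _ (hx' _ h1)
  have h3 : e * x * e⁻¹ * n * (e * x * e⁻¹)⁻¹ * n⁻¹ =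
    e * (x * (e⁻¹ * n * e⁻¹⁻¹) * x⁻¹ * (e⁻¹ * n * e⁻¹⁻¹)⁻¹) * e⁻¹ := by group
  rw [h3]
  exact h2

/-! ### API for `PrimeDeg` -/

section PrimeDegAPI

variable {E F N : Subgroup G} {l : ℕ} {u : G}

theorem PrimeDeg.normalIn (h : PrimeDeg E F N l u) : NormalIn N E :=
  ⟨h.N_le.trans h.F_le, h.conj⟩

theorem zpow_mem_iff_dvd [hl : Fact l.Prime] {S : Subgroup G} (hu : u ∉ S) (hul : u ^ l ∈ S)
    {j : ℤ} : u ^ j ∈ S ↔ (l : ℤ) ∣ j := by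
  constructor
  · intro hj
    by_contra hd
    have h1 : IsCoprime (l : ℤ) j := (Nat.prime_iff_prime_int.1 hl.out).coprime_iff_not_dvd.2 hd
    obtain ⟨a, b, hab⟩ := h1
    apply hu
    have h2 : u = (u ^ (l : ℤ)) ^ a * (u ^ j) ^ b := by
      rw [← zpow_mul, ← zpow_mul, ← zpow_add]
      have : (l : ℤ) * a + j * b = 1 := by linear_combination hab
      rw [this, zpow_one]
    rw [h2]
    refine mul_mem (zpow_mem ?_ _) (zpow_mem hj _)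
    rw [zpow_natCast]; exact hul
  · rintro ⟨a, rfl⟩
    rw [zpow_mul, zpow_natCast]
    exact zpow_mem hul a

theorem PrimeDeg.zpow_mem_F [Fact l.Prime] (h : PrimeDeg E F N l u) {j : ℤ} :
    u ^ j ∈ F ↔ (l : ℤ) ∣ j := zpow_mem_iff_dvd h.u_not (h.N_le h.pow)

theorem PrimeDeg.zpow_mem_N [Fact l.Prime] (h : PrimeDeg E F N l u) {j : ℤ} :
    u ^ j ∈ N ↔ (l : ℤ) ∣ j := zpow_mem_iff_dvd (fun hu => h.u_not (h.N_le hu)) h.pow

theorem PrimeDeg.zpowers_le_normalizer (h : PrimeDeg E F N l u) :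
    zpowers u ≤ normalizer (N : Set G) := by
  rw [zpowers_le]
  exact h.normalIn.le_normalizer h.u_mem

theorem PrimeDeg.mem_W (h : PrimeDeg E F N l u) {w : G} :
    w ∈ N ⊔ zpowers u ↔ ∃ n ∈ N, ∃ j : ℤ, n * u ^ j = w := by
  rw [mem_sup_of_le_normalizer' h.zpowers_le_normalizer]
  constructor
  · rintro ⟨n, hn, b, hb, e⟩
    obtain ⟨j, rfl⟩ := mem_zpowers_iff.1 hb
    exact ⟨n, hn, j, e⟩
  · rintro ⟨n, hn, j, e⟩
    exact ⟨n, hn, u ^ j, zpow_mem (mem_zpowers u) j, e⟩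

theorem PrimeDeg.W_le (h : PrimeDeg E F N l u) : N ⊔ zpowers u ≤ E :=
  sup_le h.normalIn.1 (by rw [zpowers_le]; exact h.u_mem)

theorem PrimeDeg.W_normalIn (h : PrimeDeg E F N l u) : NormalIn (N ⊔ zpowers u) E := by
  refine ⟨h.W_le, ?_⟩
  intro e he w hw
  have h1 : e * u * e⁻¹ ∈ N ⊔ zpowers u := by
    obtain ⟨f, hf, i, rfl⟩ := h.eq e he
    obtain ⟨k, hk⟩ := h.act f hf
    have h2 : f * u ^ i * u * (f * u ^ i)⁻¹ = (f * u * f⁻¹ * (u ^ k)⁻¹) * u ^ k := by group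
    rw [h2]
    exact mul_mem (mem_sup_left hk) (mem_sup_right (zpow_mem (mem_zpowers u) k))
  obtain ⟨n, hn, j, rfl⟩ := h.mem_W.1 hw
  have h2 : e * (n * u ^ j) * e⁻¹ = (e * n * e⁻¹) * (e * u * e⁻¹) ^ j := by
    rw [conj_zpow]; group
  rw [h2]
  exact mul_mem (mem_sup_left (h.conj e he n hn)) (zpow_mem h1 j)

theorem PrimeDeg.mem_N_of_mem_W [Fact l.Prime] (h : PrimeDeg E F N l u) {w : G}
    (hw : w ∈ N ⊔ zpowers u) (hwF : w ∈ F) : w ∈ N := by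
  obtain ⟨n, hn, j, rfl⟩ := h.mem_W.1 hw
  have h1 : u ^ j ∈ F := (mul_mem_cancel_left (h.N_le hn)).1 hwF
  exact mul_mem hn (h.zpow_mem_N.2 (h.zpow_mem_F.1 h1))

/-- If `t ∈ F - N` then `t u t⁻¹ u⁻¹ ∈ W - N`. -/
theorem PrimeDeg.comm_mem_W (h : PrimeDeg E F N l u) {t : G} (ht : t ∈ F) :
    t * u * t⁻¹ * u⁻¹ ∈ N ⊔ zpowers u :=
  mul_mem (h.W_normalIn.2 t (h.F_le ht) u (mem_sup_right (mem_zpowers u)))
    (inv_mem (mem_sup_right (mem_zpowers u)))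

/-- `t ∈ F - N` acts on `W / N` without fixed points. -/
theorem PrimeDeg.mem_of_comm_mem [Fact l.Prime] (h : PrimeDeg E F N l u) {t : G} (ht : t ∈ F)
    (htN : t ∉ N) {w : G} (hw : w ∈ N ⊔ zpowers u) (hc : t * w * t⁻¹ * w⁻¹ ∈ N) : w ∈ N := by
  obtain ⟨n, hn, j, rfl⟩ := h.mem_W.1 hw
  by_cases hj : (l : ℤ) ∣ j
  · exact mul_mem hn (h.zpow_mem_N.2 hj)
  exfalso
  apply htN
  apply h.faith t ht
  obtain ⟨k, hk⟩ := h.act t ht
  obtain ⟨Q, _, f, hf⟩ := exists_quot h.normalIn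
  have htE := h.F_le ht
  set t' := f ⟨t, htE⟩ with ht'
  set u' := f ⟨u, h.u_mem⟩ with hu'
  have h1 : t' * u' * t'⁻¹ = u' ^ k := by
    have h2 := (hf (⟨t, htE⟩ * ⟨u, h.u_mem⟩ * ⟨t, htE⟩⁻¹ * (⟨u, h.u_mem⟩ ^ k)⁻¹)).2 hk
    rw [map_mul, map_mul, map_mul, map_inv, map_inv, map_zpow, mul_inv_eq_one] at h2
    exact h2
  have h2 : f ⟨n, h.normalIn.1 hn⟩ = 1 := (hf _).2 hn
  have h3 : t' * u' ^ j * t'⁻¹ = u' ^ j := by
    have hwE : n * u ^ j ∈ E := h.W_le hw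
    have h4 := (hf (⟨t, htE⟩ * ⟨n * u ^ j, hwE⟩ * ⟨t, htE⟩⁻¹ * (⟨n * u ^ j, hwE⟩)⁻¹)).2 hc
    have h5 : (⟨n * u ^ j, hwE⟩ : E) = ⟨n, h.normalIn.1 hn⟩ * ⟨u, h.u_mem⟩ ^ j := rfl
    rw [map_mul, map_mul, map_mul, map_inv, map_inv, h5, map_mul, h2, one_mul, map_zpow,
      mul_inv_eq_one] at h4
    exact h4
  have h4 : Commute t' (u' ^ j) := mul_inv_eq_iff_eq_mul.1 h3
  have h5 : u' ^ l = 1 := by
    have h6 := (hf (⟨u, h.u_mem⟩ ^ l)).2 h.pow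
    rwa [map_pow] at h6
  have h6 : Commute t' u' := by
    have h7 : IsCoprime (l : ℤ) j :=
      (Nat.prime_iff_prime_int.1 (Fact.out : l.Prime)).coprime_iff_not_dvd.2 hj
    obtain ⟨a, b, hab⟩ := h7
    have h8 : u' = (u' ^ j) ^ b := by
      have h9 : u' = (u' ^ (l : ℤ)) ^ a * (u' ^ j) ^ b := by
        rw [← zpow_mul, ← zpow_mul, ← zpow_add]
        have : (l : ℤ) * a + j * b = 1 := by linear_combination hab
        rw [this, zpow_one]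
      rw [zpow_natCast, h5, one_zpow, one_mul] at h9
      exact h9
    rw [h8]
    exact h4.zpow_right b
  exact comm_mem_of_commute hf h6

end PrimeDegAPI

end MP_5771ce_al
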