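import Pool.Agent.Lib.MP_5771ce_al.Iso
import Pool.Agent.Lib.MP_5771ce_al.TN.N7Lib
import Pool.Agent.Lib.MP_5771ce_al.S4.Small
import Pool.Agent.Lib.MP_5771ce_al.EStarV

/-!
# Theorem N, step N7
-/

set_option autoImplicit false

open Subgroup
open scoped Pointwise commutatorElement

namespace MP_5771ce_al

variable {G : Type*} [Group G]

/-- A subgroup of a cyclic section is cyclic. -/
theorem cyc_sub {A K O : Subgroup G} (hK : ∀ a ∈ A, ∀ x ∈ K, a * x * a⁻¹ ∈ K) (hKA : K ≤ A)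
    {c : G} (hc : c ∈ A) (hcyc : ∀ a ∈ A, ∃ n : ℤ, a * c ^ n ∈ K) (hO : O ≤ A) :
    ∃ c' ∈ O, ∀ o ∈ O, ∃ n : ℤ, o * c' ^ n ∈ K := by
  obtain ⟨Q, _, f, hf⟩ := exists_quot (E := A) (T₂ := K) ⟨hKA, hK⟩
  have h1 : (O.subgroupOf A).map f ≤ zpowers (f ⟨c, hc⟩) := by
    rintro _ ⟨⟨o, ho⟩, hoO, rfl⟩
    obtain ⟨n, hn⟩ := hcyc o ho
    have h2 := (hf (⟨o, ho⟩ * ⟨c, hc⟩ ^ n)).2 hn
    rw [map_mul, map_zpow] at h2
    rw [mem_zpowers_iff]
    refine ⟨-n, ?_⟩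
    rw [zpow_neg]
    exact (eq_inv_of_mul_eq_one_left h2).symm
  have h2 : IsCyclic ((O.subgroupOf A).map f) :=
    isCyclic_of_injective (Subgroup.inclusion h1) (Subgroup.inclusion_injective h1)
  obtain ⟨⟨_, ⟨⟨c', hc'⟩, hc'O, rfl⟩⟩, hg⟩ := h2.exists_generator
  refine ⟨c', hc'O, fun o ho => ?_⟩
  have h3 := hg ⟨f ⟨o, hO ho⟩, ⟨⟨o, hO ho⟩, ho, rfl⟩⟩
  obtain ⟨m, hm⟩ := mem_zpowers_iff.1 h3
  have h4 : (f ⟨c', hc'⟩) ^ m = f ⟨o, hO ho⟩ := congrArg Subtype.val hm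
  refine ⟨-m, ?_⟩
  refine (hf (⟨o, hO ho⟩ * ⟨c', hc'⟩ ^ (-m))).1 ?_
  rw [map_mul, map_zpow, ← h4, ← zpow_add, add_neg_cancel, zpow_zero]

/-- The setting of step N7. -/
structure N7Ctx (A M K T P : Subgroup G) (s l : ℕ) : Prop where
  her : HerPermutable A
  AM : A ≤ M
  Psyl : SylPerm l A P
  Psol : Group.IsSolvable (A ⊔ P : Subgroup G)
  KA : K ≤ A
  Kcomm : ∀ x ∈ K, ∀ z ∈ K, x * z = z * x
  Kconj : ∀ a ∈ A, ∀ x ∈ K, a * x * a⁻¹ ∈ K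
  Kcyc : ∃ c ∈ A, ∀ a ∈ A, ∃ n : ℤ, a * c ^ n ∈ K
  TK : T ≤ K
  Ts : IsPGroup s T
  Tmax : ∀ X ≤ K, IsPGroup s X → X ≤ T
  Tconj : ∀ a ∈ A, ∀ t ∈ T, a * t * a⁻¹ ∈ T
  bad : ∀ y ∈ P, y ∉ M → y ^ l ∈ M → y ∈ normalizer (T : Set G) ∧ y ^ l ∈ A

/-- The exceptional conclusion of step N7. -/
def Exc (A K T : Subgroup G) : Prop :=
  ∃ w ∈ A, w ∉ K ∧ (∀ t ∈ T, ⁅⁅t, w⁆, w⁆ = 1) ∧
    ∃ X ≤ T, (∀ x ∈ X, x * w = w * x) ∧ ∃ c ∈ T, ∀ t ∈ T, ∃ n : ℤ, t * c ^ n ∈ X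

variable {A M K T P : Subgroup G} {s l : ℕ}

theorem relIndex_sup_zpowers_dvd [Finite G] {A : Subgroup G} {u : G} {l k : ℕ}
    (hp : Permutes A (zpowers u)) (hk : orderOf u = l ^ k) :
    A.relIndex (A ⊔ zpowers u) ∣ l ^ k := by
  rw [hp.relIndex_sup, ← hk, ← Nat.card_zpowers]
  exact Subgroup.relIndex_dvd_card _ _

theorem N7Ctx.case_le [Finite G] [hs : Fact s.Prime] (hc : N7Ctx A M K T P s l)
    [hl : Fact l.Prime] (hls : l ≠ s) {u : G} (hperm : Permutes A (zpowers u)) {k : ℕ}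
    (hk : orderOf u = l ^ k) (huH : u ∉ normalizer (T : Set G)) {N : Subgroup G}
    (hPD : PrimeDeg (A ⊔ zpowers u) ((A ⊔ zpowers u) ⊓ normalizer (T : Set G)) N l u)
    (hTN : T ≤ N) : Exc A K T := by
  set E := A ⊔ zpowers u with hE
  have hNH : N ≤ normalizer (T : Set G) := hPD.N_le.trans inf_le_right
  have hOn : NormalIn (opc s N) E := hPD.normalIn.opc s
  have hOA : opc s N ≤ A := le_of_coprime_index hl.out (le_sup_left : A ≤ E)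
    (relIndex_sup_zpowers_dvd hperm hk) hOn.1 hOn.le_normalizer
    (not_dvd_card_of_isPGroup hl.out hs.out (Ne.symm hls) (opc_isPGroup s N))
  have hTO : T ≤ opc s N := by
    refine le_opc ⟨hTN, fun e he n hn => ?_⟩ hc.Ts
    exact (mem_normalizer_iff.1 (hNH he) n).1 hn
  set T' := conjBy T u with hT'
  have hT'O : T' ≤ opc s N := by
    have h1 := conjBy_mono hTO u
    rwa [hOn.conjBy_eq hPD.u_mem] at h1
  have hne : ¬ T' ≤ T := by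
    intro h
    apply huH
    rw [mem_normalizer_iff_conjBy]
    exact Subgroup.eq_of_le_of_card_ge h (card_conjBy T u).ge
  have hT's : IsPGroup s T' := hc.Ts.map _
  have hT'K : ¬ T' ≤ K := fun h => hne (hc.Tmax T' h hT's)
  obtain ⟨w, hw, hwK⟩ := SetLike.not_le_iff_exists.1 hT'K
  have hNT' : ∀ n ∈ N, ∀ x ∈ T', n * x * n⁻¹ ∈ T' := by
    intro n hn x hx
    rw [hT', mem_conjBy] at hx ⊢
    have h1 : u * n * u⁻¹ ∈ N := hPD.conj u hPD.u_mem n hn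
    have h2 := (mem_normalizer_iff.1 (hNH h1) _).1 hx
    have h3 : u * (n * x * n⁻¹) * u⁻¹ = u * n * u⁻¹ * (u * x * u⁻¹) * (u * n * u⁻¹)⁻¹ := by group
    rw [h3]
    exact h2
  have hT'c : ∀ x ∈ T', ∀ z ∈ T', x * z = z * x := by
    intro x hx z hz
    rw [hT', mem_conjBy] at hx hz
    have h1 := hc.Kcomm _ (hc.TK hx) _ (hc.TK hz)
    have h2 : u * (x * z) * u⁻¹ = u * (z * x) * u⁻¹ := by
      calc u * (x * z) * u⁻¹ = u * x * u⁻¹ * (u * z * u⁻¹) := by group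
        _ = u * z * u⁻¹ * (u * x * u⁻¹) := h1
        _ = u * (z * x) * u⁻¹ := by group
    exact mul_left_cancel (mul_right_cancel h2)
  refine ⟨w, hOA (hT'O hw), hwK, ?_, T ⊓ T', inf_le_left, ?_, ?_⟩
  · intro t ht
    have h1 : ⁅t, w⁆ ∈ T' := by
      rw [commutatorElement_def]
      exact mul_mem (hNT' t (hTN ht) w hw) (inv_mem hw)
    rw [commutatorElement_eq_one_iff_mul_comm]
    exact hT'c _ h1 _ hw
  · rintro x ⟨-, hx⟩
    exact hT'c x hx w hw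
  · obtain ⟨c₀, hc₀, hcyc⟩ := hc.Kcyc
    obtain ⟨c₁, hc₁, hcyc₁⟩ := cyc_sub hc.Kconj hc.KA hc₀ hcyc hOA
    have h1 : ∀ o ∈ opc s N, ∃ n : ℤ, o * c₁ ^ n ∈ T := by
      intro o ho
      obtain ⟨n, hn⟩ := hcyc₁ o ho
      refine ⟨n, hc.Tmax (opc s N ⊓ K) inf_le_right ((opc_isPGroup s N).to_le inf_le_left) ⟨?_, hn⟩⟩
      exact mul_mem ho (zpow_mem hc₁ n)
    have hc₂ : u⁻¹ * c₁ * u ∈ opc s N := by
      have h2 := hOn.2 u⁻¹ (inv_mem hPD.u_mem) c₁ hc₁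
      rwa [inv_inv] at h2
    have h2 : ∀ o ∈ opc s N, ∃ n : ℤ, o * (u⁻¹ * c₁ * u) ^ n ∈ T' := by
      intro o ho
      obtain ⟨n, hn⟩ := h1 _ (hOn.2 u hPD.u_mem o ho)
      refine ⟨n, ?_⟩
      rw [hT', mem_conjBy]
      have h3 : (u⁻¹ * c₁ * u) ^ n = u⁻¹ * c₁ ^ n * u := by
        have := conj_zpow (i := n) (a := u⁻¹) (b := c₁)
        rwa [inv_inv] at this
      rw [h3]
      have h4 : u * (o * (u⁻¹ * c₁ ^ n * u)) * u⁻¹ = u * o * u⁻¹ * c₁ ^ n := by group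
      rw [h4]
      exact hn
    obtain ⟨c, hcT, hcc⟩ := cyc_sub (A := opc s N) (K := T') (O := T)
      (fun a ha x hx => hNT' a (opc_le s N ha) x hx) hT'O hc₂ h2 hTO
    refine ⟨c, hcT, fun t ht => ?_⟩
    obtain ⟨n, hn⟩ := hcc t ht
    exact ⟨n, mul_mem ht (zpow_mem hcT n), hn⟩

/-- `t ∈ F` acts on `W / N` as a power. -/
theorem PrimeDeg.act_W {E F N : Subgroup G} {l : ℕ} {u : G} (h : PrimeDeg E F N l u) {t : G}
    (ht : t ∈ F) : ∃ k : ℤ, ∀ w ∈ N ⊔ zpowers u, t * w * t⁻¹ * (w ^ k)⁻¹ ∈ N := by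
  obtain ⟨k, hk⟩ := h.act t ht
  refine ⟨k, fun w hw => ?_⟩
  obtain ⟨n, hn, j, rfl⟩ := h.mem_W.1 hw
  obtain ⟨Q, _, f, hf⟩ := exists_quot h.normalIn
  have htE := h.F_le ht
  set t' := f ⟨t, htE⟩ with ht'
  set u' := f ⟨u, h.u_mem⟩ with hu'
  have h1 : t' * u' * t'⁻¹ = u' ^ k := by
    have h2 := (hf (⟨t, htE⟩ * ⟨u, h.u_mem⟩ * ⟨t, htE⟩⁻¹ * (⟨u, h.u_mem⟩ ^ k)⁻¹)).2 hk
    rw [map_mul, map_mul, map_mul, map_inv, map_inv, map_zpow, mul_inv_eq_one] at h2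
    exact h2
  have h2 : f ⟨n, h.normalIn.1 hn⟩ = 1 := (hf _).2 hn
  have hwE : n * u ^ j ∈ E := h.W_le hw
  have h5 : (⟨n * u ^ j, hwE⟩ : E) = ⟨n, h.normalIn.1 hn⟩ * ⟨u, h.u_mem⟩ ^ j := rfl
  have h6 : f (⟨t, htE⟩ * ⟨n * u ^ j, hwE⟩ * ⟨t, htE⟩⁻¹ * (⟨n * u ^ j, hwE⟩ ^ k)⁻¹) = 1 := by
    rw [map_mul, map_mul, map_mul, map_inv, map_inv, map_zpow, h5, map_mul, h2, one_mul, map_zpow,
      mul_inv_eq_one, ← conj_zpow, h1, ← zpow_mul, ← zpow_mul, mul_comm]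
  exact (hf _).1 h6

theorem PrimeDeg.pow_mem_N {E F N : Subgroup G} {l : ℕ} {u : G} (h : PrimeDeg E F N l u) {w : G}
    (hw : w ∈ N ⊔ zpowers u) : w ^ l ∈ N := by
  obtain ⟨n, hn, j, rfl⟩ := h.mem_W.1 hw
  obtain ⟨Q, _, f, hf⟩ := exists_quot h.normalIn
  set u' := f ⟨u, h.u_mem⟩ with hu'
  have h2 : f ⟨n, h.normalIn.1 hn⟩ = 1 := (hf _).2 hn
  have h3 : u' ^ l = 1 := by
    have h6 := (hf (⟨u, h.u_mem⟩ ^ l)).2 h.pow
    rwa [map_pow] at h6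
  have hwE : n * u ^ j ∈ E := h.W_le hw
  have h5 : (⟨n * u ^ j, hwE⟩ : E) = ⟨n, h.normalIn.1 hn⟩ * ⟨u, h.u_mem⟩ ^ j := rfl
  have h6 : f (⟨n * u ^ j, hwE⟩ ^ l) = 1 := by
    rw [map_pow, h5, map_mul, h2, one_mul, map_zpow, ← zpow_natCast, zpow_comm, zpow_natCast, h3,
      one_zpow]
  exact (hf _).1 h6

theorem SylPerm.isSylowIn [Finite G] [Fact l.Prime]
    (hP : SylPerm l A P) {u : G} (hu : u ∈ P) :
    IsSylowIn l ((A ⊔ zpowers u) ⊓ P) (A ⊔ zpowers u) := by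
  have h1 : IsSylowIn l P ⊤ := ⟨le_top, hP.isPGroup, by
    rw [relIndex_top_right]; exact hP.not_dvd⟩
  refine h1.inf_of_permutes le_top ?_
  rw [permutes_iff]
  intro e he p hp
  have h2 : e * p ∈ A ⊔ P :=
    mul_mem ((sup_le_sup_left (by rwa [zpowers_le]) A : A ⊔ zpowers u ≤ A ⊔ P) he)
      (mem_sup_right hp)
  obtain ⟨p', hp', a, ha, e'⟩ := hP.permutes.mem_sup'.1 h2
  exact ⟨p', hp', a, mem_sup_left ha, e'.symm⟩

theorem N7Ctx.case_not_le [Finite G] [hs : Fact s.Prime] (hc : N7Ctx A M K T P s l)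
    [hl : Fact l.Prime] (hls : l ≠ s) {u : G} (hu : u ∈ P)
    (hulM : u ^ l ∉ M) {k : ℕ} (hk : orderOf u = l ^ k) {N : Subgroup G}
    (hPD : PrimeDeg (A ⊔ zpowers u) ((A ⊔ zpowers u) ⊓ normalizer (T : Set G)) N l u)
    (hTN : ¬ T ≤ N) : False := by
  have hP := hc.Psyl
  have hperm : Permutes A (zpowers u) :=
    hP.permutes_of_le hc.her (by rwa [zpowers_le])
  set E := A ⊔ zpowers u with hE
  set H := normalizer (T : Set G) with hH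
  have hAH : A ≤ H := le_normalizer_of_conj_mem hc.Tconj
  have hTA : T ≤ A := hc.TK.trans hc.KA
  have hNH : N ≤ H := hPD.N_le.trans inf_le_right
  obtain ⟨t, ht, htN⟩ := SetLike.not_le_iff_exists.1 hTN
  have htF : t ∈ E ⊓ H := ⟨mem_sup_left (hTA ht), hAH (hTA ht)⟩
  have htE : t ∈ E := htF.1
  set T₂ := opc s N with hT₂
  have hOn : NormalIn T₂ E := hPD.normalIn.opc s
  have hOA : T₂ ≤ A := le_of_coprime_index hl.out (le_sup_left : A ≤ E)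
    (relIndex_sup_zpowers_dvd hperm hk) hOn.1 hOn.le_normalizer
    (not_dvd_card_of_isPGroup hl.out hs.out (Ne.symm hls) (opc_isPGroup s N))
  set C := centMod E N T₂ hPD.normalIn hOn with hC
  have hCn : NormalIn C E := centMod_normalIn
  have htC : t ∈ C := by
    refine ⟨htE, fun n hn => ?_⟩
    have h1 : t * n * t⁻¹ * n⁻¹ ∈ T ⊓ N := by
      refine ⟨?_, ?_⟩
      · have h2 := (mem_normalizer_iff.1 (hNH hn) t⁻¹).1 (inv_mem ht)
        have h3 : t * n * t⁻¹ * n⁻¹ = t * (n * t⁻¹ * n⁻¹) := by group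
        rw [h3]
        exact mul_mem ht h2
      · exact N.mul_mem (hPD.conj t htE n hn) (N.inv_mem hn)
    refine le_opc (N := T ⊓ N) ⟨inf_le_right, ?_⟩ (hc.Ts.to_le inf_le_left) h1
    rintro e he x ⟨hx1, hx2⟩
    exact ⟨(mem_normalizer_iff.1 (hNH he) x).1 hx1, N.mul_mem (N.mul_mem he hx2) (N.inv_mem he)⟩
  -- `z = [t, u]`
  set z := t * u * t⁻¹ * u⁻¹ with hz
  have hzW : z ∈ N ⊔ zpowers u := hPD.comm_mem_W htF
  have hzN : z ∉ N := fun h => htN (hPD.faith t htF h)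
  have hzC : z ∈ C := by
    have h1 : z = t * (u * t⁻¹ * u⁻¹) := by rw [hz]; group
    rw [h1]
    exact C.mul_mem htC (hCn.2 u hPD.u_mem _ (C.inv_mem htC))
  have hzE : z ∈ E := hzC.1
  set x₀ := t * z * t⁻¹ * z⁻¹ with hx₀
  have hx₀C : x₀ ∈ C := C.mul_mem (C.mul_mem (C.mul_mem htC hzC) (C.inv_mem htC)) (C.inv_mem hzC)
  have hx₀W : x₀ ∈ N ⊔ zpowers u := mul_mem (hPD.W_normalIn.2 t htE z hzW) (inv_mem hzW)
  have hx₀N : x₀ ∉ N := fun h => hzN (hPD.mem_of_comm_mem htF htN hzW h)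
  have hx₀l : x₀ ^ l ∈ T₂ := by
    obtain ⟨k', hk'⟩ := hPD.act_W htF
    have h1 := hk' z hzW
    refine comm_pow_mem hOn htE hzE (hPD.normalIn.1 h1) (k := k') (by group) ?_ ?_
    · have h2 := inv_mem (hzC.2 _ h1)
      have h3 : (z * (t * z * t⁻¹ * (z ^ k')⁻¹) * z⁻¹ * (t * z * t⁻¹ * (z ^ k')⁻¹)⁻¹)⁻¹ =
        t * z * t⁻¹ * (z ^ k')⁻¹ * z * (t * z * t⁻¹ * (z ^ k')⁻¹)⁻¹ * z⁻¹ := by group
      rwa [h3] at h2
    · exact htC.2 _ (hPD.pow_mem_N hzW)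
  -- the `l`-part of `x₀`
  set m := Nat.card T₂ with hm
  set x := x₀ ^ m with hx
  have hxl : x ^ l = 1 := by
    rw [hx, ← pow_mul, mul_comm, pow_mul]
    have h1 : (⟨x₀ ^ l, hx₀l⟩ : T₂) ^ m = 1 := pow_card_eq_one'
    exact congrArg Subtype.val h1
  have hxC : x ∈ C := pow_mem hx₀C m
  have hxW : x ∈ N ⊔ zpowers u := pow_mem hx₀W m
  have hxN : x ∉ N := by
    intro h
    apply hx₀N
    refine mem_of_coprime_pow (m := m) (n := l) h (opc_le s N hx₀l) ?_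
    exact ((Nat.Prime.coprime_iff_not_dvd hl.out).2 (not_dvd_card_of_isPGroup hl.out hs.out
      (Ne.symm hls) (opc_isPGroup s N))).symm
  have hxp : IsPGroup l (zpowers x) := by
    rw [IsPGroup.iff_card]
    have h1 : Nat.card (zpowers x) ∣ l ^ 1 := by
      rw [Nat.card_zpowers, pow_one]
      exact orderOf_dvd_of_pow_eq_one hxl
    obtain ⟨j, -, hj⟩ := (Nat.dvd_prime_pow hl.out).1 h1
    exact ⟨j, hj⟩
  obtain ⟨e, he, hle⟩ := (hP.isSylowIn hu).exists_le_conjBy hxp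
    (by rw [zpowers_le]; exact hxC.1)
  have hx'P : e * x * e⁻¹ ∈ E ⊓ P := mem_conjBy.1 (hle (mem_zpowers x))
  set x' := e * x * e⁻¹ with hx'
  have hx'C : x' ∈ C := hCn.2 e he x hxC
  have hx'W : x' ∈ N ⊔ zpowers u := hPD.W_normalIn.2 e he x hxW
  have hx'l : x' ^ l = 1 := by rw [hx', conj_pow, hxl, mul_one, mul_inv_cancel]
  have hx'H : x' ∉ H := by
    intro h
    have h1 : x' ∈ N := hPD.mem_N_of_mem_W hx'W ⟨hx'P.1, h⟩
    apply hxN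
    have h2 := hPD.conj e⁻¹ (inv_mem he) x' h1
    have h3 : e⁻¹ * x' * e⁻¹⁻¹ = x := by rw [hx']; group
    rwa [h3] at h2
  have hbadP : ∀ v ∈ P, v ∉ M → v ^ l ∈ M → v ∈ H := fun v hv hvM hvl =>
    (hc.bad v hv hvM hvl).1
  have hx'M : x' ∈ M := by
    by_contra h
    exact hx'H (hbadP x' hx'P.2 h (by rw [hx'l]; exact one_mem _))
  -- the bad power of `u ^ l`
  obtain ⟨i, hy1, hy2⟩ := exists_pow_bad hP.isPGroup (pow_mem hu l) hulM
  set y := (u ^ l) ^ l ^ i with hy'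
  have hyN : y ∈ N := pow_mem hPD.pow _
  have hyP : y ∈ P := pow_mem (pow_mem hu l) _
  obtain ⟨hyH, hyA⟩ := hc.bad y hyP hy1 hy2
  have hxy : x' * y ∉ M := fun h => hy1 ((mul_mem_cancel_left hx'M).1 h)
  have hxyl : (x' * y) ^ l ∈ A := by
    have h1 := mul_pow_mem hOn hx'C.1 (hPD.normalIn.1 hyN) (hx'C.2 y hyN) l
    rw [hx'l, one_mul] at h1
    have h2 := mul_mem (hOA h1) hyA
    rwa [inv_mul_cancel_right] at h2
  have h1 := hbadP _ (mul_mem hx'P.2 hyP) hxy (hc.AM hxyl)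
  exact hx'H ((mul_mem_cancel_right hyH).1 h1)

theorem N7Ctx.main [Finite G] [hs : Fact s.Prime] (hc : N7Ctx A M K T P s l)
    [hl : Fact l.Prime] (hls : l ≠ s) :
    ∀ n : ℕ, ∀ u ∈ P, u ^ l ^ n = 1 → u ∉ M → u ∉ normalizer (T : Set G) → Exc A K T := by
  have hP := hc.Psyl
  intro n
  induction n with
  | zero =>
    intro u hu h1 huM
    rw [pow_zero, pow_one] at h1
    rw [h1] at huM
    exact absurd (one_mem M) huM
  | succ n ih =>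
    intro u hu h1 huM huH
    have hulP : u ^ l ∈ P := pow_mem hu l
    have hperm : Permutes A (zpowers u) := hP.permutes_of_le hc.her (by rwa [zpowers_le])
    obtain ⟨k, hk⟩ := IsPGroup.iff_orderOf.1 hP.isPGroup ⟨_, hu⟩
    rw [Subgroup.orderOf_mk] at hk
    by_cases h2 : u ^ l ∈ M
    · exact absurd (hc.bad u hu huM h2).1 huH
    · by_cases h3 : u ^ l ∈ normalizer (T : Set G)
      · have hle : A ≤ normalizer (T : Set G) := le_normalizer_of_conj_mem hc.Tconj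
        have hPD := exists_primeDeg (F := (A ⊔ zpowers u) ⊓ normalizer (T : Set G)) hl.out
          (isSolvable_of_le hc.Psol (sup_le_sup_left (by rwa [zpowers_le]) A)) hperm
          (n := k) (by rw [← hk, pow_orderOf_eq_one]) (le_inf le_sup_left hle) inf_le_left
          (fun h => huH h.2) ⟨pow_mem (mem_sup_right (mem_zpowers u)) l, h3⟩
        by_cases hTN : T ≤ rcore ((A ⊔ zpowers u) ⊓ normalizer (T : Set G)) (A ⊔ zpowers u)
        · exact hc.case_le hls hperm hk huH hPD hTN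
        · exact (hc.case_not_le hls hu h2 hk hPD hTN).elim
      · refine ih _ hulP ?_ h2 h3
        rw [← pow_mul, ← pow_succ']
        exact h1

/-- Step N7. -/
theorem N7Ctx.n7 [Finite G] [hs : Fact s.Prime] (hc : N7Ctx A M K T P s l)
    [hl : Fact l.Prime] (hls : l ≠ s) (hPM : ¬ P ≤ M) :
    P ≤ normalizer (T : Set G) ∨ Exc A K T := by
  by_cases h : ∀ x ∈ P, x ∈ M ∨ x ∈ normalizer (T : Set G)
  · exact Or.inl ((union_trick (p := l) h).resolve_left hPM)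
  · push Not at h
    obtain ⟨u, hu, h1, h2⟩ := h
    obtain ⟨n, hn⟩ := hc.Psyl.isPGroup ⟨u, hu⟩
    exact Or.inr (hc.main hls n u hu (congrArg Subtype.val hn) h1 h2)

end MP_5771ce_al
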