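import Pool.Agent.Lib.MP_5771ce_al.TN.N7

/-!
# Theorem N, step N7 for `NHyp`
-/

set_option autoImplicit false

open Subgroup
open scoped Pointwise commutatorElement

namespace MP_5771ce_al

variable {G : Type*} [Group G]

/-- `A / K` is cyclic. -/
theorem BadData.cyc {A K : Subgroup G} {l : ℕ} {y : G} (hB : BadData A K l y) :
    ∃ c ∈ A, ∀ a ∈ A, ∃ n : ℤ, a * c ^ n ∈ K := by
  obtain ⟨χ, hχ1, -⟩ := hB.char
  have hfact : Fact l.Prime := ⟨hB.prime⟩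
  have hcyc : IsCyclic χ.range := inferInstance
  obtain ⟨⟨_, ⟨c, rfl⟩⟩, hg⟩ := hcyc.exists_generator
  refine ⟨c, c.2, fun a ha => ?_⟩
  obtain ⟨m, hm⟩ := mem_zpowers_iff.1 (hg ⟨χ ⟨a, ha⟩, ⟨⟨a, ha⟩, rfl⟩⟩)
  have h1 : χ c ^ m = χ ⟨a, ha⟩ := congrArg Subtype.val hm
  refine ⟨-m, ?_⟩
  have h2 := (hχ1 (⟨a, ha⟩ * c ^ (-m))).1 (by
    rw [map_mul, map_zpow, ← h1, ← zpow_add, add_neg_cancel, zpow_zero])
  exact h2

theorem le_opc_of_abelian [Finite G] {K X : Subgroup G} {s : ℕ}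
    (hab : ∀ a ∈ K, ∀ b ∈ K, a * b = b * a) (hX : X ≤ K) (hXs : IsPGroup s X) : X ≤ opc s K := by
  intro x hx
  obtain ⟨n, hn⟩ := exists_pow_eq_one_of_isPGroup hXs hx
  exact mem_opc_of_abelian_pow hab (hX hx) hn

theorem NHyp.sylPerm {A M D : Subgroup G} {P : ℕ → Subgroup G} (h : NHyp A M D P) {l : ℕ}
    (hl : l.Prime) : SylPerm l A (P l) := ⟨h.Pp l hl, h.Pi l hl, h.Pperm l hl⟩

/-- Step N7 for `NHyp`: all bad elements have the same `K`. -/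
theorem NHyp.n7 [Finite G] {A M D K : Subgroup G} {P : ℕ → Subgroup G} (h : NHyp A M D P)
    (hnab : ¬ ∀ a ∈ A, ∀ b ∈ A, a * b = b * a)
    (hK : ∀ (l : ℕ) (y : G), Bad M P l y → rcore A (A ⊔ zpowers y) = K) {s l : ℕ} (hs : s.Prime)
    (hl : l.Prime) (hls : l ≠ s) (hPM : ¬ P l ≤ M) :
    P l ≤ normalizer (opc s K : Set G) ∨ Exc A K (opc s K) := by
  have hfs : Fact s.Prime := ⟨hs⟩
  have hfl : Fact l.Prime := ⟨hl⟩
  obtain ⟨x, hx, hxM⟩ := SetLike.not_le_iff_exists.1 hPM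
  obtain ⟨j, hj1, hj2⟩ := exists_pow_bad (h.Pp l hl) hx hxM
  have hb : Bad M P l (x ^ l ^ j) := ⟨hl, pow_mem hx _, hj1, hj2⟩
  have hB := h.badData hb hnab
  rw [hK l _ hb] at hB
  refine N7Ctx.n7 (P := P l) ⟨h.her, h.hAM, h.sylPerm hl, h.Psol l hl, hB.nA.1, hB.ab, hB.nA.2,
    hB.cyc, opc_le s K, opc_isPGroup s K, fun X hX hXs => le_opc_of_abelian hB.ab hX hXs,
    (hB.nA.opc s).2, ?_⟩ hls hPM
  intro y hy hyM hyl
  have hb' : Bad M P l y := ⟨hl, hy, hyM, hyl⟩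
  have hB' := h.badData hb' hnab
  rw [hK l y hb'] at hB'
  exact ⟨hB'.y_mem_normalizer, hB'.nA.1 hB'.yl⟩

end MP_5771ce_al
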