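import Pool.Agent.Lib.MP_5771ce_al.LibCore
import Pool.Agent.Lib.MP_5771ce_al.Funct

set_option autoImplicit false

/-!
# Theorem N, part 1: soluble groups with a subgroup of prime index, relative cores
-/

open Subgroup
open scoped Pointwise commutatorElement

namespace MP_5771ce_al

/-! ### The absolute statement -/

section abs
variable {Q : Type*} [Group Q]

/-- the last nontrivial term of the derived series -/
theorem exists_abelian_normal [Nontrivial Q] (hs : Group.IsSolvable Q) :
    ∃ D : Subgroup Q, D.Normal ∧ D ≠ ⊥ ∧ ∀ a ∈ D, ∀ b ∈ D, a * b = b * a := by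
  classical
  obtain ⟨n, hn⟩ := (Group.isSolvable_def Q).1 hs
  have hex : ∃ n, derivedSeries Q n = ⊥ := ⟨n, hn⟩
  set m := Nat.find hex with hm
  have hm0 : m ≠ 0 := by
    intro h0
    have := Nat.find_spec hex
    rw [← hm, h0, derivedSeries_zero] at this
    exact top_ne_bot this
  obtain ⟨k, hk⟩ := Nat.exists_eq_succ_of_ne_zero hm0
  refine ⟨derivedSeries Q k, derivedSeries_normal Q k, ?_, ?_⟩
  · exact Nat.find_min hex (by omega)
  · have h1 := Nat.find_spec hex
    rw [← hm, hk, Nat.succ_eq_add_one, derivedSeries_succ, commutator_eq_bot_iff_le_centralizer] at h1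
    intro a ha b hb
    exact (mem_centralizer_iff.1 (h1 ha) b hb).symm

/-- A soluble group with a core-free subgroup of prime index. -/
theorem prime_index_abs [Finite Q] (hs : Group.IsSolvable Q) {F : Subgroup Q} {l : ℕ}
    (hl : l.Prime) (hi : F.index = l) (hc : F.normalCore = ⊥) {y : Q} (hyF : y ∉ F) {n : ℕ}
    (hyn : y ^ (l ^ n) = 1) :
    y ^ l = 1 ∧ (∀ g : Q, ∃ k : ℕ, g⁻¹ * y * g = y ^ k) ∧ ∀ f ∈ F, f * y = y * f → f = 1 := by
  have hF : IsCoatom F := isCoatom_of_index_prime (hi ▸ hl)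
  have hnt : Nontrivial Q := by
    refine ⟨y, 1, fun h => hyF (h ▸ F.one_mem)⟩
  obtain ⟨D, hDn, hD, hDa⟩ := exists_abelian_normal hs
  have hDF : ¬ D ≤ F := by
    intro h
    have h1 : D ≤ F.normalCore := Subgroup.normal_le_normalCore.2 h
    rw [hc, le_bot_iff] at h1
    exact hD h1
  have hsup : F ⊔ D = ⊤ := by
    rcases hF.le_iff.1 (le_sup_left : F ≤ F ⊔ D) with h | h
    · exact h
    · exact absurd (le_sup_right.trans h.le) hDF
  have hperm : Permutes F D := (permutes_of_le_normalizer (N := D) (M := F) (by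
    rw [Subgroup.normalizer_eq_top D]; exact le_top)).symm
  have hmul : ∀ g : Q, ∃ f ∈ F, ∃ d ∈ D, f * d = g := fun g =>
    hperm.mem_sup.1 (hsup ▸ Subgroup.mem_top g)
  -- normality of subgroups of `F` normalised by `F` and `D`
  have hnorm : ∀ C : Subgroup Q, C ≤ F → (∀ f ∈ F, ∀ c ∈ C, f * c * f⁻¹ ∈ C) →
      (∀ d ∈ D, ∀ c ∈ C, d * c * d⁻¹ ∈ C) → C = ⊥ := by
    intro C hCF h1 h2
    have hCn : C.Normal := by
      refine ⟨fun c hc g => ?_⟩
      obtain ⟨f, hf, d, hd, rfl⟩ := hmul g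
      have := h1 f hf _ (h2 d hd c hc)
      simpa [mul_assoc] using this
    have := Subgroup.normal_le_normalCore.2 hCF
    rwa [hc, le_bot_iff] at this
  have hinf : F ⊓ D = ⊥ := by
    refine hnorm _ inf_le_left (fun f hf c hc => ⟨?_, hDn.conj_mem c hc.2 f⟩) fun d hd c hc => ?_
    · exact F.mul_mem (F.mul_mem hf hc.1) (F.inv_mem hf)
    · rw [hDa d hd c hc.2, mul_inv_cancel_right]
      exact hc
  have hcard : Nat.card D = l := by
    have h1 := hperm.relIndex_sup
    rw [hsup, relIndex_top_right, hi] at h1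
    have h2 : F.relIndex D = Nat.card D := by
      rw [← inf_relIndex_right, hinf, relIndex_bot_left]
    rw [← h2, ← h1]
  -- the centraliser of `D` in `F`
  have hcen : ∀ f ∈ F, (∀ d ∈ D, f * d = d * f) → f = 1 := by
    have h1 : F ⊓ centralizer (D : Set Q) = ⊥ := by
      refine hnorm _ inf_le_left (fun f hf c hc => ⟨?_, ?_⟩) fun d hd c hc => ?_
      · exact F.mul_mem (F.mul_mem hf hc.1) (F.inv_mem hf)
      · exact (inferInstance : (centralizer (D : Set Q)).Normal).conj_mem c hc.2 f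
      · rw [(mem_centralizer_iff.1 hc.2 d hd), mul_inv_cancel_right]
        exact hc
    intro f hf h2
    have h3 : f ∈ F ⊓ centralizer (D : Set Q) :=
      ⟨hf, mem_centralizer_iff.2 fun d hd => (h2 d hd).symm⟩
    rwa [h1, mem_bot] at h3
  -- a generator
  obtain ⟨v, hv, hv1⟩ := D.bot_or_exists_ne_one.resolve_left hD
  have hfact : Fact l.Prime := ⟨hl⟩
  have hgen : ∀ w ∈ D, w ≠ 1 → ∀ d ∈ D, ∃ k : ℕ, d = w ^ k := by
    intro w hw hw1 d hd
    have h1 : zpowers (⟨w, hw⟩ : D) = ⊤ := by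
      apply zpowers_eq_top_of_prime_card hcard
      intro h
      exact hw1 (congrArg Subtype.val h)
    have h2 : (⟨d, hd⟩ : D) ∈ zpowers (⟨w, hw⟩ : D) := by rw [h1]; trivial
    rw [← mem_powers_iff_mem_zpowers] at h2
    obtain ⟨k, hk⟩ := h2
    exact ⟨k, (congrArg Subtype.val hk).symm⟩
  have hord : ∀ w ∈ D, w ≠ 1 → orderOf w = l := by
    intro w hw hw1
    have h1 : orderOf w ∣ l := by
      rw [← hcard, ← Subgroup.orderOf_mk w hw]
      exact orderOf_dvd_natCard _
    rcases (Nat.dvd_prime hl).1 h1 with h | h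
    · exact absurd (orderOf_eq_one_iff.1 h) hw1
    · exact h
  -- `y ∈ D`
  have hyD : y ∈ D := by
    obtain ⟨k, hk⟩ := hgen v hv hv1 (y⁻¹ * v * y) (by
      have := hDn.conj_mem v hv y⁻¹
      simpa using this)
    have h1 : ∀ i : ℕ, (y ^ i)⁻¹ * v * y ^ i = v ^ (k ^ i) := by
      intro i
      induction i with
      | zero => simp
      | succ i ih =>
        have h2 : (y ^ (i + 1))⁻¹ * v * y ^ (i + 1) = y⁻¹ * ((y ^ i)⁻¹ * v * y ^ i) * y := by
          rw [pow_succ]
          group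
        rw [h2, ih]
        have h3 : y⁻¹ * v ^ (k ^ i) * y = (y⁻¹ * v * y) ^ (k ^ i) := by
          have := (conj_pow (a := y⁻¹) (b := v) (i := k ^ i)).symm
          simpa using this
        rw [h3, hk, ← pow_mul, pow_succ, mul_comm]
    have h2 := h1 (l ^ n)
    rw [hyn, inv_one, one_mul, mul_one] at h2
    have h3 : v ^ 1 = v ^ (k ^ (l ^ n)) := by rw [pow_one]; exact h2
    rw [pow_eq_pow_iff_modEq, hord v hv hv1, ← ZMod.natCast_eq_natCast_iff] at h3
    push_cast at h3
    have h4 : ((k : ZMod l)) ^ (l ^ n) = k := ZMod.pow_card_pow (k : ZMod l)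
    rw [h4] at h3
    have h5 : v ^ 1 = v ^ k := by
      rw [pow_eq_pow_iff_modEq, hord v hv hv1, ← ZMod.natCast_eq_natCast_iff]
      exact_mod_cast h3
    rw [← h5, pow_one] at hk
    have hyv : y * v = v * y := by
      calc y * v = y * (y⁻¹ * v * y) := by rw [hk]
        _ = v * y := by group
    obtain ⟨f, hf, d, hd, rfl⟩ := hmul y
    have hf1 : f = 1 := by
      refine hcen f hf fun e he => ?_
      obtain ⟨j, rfl⟩ := hgen v hv hv1 e he
      have hfv : f * v = v * f := by
        have h6 : f * d * v = v * (f * d) := hyv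
        rw [mul_assoc, hDa d hd v hv, ← mul_assoc, ← mul_assoc] at h6
        exact mul_right_cancel h6
      exact (Commute.pow_right (show Commute f v from hfv) j)
    rw [hf1, one_mul]
    exact hd
  have hy1 : y ≠ 1 := fun h => hyF (h ▸ F.one_mem)
  refine ⟨?_, fun g => ?_, fun f hf hfy => ?_⟩
  · rw [← hord y hyD hy1]
    exact pow_orderOf_eq_one y
  · exact hgen y hyD hy1 _ (by
      have := hDn.conj_mem y hyD g⁻¹
      simpa using this)
  · refine hcen f hf fun e he => ?_
    obtain ⟨j, rfl⟩ := hgen y hyD hy1 e he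
    exact (Commute.pow_right (show Commute f y from hfy) j)

/-- the character describing the conjugation on a normal subgroup of prime order -/
theorem exists_char_of_conj {l : ℕ} (hl : l.Prime) {y : Q} (hy1 : y ≠ 1) (hyl : y ^ l = 1)
    (hconj : ∀ g : Q, ∃ k : ℕ, g⁻¹ * y * g = y ^ k) :
    ∃ χ : Q →* (ZMod l)ˣ, ∀ (g : Q) (k : ℕ), (k : ZMod l) = χ g → g⁻¹ * y * g = y ^ k := by
  have hord : orderOf y = l := by
    rcases (Nat.dvd_prime hl).1 (orderOf_dvd_of_pow_eq_one hyl) with h | h
    · exact absurd (orderOf_eq_one_iff.1 h) hy1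
    · exact h
  have hpow : ∀ a b : ℕ, y ^ a = y ^ b ↔ (a : ZMod l) = b := by
    intro a b
    rw [pow_eq_pow_iff_modEq, hord, ZMod.natCast_eq_natCast_iff]
  choose k hk using hconj
  let χ₀ : Q →* ZMod l :=
    { toFun := fun g => (k g : ZMod l)
      map_one' := by
        have := hk 1
        rw [inv_one, one_mul, mul_one] at this
        have h1 : y ^ 1 = y ^ k 1 := by rw [pow_one]; exact this
        rw [hpow] at h1
        exact_mod_cast h1.symm
      map_mul' := by
        intro g h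
        have h1 : y ^ k (g * h) = y ^ (k g * k h) := by
          rw [← hk (g * h), mul_comm (k g), pow_mul, ← hk h]
          have h2 : (h⁻¹ * y * h) ^ k g = h⁻¹ * y ^ k g * h := by
            have := conj_pow (a := h⁻¹) (b := y) (i := k g)
            simpa using this
          rw [h2, ← hk g]
          group
        rw [hpow] at h1
        exact_mod_cast h1 }
  refine ⟨χ₀.toHomUnits, fun g j hj => ?_⟩
  rw [hk g, hpow]
  rw [hj]
  rfl

end abs

/-! ### Relative cores -/

section rel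
variable {G : Type*} [Group G]

/-- the core of `F` in `E` (used for `F ≤ E`) -/
def rcore (F E : Subgroup G) : Subgroup G where
  carrier := {x | ∀ e ∈ E, e * x * e⁻¹ ∈ F}
  mul_mem' := by
    intro a b ha hb e he
    have := F.mul_mem (ha e he) (hb e he)
    simpa [mul_assoc] using this
  one_mem' := by
    intro e _
    simp
  inv_mem' := by
    intro a ha e he
    have := F.inv_mem (ha e he)
    simpa [mul_assoc] using this

theorem mem_rcore {F E : Subgroup G} {x : G} : x ∈ rcore F E ↔ ∀ e ∈ E, e * x * e⁻¹ ∈ F := Iff.rfl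

theorem rcore_le (F E : Subgroup G) : rcore F E ≤ F := fun x hx => by
  have := hx 1 E.one_mem
  simpa using this

theorem rcore_normalIn {F E : Subgroup G} (h : F ≤ E) : NormalIn (rcore F E) E := by
  refine ⟨(rcore_le F E).trans h, fun e he n hn e' he' => ?_⟩
  have := hn (e' * e) (E.mul_mem he' he)
  simpa [mul_assoc] using this

theorem le_rcore {N F E : Subgroup G} (hN : NormalIn N E) (h : N ≤ F) : N ≤ rcore F E :=
  fun n hn e he => h (hN.2 e he n hn)

theorem normalCore_quotient_eq_bot {F E : Subgroup G}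
    [hn : ((rcore F E).subgroupOf E).Normal] :
    ((F.subgroupOf E).map (QuotientGroup.mk' ((rcore F E).subgroupOf E))).normalCore = ⊥ := by
  rw [eq_bot_iff]
  intro q hq
  obtain ⟨⟨x, hxE⟩, rfl⟩ := QuotientGroup.mk'_surjective _ q
  rw [mem_bot, QuotientGroup.mk'_apply, QuotientGroup.eq_one_iff, mem_subgroupOf]
  intro e he
  have h1 := hq (QuotientGroup.mk' ((rcore F E).subgroupOf E) ⟨e, he⟩)
  rw [← map_mul, ← map_inv, ← map_mul] at h1
  obtain ⟨⟨f, hfE⟩, hf, hfe⟩ := h1
  rw [QuotientGroup.mk'_eq_mk'] at hfe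
  obtain ⟨z, hz, hze⟩ := hfe
  have h2 : f * (z : G) = e * x * e⁻¹ := congrArg Subtype.val hze
  rw [← h2]
  exact F.mul_mem hf (rcore_le F E hz)

/-- **Subgroups of prime index in a soluble group**, relative version: with `N = core_E(F)`,
`y ∈ E ∖ F` an `l`-element, `|E : F| = l`. -/
theorem prime_index [Finite G] {E F : Subgroup G} (hs : Group.IsSolvable E) (hFE : F ≤ E) {l : ℕ}
    (hl : l.Prime) (hi : F.relIndex E = l) {y : G} (hyE : y ∈ E) (hyF : y ∉ F) {n : ℕ}
    (hyn : y ^ (l ^ n) = 1) :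
    y ^ l ∈ rcore F E ∧ ∃ χ : E →* (ZMod l)ˣ,
      (∀ (e : E) (k : ℕ), (k : ZMod l) = χ e →
        (y ^ k)⁻¹ * ((e : G)⁻¹ * y * e) ∈ rcore F E) ∧
      ∀ f : E, (f : G) ∈ F → (χ f = 1 ↔ (f : G) ∈ rcore F E) := by
  have hnor : ((rcore F E).subgroupOf E).Normal := (rcore_normalIn hFE).subgroupOf_normal
  set N := rcore F E with hN
  set q := QuotientGroup.mk' (N.subgroupOf E) with hq
  have hq1 : ∀ e : E, q e = 1 ↔ (e : G) ∈ N := by
    intro e
    rw [hq, QuotientGroup.mk'_apply, QuotientGroup.eq_one_iff, mem_subgroupOf]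
  have hyq : q ⟨y, hyE⟩ ∉ (F.subgroupOf E).map q := by
    rintro ⟨⟨f, hfE⟩, hf, hfe⟩
    rw [hq, QuotientGroup.mk'_eq_mk'] at hfe
    obtain ⟨z, hz, hze⟩ := hfe
    have h2 : f * (z : G) = y := congrArg Subtype.val hze
    exact hyF (h2 ▸ F.mul_mem hf (rcore_le F E hz))
  have hidx : ((F.subgroupOf E).map q).index = l := by
    rw [Subgroup.index_map_eq _ (QuotientGroup.mk'_surjective _)]
    · exact hi
    · intro e he
      rw [MonoidHom.mem_ker, hq1] at he
      exact rcore_le F E he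
  have hsq : Group.IsSolvable (E ⧸ N.subgroupOf E) := Group.isSolvable_of_surjective
    (QuotientGroup.mk'_surjective (N.subgroupOf E))
  obtain ⟨h1, h2, h3⟩ := prime_index_abs hsq hl hidx normalCore_quotient_eq_bot hyq (n := n)
    (by
      rw [← map_pow]
      have : (⟨y, hyE⟩ : E) ^ (l ^ n) = 1 := Subtype.ext hyn
      rw [this, map_one])
  have hy1 : q ⟨y, hyE⟩ ≠ 1 := fun h => hyq (by rw [h]; exact Subgroup.one_mem _)
  obtain ⟨χ, hχ⟩ := exists_char_of_conj hl hy1 h1 h2
  refine ⟨?_, χ.comp q, ?_, ?_⟩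
  · rw [← map_pow, hq1] at h1
    exact h1
  · intro e k hk
    have h4 := hχ (q e) k hk
    rw [← map_inv, ← map_mul, ← map_mul, ← map_pow] at h4
    have h5 : q ((⟨y, hyE⟩ ^ k)⁻¹ * (e⁻¹ * ⟨y, hyE⟩ * e)) = 1 := by
      rw [map_mul, h4, map_inv, inv_mul_cancel]
    rw [hq1] at h5
    exact h5
  · intro f hf
    constructor
    · intro hχf
      have h4 := hχ (q f) 1 (by
        rw [Nat.cast_one]
        have : χ (q f) = 1 := hχf
        rw [this]
        rfl)
      rw [pow_one] at h4
      have h5 := h3 (q f) ⟨f, hf, rfl⟩ (by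
        calc q f * q ⟨y, hyE⟩ = q f * ((q f)⁻¹ * q ⟨y, hyE⟩ * q f) := by rw [h4]
          _ = q ⟨y, hyE⟩ * q f := by group)
      rwa [hq1] at h5
    · intro hfN
      show χ (q f) = 1
      rw [(hq1 f).2 hfN, map_one]

end rel

end MP_5771ce_al
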