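import Pool.Agent.Lib.MP_5771ce_al.TN.Four
import Pool.Agent.Lib.MP_5771ce_al.MC
import Pool.Agent.Lib.MP_5771ce_al.LibSylow

set_option autoImplicit false
set_option linter.unusedSectionVars false

/-!
# Theorem N, part 7: step N7
-/

open Subgroup
open scoped Pointwise commutatorElement

namespace MP_5771ce_al

/-! ### The abstract lemma of the second case -/

theorem conj_aux {Q : Type*} [Group Q] {τ Z C : Q} {k : ℕ} (hZC : Commute Z C)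
    (htc : Commute τ C) (h : τ⁻¹ * Z * τ = Z ^ k * C) :
    τ⁻¹ * (Z ^ ((k : ℤ) - 1) * C) * τ = (Z ^ ((k : ℤ) - 1) * C) ^ k := by
  have h3 : τ⁻¹ * (Z ^ ((k : ℤ) - 1) * C) * τ = (τ⁻¹ * Z * τ) ^ ((k : ℤ) - 1) * (τ⁻¹ * C * τ) := by
    have := conj_zpow (a := τ⁻¹) (b := Z) (i := (k : ℤ) - 1)
    rw [inv_inv] at this
    rw [this]
    group
  have h4 : τ⁻¹ * C * τ = C := by
    rw [mul_assoc, ← htc.eq, inv_mul_cancel_left]
  rw [h3, h4, h, (hZC.pow_left k).mul_zpow, (hZC.zpow_left ((k : ℤ) - 1)).mul_pow, mul_assoc,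
    ← zpow_add_one, sub_add_cancel, zpow_natCast]
  congr 1
  rw [← zpow_natCast, ← zpow_natCast, ← zpow_mul, ← zpow_mul, mul_comm]

theorem exists_x_abs {F : Type*} [Group F] {N T : Subgroup F} [hN : N.Normal] [hT : T.Normal]
    {l : ℕ} (hl : l.Prime) {u t : F} (hul : u ^ l ∈ N) {k : ℕ}
    (hk1 : ¬ (l : ℤ) ∣ (k : ℤ) - 1) (htu : (u ^ k)⁻¹ * (t⁻¹ * u * t) ∈ N)
    (ht : ∀ n ∈ N, t * n * t⁻¹ * n⁻¹ ∈ T) {m : ℕ} (hm : ∀ x ∈ T, x ^ m = 1)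
    (hml : ¬ (l : ℤ) ∣ m) :
    ∃ x : F, x ^ l = 1 ∧ (∀ n ∈ N, x * n * x⁻¹ * n⁻¹ ∈ T) ∧
      ∃ e : ℤ, ¬ (l : ℤ) ∣ e ∧ x * u ^ e ∈ N := by
  have hpl : Prime (l : ℤ) := Nat.prime_iff_prime_int.1 hl
  set q₁ := QuotientGroup.mk' N with hq₁
  set q₂ := QuotientGroup.mk' T with hq₂
  have h1 : ∀ g, q₁ g = 1 ↔ g ∈ N := fun g => by
    rw [hq₁, QuotientGroup.mk'_apply, QuotientGroup.eq_one_iff]
  have h2 : ∀ g, q₂ g = 1 ↔ g ∈ T := fun g => by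
    rw [hq₂, QuotientGroup.mk'_apply, QuotientGroup.eq_one_iff]
  have hcom : ∀ g n, g * n * g⁻¹ * n⁻¹ ∈ T ↔ Commute (q₂ g) (q₂ n) := by
    intro g n
    rw [← h2, map_mul, map_mul, map_mul, map_inv, map_inv, mul_inv_eq_one, mul_inv_eq_iff_eq_mul]
    exact Iff.rfl
  have htn : ∀ n ∈ N, Commute (q₂ t) (q₂ n) := fun n hn => (hcom t n).1 (ht n hn)
  have hutn : ∀ n ∈ N, Commute (q₂ (u⁻¹ * t * u)) (q₂ n) := by
    intro n hn
    have h3 := htn (u * n * u⁻¹) (hN.conj_mem n hn u)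
    have h4 := congrArg (fun g => (q₂ u)⁻¹ * g * q₂ u) h3.eq
    simp only [map_mul, map_inv] at h4 ⊢
    show (q₂ u)⁻¹ * q₂ t * q₂ u * q₂ n = q₂ n * ((q₂ u)⁻¹ * q₂ t * q₂ u)
    calc (q₂ u)⁻¹ * q₂ t * q₂ u * q₂ n
        = (q₂ u)⁻¹ * (q₂ t * (q₂ u * q₂ n * (q₂ u)⁻¹)) * q₂ u := by group
      _ = (q₂ u)⁻¹ * (q₂ u * q₂ n * (q₂ u)⁻¹ * q₂ t) * q₂ u := h4
      _ = q₂ n * ((q₂ u)⁻¹ * q₂ t * q₂ u) := by group
  set z := t⁻¹ * (u⁻¹ * t * u) with hz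
  have hzn : ∀ n ∈ N, Commute (q₂ z) (q₂ n) := by
    intro n hn
    rw [hz, map_mul, map_inv]
    exact (htn n hn).inv_left.mul_left (hutn n hn)
  -- images modulo `N`
  have hut : (q₁ t)⁻¹ * q₁ u * q₁ t = q₁ u ^ k := by
    have h3 := (h1 _).2 htu
    rw [map_mul, map_inv, map_pow, inv_mul_eq_one] at h3
    simpa using h3.symm
  have hz1 : q₁ z = q₁ u ^ (1 - (k : ℤ)) := by
    have h3 : q₁ z = ((q₁ t)⁻¹ * q₁ u * q₁ t)⁻¹ * q₁ u := by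
      rw [hz]
      simp only [map_mul, map_inv]
      group
    rw [h3, hut, sub_eq_neg_add, zpow_add, zpow_one, zpow_neg, zpow_natCast]
  set c := (z ^ k)⁻¹ * (t⁻¹ * z * t) with hc
  have hcN : c ∈ N := by
    rw [← h1, hc, map_mul, map_inv, map_pow, hz1]
    have h3 : q₁ (t⁻¹ * z * t) = (q₁ u ^ k) ^ (1 - (k : ℤ)) := by
      rw [map_mul, map_mul, map_inv, hz1, ← hut]
      have := conj_zpow (a := (q₁ t)⁻¹) (b := q₁ u) (i := 1 - (k : ℤ))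
      rw [inv_inv] at this
      exact this.symm
    rw [h3, ← zpow_natCast, ← zpow_natCast, ← zpow_mul, ← zpow_mul, inv_mul_eq_one]
    congr 1
    ring
  have htz : t⁻¹ * z * t = z ^ k * c := by rw [hc, mul_inv_cancel_left]
  -- images modulo `T`
  have hcn : ∀ n ∈ N, Commute (q₂ c) (q₂ n) := by
    intro n hn
    rw [hc]
    simp only [map_mul, map_inv, map_pow]
    exact (((hzn n hn).pow_left k).inv_left).mul_left
      (((htn n hn).inv_left.mul_left (hzn n hn)).mul_left (htn n hn))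
  have hZC : Commute (q₂ z) (q₂ c) := hzn c hcN
  have htc : Commute (q₂ t) (q₂ c) := htn c hcN
  have htz2 : (q₂ t)⁻¹ * q₂ z * q₂ t = q₂ z ^ k * q₂ c := by
    have := congrArg q₂ htz
    simpa using this
  set x₀ := z ^ ((k : ℤ) - 1) * c with hx₀
  have hx₀c : ∀ n ∈ N, Commute (q₂ x₀) (q₂ n) := by
    intro n hn
    rw [hx₀, map_mul, map_zpow]
    exact ((hzn n hn).zpow_left _).mul_left (hcn n hn)
  have hx₀2 : q₂ x₀ = q₂ z ^ ((k : ℤ) - 1) * q₂ c := by rw [hx₀, map_mul, map_zpow]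
  have htx : (q₂ t)⁻¹ * q₂ x₀ * q₂ t = q₂ x₀ ^ k := by
    rw [hx₀2]
    exact conj_aux hZC htc htz2
  have hx1 : q₁ x₀ = q₁ u ^ (-((k : ℤ) - 1) ^ 2) := by
    rw [hx₀, map_mul, map_zpow, (h1 c).2 hcN, mul_one, hz1, ← zpow_mul]
    congr 1
    ring
  have hul1 : q₁ u ^ l = 1 := by rw [← map_pow]; exact (h1 _).2 hul
  have hx₀l : x₀ ^ l ∈ N := by
    rw [← h1, map_pow, hx1, ← zpow_natCast, ← zpow_mul, mul_comm, zpow_mul, zpow_natCast, hul1,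
      one_zpow]
  have hX : (q₂ x₀ ^ ((k : ℤ) - 1)) ^ l = 1 := by
    have h3 : Commute (q₂ t) (q₂ (x₀ ^ l)) := htn _ hx₀l
    rw [map_pow] at h3
    have h4 : (q₂ t)⁻¹ * q₂ x₀ ^ l * q₂ t = (q₂ x₀ ^ k) ^ l := by
      have := conj_pow (a := (q₂ t)⁻¹) (b := q₂ x₀) (i := l)
      rw [inv_inv, htx] at this
      exact this.symm
    rw [mul_assoc, ← h3.eq, inv_mul_cancel_left] at h4
    have h5 : (q₂ x₀ ^ ((k : ℤ) - 1)) ^ l = (q₂ x₀ ^ k) ^ l * (q₂ x₀ ^ l)⁻¹ := by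
      rw [← h4]
      rw [← zpow_natCast, ← zpow_mul, ← zpow_natCast (q₂ x₀) l, ← zpow_neg, sub_mul, one_mul,
        sub_eq_add_neg, zpow_add]
      congr 1
      rw [zpow_mul, zpow_natCast, zpow_natCast, ← h4, zpow_natCast]
    rw [h5, ← h4, mul_inv_cancel]
  -- the element
  refine ⟨(x₀ ^ ((k : ℤ) - 1)) ^ m, ?_, fun n hn => ?_, ((k : ℤ) - 1) ^ 3 * m, ?_, ?_⟩
  · rw [← pow_mul, mul_comm, pow_mul]
    apply hm
    rw [← h2, map_pow, map_zpow]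
    exact hX
  · rw [hcom, map_pow, map_zpow]
    exact ((hx₀c n hn).zpow_left _).pow_left m
  · intro hdvd
    rcases hpl.dvd_or_dvd hdvd with h3 | h3
    · exact hk1 (hpl.dvd_of_dvd_pow h3)
    · exact hml h3
  · rw [← h1, map_mul, map_pow, map_zpow, map_zpow, hx1, ← zpow_natCast, ← zpow_mul, ← zpow_mul,
      ← zpow_add]
    have : -((k : ℤ) - 1) ^ 2 * (((k : ℤ) - 1) * m) + ((k : ℤ) - 1) ^ 3 * m = 0 := by ring
    rw [this, zpow_zero]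

end MP_5771ce_al
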