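import Pool.Agent.Lib.MP_5771ce_al.TN.Seven

set_option autoImplicit false
set_option linter.unusedSectionVars false

/-!
# Theorem N, part 8: step N7
-/

open Subgroup
open scoped Pointwise commutatorElement

namespace MP_5771ce_al

variable {G : Type*} [Group G] [Finite G]

theorem exists_gen_of_cyclic {H C : Type*} [Group H] [Group C] [IsCyclic C] (φ : H →* C) :
    ∃ h₀ : H, ∀ h : H, ∃ i : ℤ, φ (h₀ ^ i * h) = 1 := by
  obtain ⟨⟨_, h₀, rfl⟩, hg⟩ := IsCyclic.exists_generator (α := φ.range)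
  refine ⟨h₀, fun h => ?_⟩
  obtain ⟨j, hj⟩ := hg ⟨φ h, h, rfl⟩
  have hj' : φ h₀ ^ j = φ h := congrArg Subtype.val hj
  exact ⟨-j, by rw [map_mul, map_zpow, ← hj', zpow_neg, inv_mul_cancel]⟩

theorem le_of_coprime_permutes {A O Z : Subgroup G} {s l : ℕ} (hs : s.Prime) (hl : l.Prime)
    (hsl : s ≠ l) (hO : IsPGroup s O) (hAO : Permutes A O) (hAZ : Permutes A Z)
    (hZ : IsPGroup l Z) (hOZ : O ≤ A ⊔ Z) : O ≤ A := by
  have hfs : Fact s.Prime := ⟨hs⟩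
  have hfl : Fact l.Prime := ⟨hl⟩
  have h1 : A.relIndex O ∣ A.relIndex Z := by
    rw [← hAO.relIndex_sup, ← hAZ.relIndex_sup]
    exact ⟨_, (relIndex_mul_relIndex A (A ⊔ O) (A ⊔ Z) le_sup_left
      (sup_le le_sup_left hOZ)).symm⟩
  have h2 : A.relIndex O ∣ Nat.card O := relIndex_dvd_card A O
  have h3 : A.relIndex Z ∣ Nat.card Z := relIndex_dvd_card A Z
  obtain ⟨a, ha⟩ := IsPGroup.iff_card.1 hO
  obtain ⟨b, hb⟩ := IsPGroup.iff_card.1 hZ
  rw [ha] at h2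
  rw [hb] at h3
  have h4 : Nat.Coprime (s ^ a) (l ^ b) :=
    Nat.Coprime.pow a b ((Nat.coprime_primes hs hl).2 hsl)
  rw [← relIndex_eq_one]
  exact Nat.eq_one_of_dvd_coprimes h4 h2 (h1.trans h3)

/-- N7, the case `T ≤ N'` -/
theorem seven_case_one {A K : Subgroup G} {l l' s : ℕ} {y u : G} (hB : BadData A K l' y)
    (hs : s.Prime) (hl : l.Prime) (hsl : s ≠ l)
    (hAul : Permutes A (zpowers (u ^ l))) {n : ℕ} (hun : u ^ (l ^ n) = 1)
    (huT : u ∉ normalizer (opc s K : Set G)) (hulT : u ^ l ∈ normalizer (opc s K : Set G))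
    (hTN : opc s K ≤ rcore (A ⊔ zpowers (u ^ l)) (A ⊔ zpowers u)) :
    ∃ w ∈ A, w ∉ K ∧ Quad w (opc s K) ∧
      ∃ t₀ ∈ opc s K, ∀ t ∈ opc s K, ∃ i : ℤ, Commute w (t₀ ^ i * t) := by
  set T := opc s K with hT
  set F := A ⊔ zpowers u with hF
  set F₁ := A ⊔ zpowers (u ^ l) with hF₁
  have huF : u ∈ F := mem_sup_right (mem_zpowers u)
  have hF₁F : F₁ ≤ F := sup_le le_sup_left (by rw [zpowers_le]; exact pow_mem huF l)
  set N' := rcore F₁ F with hN'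
  have hN'F : NormalIn N' F := rcore_normalIn hF₁F
  have hAT : A ≤ normalizer (T : Set G) := hB.A_le_normalizer
  have hF₁T : F₁ ≤ normalizer (T : Set G) := sup_le hAT (by rwa [zpowers_le])
  have hN'T : N' ≤ normalizer (T : Set G) := (rcore_le F₁ F).trans hF₁T
  have hTab : ∀ a ∈ T, ∀ b ∈ T, a * b = b * a := fun a ha b hb =>
    hB.ab a (opc_le s K ha) b (opc_le s K hb)
  set O := opc s N' with hO
  have hOF : NormalIn O F := hN'F.opc s
  have hON' : O ≤ N' := opc_le s N'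
  have hOA : O ≤ A := by
    refine le_of_coprime_permutes hs hl hsl (opc_isPGroup s N') ?_ hAul ?_ ?_
    · exact (permutes_of_le_normalizer (le_sup_left.trans hOF.le_normalizer)).symm
    · rintro ⟨_, i, rfl⟩
      refine ⟨n, Subtype.ext ?_⟩
      show ((u ^ l) ^ i) ^ (l ^ n) = 1
      rw [← zpow_natCast, ← zpow_mul, mul_comm, zpow_mul, zpow_natCast, ← pow_mul, mul_comm,
        pow_mul, hun, one_pow, one_zpow]
    · exact hON'.trans (rcore_le F₁ F)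
  have hTO : T ≤ O := le_opc (normalIn_of_le_normalizer hTN hN'T) (opc_isPGroup s K)
  have hOK : ∀ x ∈ O, x ∈ K → x ∈ T := by
    intro x hx hxK
    obtain ⟨c, hc⟩ := exists_pow_eq_one_of_isPGroup (opc_isPGroup s N') hx
    exact mem_opc_of_abelian_pow hB.ab hxK hc
  obtain ⟨t₁, ht₁, ht₁u⟩ : ∃ t₁ ∈ T, u * t₁ * u⁻¹ ∉ T := by
    by_contra hcon
    push Not at hcon
    exact huT (Subgroup.mem_normalizer_fintype hcon)
  set w := u * t₁ * u⁻¹ with hw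
  have hwO : w ∈ O := hOF.2 u huF t₁ (hTO ht₁)
  refine ⟨w, hOA hwO, fun hwK => ht₁u (hOK w hwO hwK), ?_, ?_⟩
  · intro t ht
    have hg : u⁻¹ * t * u ∈ normalizer (T : Set G) :=
      hN'T (hN'F.conj_mem' huF (hON' (hTO ht)))
    set g := u⁻¹ * t * u with hgdef
    have hr : t₁ * (g * t₁⁻¹ * g⁻¹) ∈ T :=
      T.mul_mem ht₁ ((mem_normalizer_iff.1 hg _).1 (T.inv_mem ht₁))
    have h1 : w * t * w⁻¹ * t⁻¹ = u * (t₁ * (g * t₁⁻¹ * g⁻¹)) * u⁻¹ := by
      rw [hw, hgdef]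
      group
    rw [h1, hw]
    have h2 := hTab t₁ ht₁ _ hr
    show u * t₁ * u⁻¹ * (u * (t₁ * (g * t₁⁻¹ * g⁻¹)) * u⁻¹) =
      u * (t₁ * (g * t₁⁻¹ * g⁻¹)) * u⁻¹ * (u * t₁ * u⁻¹)
    calc u * t₁ * u⁻¹ * (u * (t₁ * (g * t₁⁻¹ * g⁻¹)) * u⁻¹)
        = u * (t₁ * (t₁ * (g * t₁⁻¹ * g⁻¹))) * u⁻¹ := by group
      _ = u * ((t₁ * (g * t₁⁻¹ * g⁻¹)) * t₁) * u⁻¹ := by rw [h2]
      _ = _ := by group
  · obtain ⟨χ, hχ1, -⟩ := hB.char
    have hfact : Fact l'.Prime := ⟨hB.prime⟩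
    have hmem : ∀ t ∈ T, u⁻¹ * t * u ∈ O := fun t ht => hOF.conj_mem' huF (hTO ht)
    let φ : T →* (ZMod l')ˣ :=
      { toFun := fun t => χ ⟨u⁻¹ * t * u, hOA (hmem t t.2)⟩
        map_one' := by
          have : (⟨u⁻¹ * ((1 : T) : G) * u, hOA (hmem _ (1 : T).2)⟩ : A) = 1 := by
            apply Subtype.ext
            simp
          rw [this, map_one]
        map_mul' := by
          intro a b
          rw [← map_mul]
          congr 1
          apply Subtype.ext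
          show u⁻¹ * ((a : G) * b) * u = (u⁻¹ * a * u) * (u⁻¹ * b * u)
          group }
    obtain ⟨⟨t₀, ht₀⟩, hgen⟩ := exists_gen_of_cyclic φ
    refine ⟨t₀, ht₀, fun t ht => ?_⟩
    obtain ⟨i, hi⟩ := hgen ⟨t, ht⟩
    refine ⟨i, ?_⟩
    have h1 : u⁻¹ * (t₀ ^ i * t) * u ∈ K := (hχ1 _).1 hi
    have hti : t₀ ^ i * t ∈ T := T.mul_mem (T.zpow_mem ht₀ i) ht
    have h2 : u⁻¹ * (t₀ ^ i * t) * u ∈ T := hOK _ (hmem _ hti) h1
    have h3 := hTab t₁ ht₁ _ h2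
    show w * (t₀ ^ i * t) = (t₀ ^ i * t) * w
    calc w * (t₀ ^ i * t) = u * (t₁ * (u⁻¹ * (t₀ ^ i * t) * u)) * u⁻¹ := by
          rw [hw]
          group
      _ = u * ((u⁻¹ * (t₀ ^ i * t) * u) * t₁) * u⁻¹ := by rw [h3]
      _ = (t₀ ^ i * t) * w := by
          rw [hw]
          group

section two
variable {A M D : Subgroup G} {P : ℕ → Subgroup G} (h : NHyp A M D P)

include h in
/-- a Sylow subgroup of an intermediate group `A ≤ F ≤ AP` -/
theorem NHyp.sylow_inf {l : ℕ} (hl : l.Prime) {F : Subgroup G} (hAF : A ≤ F)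
    (hF : F ≤ A ⊔ P l) : IsSylowIn l (F ⊓ P l) F := by
  have hfact : Fact l.Prime := ⟨hl⟩
  have h1 : IsSylowIn l (P l) (⊤ : Subgroup G) :=
    ⟨le_top, h.Pp l hl, by rw [relIndex_top_right]; exact h.Pi l hl⟩
  refine h1.inf_of_permutes le_top ?_
  rw [permutes_iff]
  intro f hf b hb
  have h2 : f * b ∈ A ⊔ P l := mul_mem (hF hf) (mem_sup_right hb)
  obtain ⟨b', hb', a, ha, h3⟩ := (h.Pperm l hl).mem_sup'.1 h2
  exact ⟨b', hb', a, hAF ha, h3.symm⟩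

include h in
/-- N7, the case `T` not contained in `N'`: contradiction -/
theorem NHyp.seven_case_two {K : Subgroup G} (hK : ∀ l y, Bad M P l y → BadData A K l y)
    {l s : ℕ} {y u : G} (hs : s.Prime) (hl : l.Prime) (hsl : s ≠ l) (huP : u ∈ P l)
    (hy : Bad M P l y) (hyu : y ∈ zpowers (u ^ l))
    (huT : u ∉ normalizer (opc s K : Set G)) (hulT : u ^ l ∈ normalizer (opc s K : Set G))
    (hTN : ¬ opc s K ≤ rcore (A ⊔ zpowers (u ^ l)) (A ⊔ zpowers u)) : False := by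
  have hB := hK l y hy
  have hfact : Fact l.Prime := ⟨hl⟩
  have hfs : Fact s.Prime := ⟨hs⟩
  set T := opc s K with hT
  set F := A ⊔ zpowers u with hF
  set F₁ := A ⊔ zpowers (u ^ l) with hF₁
  have hAu := h.perm_zpowers hl huP
  have huF : u ∈ F := mem_sup_right (mem_zpowers u)
  have hF₁F : F₁ ≤ F := sup_le le_sup_left (by rw [zpowers_le]; exact pow_mem huF l)
  set N' := rcore F₁ F with hN'
  have hN'F : NormalIn N' F := rcore_normalIn hF₁F
  have hAT : A ≤ normalizer (T : Set G) := hB.A_le_normalizer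
  have hF₁T : F₁ ≤ normalizer (T : Set G) := sup_le hAT (by rwa [zpowers_le])
  have hN'T : N' ≤ normalizer (T : Set G) := (rcore_le F₁ F).trans hF₁T
  have huF₁ : u ∉ F₁ := fun h' => huT (hF₁T h')
  have hulF₁ : u ^ l ∈ F₁ := mem_sup_right (mem_zpowers _)
  obtain ⟨n, hun⟩ := exists_pow_eq_one_of_isPGroup (h.Pp l hl) huP
  obtain ⟨hulN, χ, hχ, hχ1⟩ := exists_char_sup hl (h.isSolvable_sup hl huP) hAu le_sup_left hF₁F
    huF₁ hulF₁ hun
  obtain ⟨t, htT, htN⟩ := SetLike.not_le_iff_exists.1 hTN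
  have htA : t ∈ A := hB.nA.1 (opc_le s K htT)
  have htF : t ∈ F := mem_sup_left htA
  have htF₁ : t ∈ F₁ := mem_sup_left htA
  set k := (χ ⟨t, htF⟩ : ZMod l).val with hk
  have hkχ : (k : ZMod l) = χ ⟨t, htF⟩ := ZMod.natCast_zmod_val _
  have hk1 : ¬ (l : ℤ) ∣ (k : ℤ) - 1 := by
    intro hdvd
    have h1 : (((k : ℤ) - 1 : ℤ) : ZMod l) = 0 := (ZMod.intCast_zmod_eq_zero_iff_dvd _ l).2 hdvd
    push_cast at h1
    rw [hkχ, sub_eq_zero] at h1
    exact htN ((hχ1 ⟨t, htF⟩ htF₁).1 (Units.ext h1))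
  have htu := hχ ⟨t, htF⟩ k hkχ
  set T₂ := opc s N' with hT₂
  have hT₂F : NormalIn T₂ F := hN'F.opc s
  have hTT₂ : T ⊓ N' ≤ T₂ := by
    refine le_opc ⟨inf_le_right, fun e he x hx => ⟨?_, ?_⟩⟩ ((opc_isPGroup s K).to_le inf_le_left)
    · exact (mem_normalizer_iff.1 (hN'T he) x).1 hx.1
    · exact N'.mul_mem (N'.mul_mem he hx.2) (N'.inv_mem he)
  have htn : ∀ n ∈ N', t * n * t⁻¹ * n⁻¹ ∈ T₂ := by
    intro n hn
    refine hTT₂ ⟨?_, ?_⟩
    · have h1 := (mem_normalizer_iff.1 (hN'T hn) t⁻¹).1 (T.inv_mem htT)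
      have h2 : t * n * t⁻¹ * n⁻¹ = t * (n * t⁻¹ * n⁻¹) := by group
      rw [SetLike.mem_coe, h2]
      exact T.mul_mem htT h1
    · exact N'.mul_mem (hN'F.2 t htF n hn) (N'.inv_mem hn)
  obtain ⟨r, hr⟩ := IsPGroup.iff_card.1 (opc_isPGroup s N')
  -- apply the abstract lemma inside `F`
  have hn1 : (N'.subgroupOf F).Normal := hN'F.subgroupOf_normal
  have hn2 : (T₂.subgroupOf F).Normal := hT₂F.subgroupOf_normal
  obtain ⟨⟨x, hxF⟩, hxl, hxN, e, he, hxe⟩ := exists_x_abs (F := F) (N := N'.subgroupOf F)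
    (T := T₂.subgroupOf F) hl (u := ⟨u, huF⟩) (t := ⟨t, htF⟩) (k := k) hulN hk1 htu
    (fun n hn => htn n hn) (m := Nat.card T₂) (fun x hx => by
      have h1 : (⟨(x : G), hx⟩ : T₂) ^ Nat.card T₂ = 1 := pow_card_eq_one'
      exact Subtype.ext (congrArg Subtype.val h1 : (x : G) ^ Nat.card T₂ = 1))
    (by
      rw [hr]
      intro hdvd
      have h1 : l ∣ s ^ r := by exact_mod_cast hdvd
      exact hsl ((Nat.prime_dvd_prime_iff_eq hl hs).1 (hl.dvd_of_dvd_pow h1)).symm)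
  have hxl' : x ^ l = 1 := congrArg Subtype.val hxl
  have hxN' : ∀ n ∈ N', x * n * x⁻¹ * n⁻¹ ∈ T₂ := fun n hn => hxN ⟨n, hN'F.1 hn⟩ hn
  have hxe' : x * u ^ e ∈ N' := hxe
  have hxF₁ : x ∉ F₁ := by
    intro hx
    have h1 : u ^ e ∈ F₁ := by
      have := F₁.mul_mem (F₁.inv_mem hx) (rcore_le F₁ F hxe')
      simpa using this
    exact he (dvd_of_zpow_mem hl hulF₁ huF₁ h1)
  -- conjugate into `P l` by an element of `A`
  have hsyl : IsSylowIn l (F ⊓ P l) F :=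
    h.sylow_inf hl le_sup_left (sup_le_sup_left (by rwa [zpowers_le]) _)
  have hxp : IsPGroup l (zpowers x) := by
    rintro ⟨_, i, rfl⟩
    refine ⟨1, Subtype.ext ?_⟩
    show (x ^ i) ^ (l ^ 1) = 1
    rw [pow_one, ← zpow_natCast, ← zpow_mul, mul_comm, zpow_mul, zpow_natCast, hxl', one_zpow]
  obtain ⟨g, hg, hxg⟩ := hsyl.exists_le_conjBy hxp (by rwa [zpowers_le])
  have hxg' : g * x * g⁻¹ ∈ F ⊓ P l := mem_conjBy.1 (hxg (mem_zpowers x))
  obtain ⟨b, hb, a, ha, rfl⟩ := hAu.mem_sup'.1 hg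
  have hbP : b ∈ P l := by
    obtain ⟨i, rfl⟩ := hb
    exact (P l).zpow_mem huP i
  set x₁ := a * x * a⁻¹ with hx₁
  have haF : a ∈ F := mem_sup_left ha
  have haF₁ : a ∈ F₁ := mem_sup_left ha
  have hx₁P : x₁ ∈ P l := by
    have h1 : x₁ = b⁻¹ * (b * a * x * (b * a)⁻¹) * b := by rw [hx₁]; group
    rw [h1]
    exact (P l).mul_mem ((P l).mul_mem ((P l).inv_mem hbP) hxg'.2) hbP
  have hx₁F : x₁ ∈ F := F.mul_mem (F.mul_mem haF hxF) (F.inv_mem haF)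
  have hx₁l : x₁ ^ l = 1 := by
    rw [hx₁, conj_pow, hxl', mul_one, mul_inv_cancel]
  have hx₁F₁ : x₁ ∉ F₁ := by
    intro hx
    apply hxF₁
    have h1 : x = a⁻¹ * x₁ * a := by rw [hx₁]; group
    rw [h1]
    exact F₁.mul_mem (F₁.mul_mem (F₁.inv_mem haF₁) hx) haF₁
  have hx₁N : ∀ n ∈ N', x₁ * n * x₁⁻¹ * n⁻¹ ∈ T₂ := by
    intro n hn
    have h1 := hxN' (a⁻¹ * n * a) (hN'F.conj_mem' haF hn)
    have h2 := hT₂F.2 a haF _ h1
    have h3 : x₁ * n * x₁⁻¹ * n⁻¹ =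
        a * (x * (a⁻¹ * n * a) * x⁻¹ * (a⁻¹ * n * a)⁻¹) * a⁻¹ := by
      rw [hx₁]
      group
    rwa [h3]
  -- `x₁` commutes with `y`
  have hyN' : y ∈ N' := by
    obtain ⟨i, rfl⟩ := hyu
    exact N'.zpow_mem hulN i
  have hyP : y ∈ P l := hy.2.1
  have hx₁y : x₁ * y = y * x₁ := by
    have h1 := hx₁N y hyN'
    have h2 : x₁ * y * x₁⁻¹ * y⁻¹ ∈ P l :=
      (P l).mul_mem ((P l).mul_mem ((P l).mul_mem hx₁P hyP) ((P l).inv_mem hx₁P))
        ((P l).inv_mem hyP)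
    obtain ⟨c, hc⟩ := exists_pow_eq_one_of_isPGroup (h.Pp l hl) h2
    have h3 := eq_one_of_pow_coprime (opc_isPGroup s N')
      (((Nat.coprime_primes hs hl).2 hsl).pow_right c) h1 hc
    rwa [mul_inv_eq_one, mul_inv_eq_iff_eq_mul] at h3
  have hx₁T : x₁ ∉ normalizer (T : Set G) := by
    intro hx
    have h1 := sup_zpowers_inf hl hAT hAu huT hulT
    have h2 : x₁ ∈ (A ⊔ zpowers u) ⊓ normalizer (T : Set G) := ⟨hx₁F, hx⟩
    rw [h1] at h2
    exact hx₁F₁ h2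
  by_cases hx₁M : x₁ ∈ M
  · have hbad : Bad M P l (x₁ * y) := by
      refine ⟨hl, (P l).mul_mem hx₁P hyP, fun h1 => hy.2.2.1 ?_, ?_⟩
      · have := M.mul_mem (M.inv_mem hx₁M) h1
        simpa using this
      · rw [(show Commute x₁ y from hx₁y).mul_pow, hx₁l, one_mul]
        exact hy.2.2.2
    have h1 := (hK l _ hbad).y_mem_normalizer (s := s)
    have h2 := hB.y_mem_normalizer (s := s)
    apply hx₁T
    have := mul_mem h1 (inv_mem h2)
    simpa using this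
  · have hbad : Bad M P l x₁ := ⟨hl, hx₁P, hx₁M, by rw [hx₁l]; exact M.one_mem⟩
    exact hx₁T ((hK l _ hbad).y_mem_normalizer (s := s))

include h in
/-- N7 -/
theorem NHyp.seven {K : Subgroup G} (hK : ∀ l y, Bad M P l y → BadData A K l y)
    {l s : ℕ} (hs : s.Prime) (hl : l.Prime) (hsl : s ≠ l) (hM : ¬ P l ≤ M)
    (hN : ¬ P l ≤ normalizer (opc s K : Set G)) :
    ∃ w ∈ A, w ∉ K ∧ Quad w (opc s K) ∧
      ∃ t₀ ∈ opc s K, ∀ t ∈ opc s K, ∃ i : ℤ, Commute w (t₀ ^ i * t) := by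
  classical
  have hfact : Fact l.Prime := ⟨hl⟩
  -- an element of `P l` outside `M` and outside `N_G(T)`
  obtain ⟨v, hvP, hvM, hvT⟩ : ∃ v ∈ P l, v ∉ M ∧ v ∉ normalizer (opc s K : Set G) := by
    by_contra hcon
    push Not at hcon
    rcases union_trick (p := l) (P := P l) (U := M) (V := normalizer (opc s K : Set G))
      (fun x hx => by
        by_cases h1 : x ∈ M
        · exact Or.inl h1
        · exact Or.inr (hcon x hx h1)) with h1 | h1
    · exact hM h1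
    · exact hN h1
  obtain ⟨n, hvn⟩ := exists_pow_eq_one_of_isPGroup (h.Pp l hl) hvP
  have hex : ∃ n, v ^ (l ^ n) ∈ M ∨ v ^ (l ^ n) ∈ normalizer (opc s K : Set G) :=
    ⟨n, Or.inl (hvn ▸ M.one_mem)⟩
  have h0 : Nat.find hex ≠ 0 := by
    intro h0
    have := Nat.find_spec hex
    rw [h0, pow_zero, pow_one] at this
    rcases this with h1 | h1
    · exact hvM h1
    · exact hvT h1
  obtain ⟨j, hj⟩ := Nat.exists_eq_succ_of_ne_zero h0
  have h1 := Nat.find_min hex (m := j) (by omega)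
  have h2 := Nat.find_spec hex
  rw [hj, Nat.succ_eq_add_one, pow_succ, pow_mul] at h2
  push Not at h1
  set u := v ^ (l ^ j) with hu
  obtain ⟨huM, huT⟩ := h1
  have huP : u ∈ P l := (P l).pow_mem hvP _
  have hulM : u ^ l ∉ M := fun h3 =>
    huT ((hK l u ⟨hl, huP, huM, h3⟩).y_mem_normalizer (s := s))
  have hulT : u ^ l ∈ normalizer (opc s K : Set G) := h2.resolve_left hulM
  -- a bad power of `u^l`
  obtain ⟨i, hi1, hi2⟩ := exists_pow_bad (h.Pp l hl) ((P l).pow_mem huP l) hulM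
  have hy : Bad M P l ((u ^ l) ^ (l ^ i)) :=
    ⟨hl, (P l).pow_mem ((P l).pow_mem huP l) _, hi1, hi2⟩
  obtain ⟨n', hun⟩ := exists_pow_eq_one_of_isPGroup (h.Pp l hl) huP
  by_cases hTN : opc s K ≤ rcore (A ⊔ zpowers (u ^ l)) (A ⊔ zpowers u)
  · exact seven_case_one (hK l _ hy) hs hl hsl
      (h.perm_zpowers hl ((P l).pow_mem huP l)) hun huT hulT hTN
  · exact (h.seven_case_two hK hs hl hsl huP hy (pow_mem (mem_zpowers _) _) huT hulT hTN).elim

end two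

end MP_5771ce_al
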