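import Pool.Agent.Lib.MP_5771ce_al.TN.N7Glue

/-!
# Theorem N, step N10, part A: four-groups
-/

set_option autoImplicit false

open Subgroup
open scoped Pointwise commutatorElement

namespace MP_5771ce_al

variable {G : Type*} [Group G]

section data
variable [Finite G]
variable {A K : Subgroup G} {l : ℕ} {y : G} (hB : BadData A K l y)

include hB in
theorem BadData.l_ne_two : l ≠ 2 := by
  rintro rfl
  obtain ⟨a, ha, haK⟩ := hB.ne
  obtain ⟨χ, hχ1, -⟩ := hB.char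
  apply haK
  rw [← hχ1 ⟨a, ha⟩]
  exact Subsingleton.elim _ _

include hB in
theorem BadData.eta {a : G} (ha : a ∈ A) (haK : a ∉ K) :
    ∃ e : ℤ, ¬ (l : ℤ) ∣ e ∧ ∃ m ∈ K, y⁻¹ * a⁻¹ * y * a = y ^ e * m := by
  obtain ⟨χ, hχ1, hχ⟩ := hB.char
  have hfact : Fact l.Prime := ⟨hB.prime⟩
  set k := (χ ⟨a, ha⟩ : ZMod l).val with hk
  have hkχ : (k : ZMod l) = χ ⟨a, ha⟩ := ZMod.natCast_zmod_val _
  have hk1 : ¬ (l : ℤ) ∣ k - 1 := by
    intro hdvd
    have h1 : (((k : ℤ) - 1 : ℤ) : ZMod l) = 0 := (ZMod.intCast_zmod_eq_zero_iff_dvd _ l).2 hdvd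
    push_cast at h1
    rw [hkχ, sub_eq_zero] at h1
    exact haK ((hχ1 ⟨a, ha⟩).1 (Units.ext h1))
  refine ⟨(k : ℤ) - 1, hk1, _, hχ ⟨a, ha⟩ k hkχ, ?_⟩
  rw [zpow_sub, zpow_one, zpow_natCast]
  have h4 : y ^ k * y⁻¹ = y⁻¹ * y ^ k := ((Commute.refl y).pow_left k).inv_right.eq
  rw [h4]
  group

/-- Pigeonhole: an element of order prime to `6` normalising `{1, z, z', z z'}` centralises it. -/
theorem commute_of_mem_four {η z z' v : G} {l : ℕ} (hl : l.Prime) (hl2 : l ≠ 2) (hl3 : l ≠ 3)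
    (hv : v ≠ 1) (hvZ : v = z ∨ v = z' ∨ v = z * z')
    (hηZ : ∀ x : G, (x = 1 ∨ x = z ∨ x = z' ∨ x = z * z') →
      (η * x * η⁻¹ = 1 ∨ η * x * η⁻¹ = z ∨ η * x * η⁻¹ = z' ∨ η * x * η⁻¹ = z * z'))
    (hηl : Commute (η ^ l) v) : Commute η v := by
  classical
  have h1 : ∀ i : ℕ, η ^ i * v * (η ^ i)⁻¹ ∈ ({z, z', z * z'} : Finset G) := by
    intro i
    have h2 : η ^ i * v * (η ^ i)⁻¹ = 1 ∨ η ^ i * v * (η ^ i)⁻¹ = z ∨
        η ^ i * v * (η ^ i)⁻¹ = z' ∨ η ^ i * v * (η ^ i)⁻¹ = z * z' := by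
      induction i with
      | zero =>
        simp only [pow_zero, one_mul, inv_one, mul_one]
        exact Or.inr hvZ
      | succ i ih =>
        have h3 := hηZ _ ih
        have h4 : η * (η ^ i * v * (η ^ i)⁻¹) * η⁻¹ = η ^ (i + 1) * v * (η ^ (i + 1))⁻¹ := by
          rw [pow_succ' η i]; group
        rwa [h4] at h3
    have h3 : η ^ i * v * (η ^ i)⁻¹ ≠ 1 := by
      intro h
      apply hv
      rw [mul_inv_eq_one] at h
      exact mul_left_cancel (h.trans (mul_one _).symm)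
    simp only [Finset.mem_insert, Finset.mem_singleton]
    exact h2.resolve_left h3
  obtain ⟨i, hi, j, hj, hij, he⟩ := Finset.exists_ne_map_eq_of_card_lt_of_maps_to
    (s := Finset.range 4) (t := ({z, z', z * z'} : Finset G))
    (f := fun i : ℕ => η ^ i * v * (η ^ i)⁻¹)
    (lt_of_le_of_lt Finset.card_le_three (by simp)) (fun i _ => h1 i)
  simp only [Finset.mem_range] at hi hj
  have key : ∀ i j : ℕ, i < j → j < 4 → η ^ i * v * (η ^ i)⁻¹ = η ^ j * v * (η ^ j)⁻¹ →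
      Commute η v := by
    intro i j hij hj he
    obtain ⟨d, rfl⟩ := Nat.exists_eq_add_of_lt hij
    have hd : η ^ (d + 1) ∈ centralizer {v} := by
      rw [mem_centralizer_singleton_iff]
      have h2 : η ^ (i + d + 1) = η ^ i * η ^ (d + 1) := by rw [← pow_add, add_assoc]
      rw [h2] at he
      have h3 : η ^ i * (η ^ (d + 1) * v * (η ^ (d + 1))⁻¹) * (η ^ i)⁻¹ =
          η ^ i * v * (η ^ i)⁻¹ := by rw [he]; group
      have h4 := mul_left_cancel (mul_right_cancel h3)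
      exact mul_inv_eq_iff_eq_mul.1 h4
    have hl' : η ^ l ∈ centralizer {v} := by
      rw [mem_centralizer_singleton_iff]
      exact hηl
    have hcop : Nat.Coprime (d + 1) l := by
      refine ((Nat.Prime.coprime_iff_not_dvd hl).2 fun hdvd => ?_).symm
      have h5 := Nat.le_of_dvd (Nat.succ_pos d) hdvd
      have h6 := hl.two_le
      have h7 : l ≤ 3 := by omega
      interval_cases l
      · exact hl2 rfl
      · exact hl3 rfl
    have h5 := mem_of_coprime_pow hd hl' hcop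
    rw [mem_centralizer_singleton_iff] at h5
    exact h5
  rcases lt_or_gt_of_ne hij with h | h
  · exact key i j h hj he
  · exact key j i h hi he.symm

include hB in
/-- If `a ∈ A` has at most two commutators with elements of `K` then `l = 3`. -/
theorem BadData.eq_three {a z k₀ : G} (ha : a ∈ A) (hk₀ : k₀ ∈ K) (hak : a * k₀ ≠ k₀ * a)
    (hz : z * z = 1) (hc : ∀ k ∈ K, a * k * a⁻¹ * k⁻¹ = 1 ∨ a * k * a⁻¹ * k⁻¹ = z) : l = 3 := by
  by_contra hl3
  have hl2 := hB.l_ne_two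
  have hab := hB.ab
  have haK : a ∉ K := fun h => hak (hab a h k₀ hk₀)
  have hne : a * k₀ * a⁻¹ * k₀⁻¹ ≠ 1 := by
    intro h
    rw [mul_inv_eq_one, mul_inv_eq_iff_eq_mul] at h
    exact hak h
  have hzK : z ∈ K := by
    rw [← (hc k₀ hk₀).resolve_left hne]
    exact K.mul_mem (hB.nA.2 a ha k₀ hk₀) (K.inv_mem hk₀)
  have hz1 : z ≠ 1 := by
    rintro rfl
    rcases hc k₀ hk₀ with h | h <;> exact hne h
  obtain ⟨e, he, m, hm, hη⟩ := hB.eta ha haK
  set η := y⁻¹ * a⁻¹ * y * a with hηdef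
  have hyK : ∀ x ∈ K, y * x * y⁻¹ ∈ K := fun x hx => (mem_normalizer_iff.1 hB.ny x).1 hx
  have hyK' : ∀ x ∈ K, y⁻¹ * x * y ∈ K := fun x hx => by
    have := (mem_normalizer_iff.1 (inv_mem hB.ny) x).1 hx
    rwa [inv_inv] at this
  set z' := y⁻¹ * z * y with hz'def
  have hz'K : z' ∈ K := hyK' z hzK
  have hz' : z' * z' = 1 := by
    have : z' * z' = y⁻¹ * (z * z) * y := by rw [hz'def]; group
    rw [this, hz]; group
  have hz'1 : z' ≠ 1 := by
    intro h
    apply hz1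
    have : z = y * z' * y⁻¹ := by rw [hz'def]; group
    rw [this, h]; group
  have hzz' : z' * z = z * z' := hab z' hz'K z hzK
  -- the set `Z`
  have hmulZ : ∀ u v : G, (u = 1 ∨ u = z ∨ u = z' ∨ u = z * z') →
      (v = 1 ∨ v = z ∨ v = z' ∨ v = z * z') →
      (u * v = 1 ∨ u * v = z ∨ u * v = z' ∨ u * v = z * z') := by
    have e1 : z * (z * z') = z' := by rw [← mul_assoc, hz, one_mul]
    have e2 : z' * (z * z') = z := by rw [← mul_assoc, hzz', mul_assoc, hz', mul_one]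
    have e3 : z * z' * z = z' := by rw [mul_assoc, hzz', e1]
    have e4 : z * z' * z' = z := by rw [mul_assoc, hz', mul_one]
    have e5 : z * z' * (z * z') = 1 := by rw [← mul_assoc, e3, hz']
    rintro u v (rfl | rfl | rfl | rfl) (rfl | rfl | rfl | rfl) <;>
      simp only [one_mul, mul_one, hz, hz', hzz', e1, e2, e3, e4, e5, true_or, or_true]
  have hZsq : ∀ u : G, (u = 1 ∨ u = z ∨ u = z' ∨ u = z * z') → u * u = 1 := by
    rintro u (rfl | rfl | rfl | rfl)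
    · exact one_mul 1
    · exact hz
    · exact hz'
    · rw [mul_assoc, ← mul_assoc z' z z', hzz', mul_assoc z z' z', hz', mul_one, hz]
  -- commutators with `η`
  have hbK : ∀ k ∈ K, y⁻¹ * a⁻¹ * y * k * (y⁻¹ * a⁻¹ * y)⁻¹ * k⁻¹ = 1 ∨
      y⁻¹ * a⁻¹ * y * k * (y⁻¹ * a⁻¹ * y)⁻¹ * k⁻¹ = z' := by
    intro k hk
    set x := y⁻¹ * a⁻¹ * y * k * (y⁻¹ * a⁻¹ * y)⁻¹ with hx
    have hxK : x ∈ K := by
      have h1 := hB.nA.2 a⁻¹ (inv_mem ha) _ (hyK k hk)
      have h2 := hyK' _ h1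
      have h3 : y⁻¹ * (a⁻¹ * (y * k * y⁻¹) * a⁻¹⁻¹) * y = x := by rw [hx]; group
      rwa [h3] at h2
    have h1 := hc _ (hyK x hxK)
    have h2 : a * (y * x * y⁻¹) * a⁻¹ * (y * x * y⁻¹)⁻¹ = y * (k * x⁻¹) * y⁻¹ := by
      rw [hx]; group
    rw [h2] at h1
    rcases h1 with h1 | h1
    · left
      have h3 : k * x⁻¹ = 1 := by
        have : k * x⁻¹ = y⁻¹ * (y * (k * x⁻¹) * y⁻¹) * y := by group
        rw [this, h1]; group
      rw [mul_inv_eq_one] at h3 ⊢
      exact h3.symm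
    · right
      have h3 : k * x⁻¹ = z' := by
        have : k * x⁻¹ = y⁻¹ * (y * (k * x⁻¹) * y⁻¹) * y := by group
        rw [this, h1]
      have h4 : x * k⁻¹ = (k * x⁻¹)⁻¹ := by group
      rw [h4, h3]
      exact inv_eq_of_mul_eq_one_right hz'
  have hηK : ∀ k ∈ K, (η * k * η⁻¹ * k⁻¹ = 1 ∨ η * k * η⁻¹ * k⁻¹ = z ∨ η * k * η⁻¹ * k⁻¹ = z' ∨
      η * k * η⁻¹ * k⁻¹ = z * z') := by
    intro k hk
    have h1 := hbK (a * k * a⁻¹) (hB.nA.2 a ha k hk)
    have h2 := hc k hk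
    have h3 : η * k * η⁻¹ * k⁻¹ =
        y⁻¹ * a⁻¹ * y * (a * k * a⁻¹) * (y⁻¹ * a⁻¹ * y)⁻¹ * (a * k * a⁻¹)⁻¹ *
          (a * k * a⁻¹ * k⁻¹) := by rw [hηdef]; group
    rw [h3]
    refine hmulZ _ _ ?_ ?_
    · rcases h1 with h | h
      · exact Or.inl h
      · exact Or.inr (Or.inr (Or.inl h))
    · rcases h2 with h | h
      · exact Or.inl h
      · exact Or.inr (Or.inl h)
  have hZK : ∀ x : G, (x = 1 ∨ x = z ∨ x = z' ∨ x = z * z') → x ∈ K := by
    rintro x (rfl | rfl | rfl | rfl)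
    · exact K.one_mem
    · exact hzK
    · exact hz'K
    · exact K.mul_mem hzK hz'K
  have hηZ : ∀ x : G, (x = 1 ∨ x = z ∨ x = z' ∨ x = z * z') →
      (η * x * η⁻¹ = 1 ∨ η * x * η⁻¹ = z ∨ η * x * η⁻¹ = z' ∨ η * x * η⁻¹ = z * z') := by
    intro x hx
    have h1 := hηK x (hZK x hx)
    have h2 := hmulZ _ _ h1 hx
    have h3 : η * x * η⁻¹ * x⁻¹ * x = η * x * η⁻¹ := by group
    rwa [h3] at h2
  -- `η ^ l ∈ K`
  have hηl : η ^ l ∈ K := by
    have hx : ∀ n ∈ K, (y ^ e)⁻¹ * n * y ^ e ∈ K := fun n hn => by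
      have h1 : (y ^ e)⁻¹ ∈ normalizer (K : Set G) := inv_mem (zpow_mem hB.ny e)
      have h2 := (mem_normalizer_iff.1 h1 n).1 hn
      rwa [inv_inv] at h2
    have h1 := (trace_aux hab hx l).1 m hm
    have h2 : (y ^ e) ^ l ∈ K := by
      rw [← zpow_natCast, ← zpow_mul, mul_comm, zpow_mul, zpow_natCast]
      exact K.zpow_mem hB.yl e
    have h3 := K.mul_mem h2 h1
    rw [mul_inv_cancel_left, ← hη] at h3
    exact h3
  have hηv : ∀ x : G, (x = 1 ∨ x = z ∨ x = z' ∨ x = z * z') → Commute η x := by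
    intro x hx
    by_cases hx1 : x = 1
    · rw [hx1]; exact Commute.one_right _
    · exact commute_of_mem_four hB.prime hl2 hl3 hx1 (hx.resolve_left hx1) hηZ
        (hab _ hηl x (hZK x hx))
  have hquad : Quad η K := fun k hk => hηv _ (hηK k hk)
  -- `η` centralises `K`
  have hηcent : ∀ k ∈ K, Commute η k := by
    intro k hk
    have h1 := quad_pow hquad hk l
    have h2 : η ^ l * k * (η ^ l)⁻¹ = k := by
      rw [hab _ hηl k hk, mul_inv_cancel_right]
    rw [h2] at h1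
    have h3 : (η * k * η⁻¹ * k⁻¹) ^ l = 1 := by
      have := mul_right_cancel (h1.symm.trans (one_mul k).symm)
      exact this
    have h4 : (η * k * η⁻¹ * k⁻¹) ^ 2 = 1 := by
      rw [pow_two]
      exact hZsq _ (hηK k hk)
    have h5 : Nat.Coprime l 2 := by
      rw [Nat.coprime_primes hB.prime Nat.prime_two]
      exact hl2
    have h6 : orderOf (η * k * η⁻¹ * k⁻¹) = 1 :=
      Nat.eq_one_of_dvd_coprimes h5 (orderOf_dvd_of_pow_eq_one h3) (orderOf_dvd_of_pow_eq_one h4)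
    rw [orderOf_eq_one_iff, mul_inv_eq_one, mul_inv_eq_iff_eq_mul] at h6
    exact h6
  have hycent : y ∈ centralizer (K : Set G) := by
    have h1 : y ^ e ∈ centralizer (K : Set G) := by
      have h2 : y ^ e = η * m⁻¹ := by rw [hη]; group
      rw [h2]
      refine mul_mem ?_ (inv_mem ?_)
      · exact mem_centralizer_iff.2 fun k hk => (hηcent k hk).symm
      · exact mem_centralizer_iff.2 fun k hk => hab k hk m hm
    refine mem_of_zpow_mem h1 (j := (l : ℤ)) ?_ (isCoprime_of_not_dvd hB.prime he)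
    rw [zpow_natCast]
    exact mem_centralizer_iff.2 fun k hk => hab k hk _ hB.yl
  exact hak (hB.cen k₀ hk₀ (mem_centralizer_iff.1 hycent k₀ hk₀) a ha)

end data

end MP_5771ce_al
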