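import Pool.Agent.Lib.MP_5771ce_al.TN.Bad

set_option autoImplicit false
set_option linter.unusedSectionVars false

/-!
# Theorem N, part 5: step N3 (`y^l ∈ A`) and the data of a bad element
-/

open Subgroup
open scoped Pointwise commutatorElement

namespace MP_5771ce_al

variable {G : Type*} [Group G] [Finite G]

section steps
variable {A M D : Subgroup G} {P : ℕ → Subgroup G} (h : NHyp A M D P)
variable {l : ℕ} {y : G} (hb : Bad M P l y)

include h hb in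
/-- N3 -/
theorem NHyp.powl_mem (hnab : ¬ ∀ a ∈ A, ∀ b ∈ A, a * b = b * a) : y ^ l ∈ A := by
  have habN := h.core_abelian hb
  have hcen := h.core_cen hb
  obtain ⟨hl, hyP, hyM, hylM⟩ := hb
  have hfact : Fact l.Prime := ⟨hl⟩
  have hp := h.perm_zpowers hl hyP
  obtain ⟨n, hyn⟩ := exists_pow_eq_one_of_isPGroup (h.Pp l hl) hyP
  set E := A ⊔ zpowers y with hE
  set F := A ⊔ zpowers (y ^ l) with hF
  have hyE : y ∈ E := mem_sup_right (mem_zpowers y)
  have hFE : F ≤ E := sup_le le_sup_left (by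
    rw [zpowers_le]
    exact pow_mem hyE l)
  have hFM : F ≤ M := sup_le h.hAM (by rwa [zpowers_le])
  have hyF : y ∉ F := fun h' => hyM (hFM h')
  have hylF : y ^ l ∈ F := mem_sup_right (mem_zpowers _)
  set N := rcore F E with hN
  have hNE : NormalIn N E := rcore_normalIn hFE
  have hNF : N ≤ F := rcore_le F E
  obtain ⟨hylN, χ, hχ, hχ1⟩ := exists_char_sup hl (h.isSolvable_sup hl hyP) hp le_sup_left hFE
    hyF hylF hyn
  -- an element of `A` outside `N`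
  obtain ⟨a, haA, haN⟩ : ∃ a ∈ A, a ∉ N := by
    by_contra hcon
    push Not at hcon
    exact hnab fun a ha b hb => habN a (hcon a ha) b (hcon b hb)
  have haE : a ∈ E := mem_sup_left haA
  set k := (χ ⟨a, haE⟩ : ZMod l).val with hk
  have hkχ : (k : ZMod l) = χ ⟨a, haE⟩ := ZMod.natCast_zmod_val _
  have hk1 : ¬ (l : ℤ) ∣ 1 - k := by
    intro hdvd
    have h1 : ((1 - (k : ℤ) : ℤ) : ZMod l) = 0 := (ZMod.intCast_zmod_eq_zero_iff_dvd _ l).2 hdvd
    push_cast at h1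
    rw [hkχ, sub_eq_zero] at h1
    have h2 : χ ⟨a, haE⟩ = 1 := Units.ext h1.symm
    exact haN ((hχ1 ⟨a, haE⟩ (mem_sup_left haA)).1 h2)
  have hk0 : ¬ (l : ℤ) ∣ k := by
    intro hdvd
    have h1 : (((k : ℤ) : ℤ) : ZMod l) = 0 := (ZMod.intCast_zmod_eq_zero_iff_dvd _ l).2 hdvd
    push_cast at h1
    rw [hkχ] at h1
    exact (χ ⟨a, haE⟩).ne_zero h1
  set m₀ := (y ^ k)⁻¹ * (a⁻¹ * y * a) with hm₀
  have hm₀N : m₀ ∈ N := hχ ⟨a, haE⟩ k hkχ
  set x := y ^ k with hx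
  have hxE : x ∈ E := pow_mem hyE k
  have hxN : ∀ n ∈ N, x⁻¹ * n * x ∈ N := fun n hn => hNE.conj_mem' hxE hn
  set z := y ^ l with hz
  have hza : a * z = z * a := hcen z hylN ((Commute.refl y).pow_left l).eq a haA
  have hzn : z ^ (l ^ n) = 1 := by
    rw [hz, ← pow_mul, mul_comm, pow_mul, hyn, one_pow]
  have hxl : x ^ l = z ^ (k : ℤ) := by
    rw [hx, hz, zpow_natCast, ← pow_mul, ← pow_mul, mul_comm]
  -- the trace
  have ht0 : (x ^ l)⁻¹ * (x * m₀) ^ l = z ^ (1 - (k : ℤ)) := by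
    have h1 : x * m₀ = a⁻¹ * y * a := by rw [hm₀, mul_inv_cancel_left]
    have h2 : (a⁻¹ * y * a) ^ l = z := by
      have h3 : (a⁻¹ * y * a⁻¹⁻¹) ^ l = a⁻¹ * y ^ l * a⁻¹⁻¹ := conj_pow
      rw [inv_inv] at h3
      rw [h3, ← hz, mul_assoc, ← hza, inv_mul_cancel_left]
    rw [h1, h2, hxl, zpow_sub, zpow_one]
    exact ((Commute.refl z).zpow_left (k : ℤ)).inv_left.eq
  obtain ⟨q, c, hq, hqc⟩ := exists_lpart hl m₀
  have hcop : IsCoprime ((1 - (k : ℤ)) * q) ((l : ℤ) ^ n) := by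
    refine IsCoprime.pow_right (IsCoprime.mul_left (isCoprime_of_not_dvd hl hk1) ?_)
    exact isCoprime_of_not_dvd hl (by exact_mod_cast hq)
  obtain ⟨u, v, huv⟩ := hcop
  set m := m₀ ^ ((q : ℤ) * u) with hm
  have hmN : m ∈ N := N.zpow_mem hm₀N _
  have htm : (x ^ l)⁻¹ * (x * m) ^ l = z := by
    rw [hm, trace_zpow habN hxN l hm₀N, ht0, ← zpow_mul]
    have h1 : (1 - (k : ℤ)) * (q * u) = 1 - ((l : ℤ) ^ n) * v := by
      linear_combination huv
    rw [h1, zpow_sub, zpow_one, zpow_mul]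
    have h2 : z ^ ((l : ℤ) ^ n) = 1 := by
      have : ((l : ℤ) ^ n) = ((l ^ n : ℕ) : ℤ) := by push_cast; rfl
      rw [this, zpow_natCast, hzn]
    rw [h2, one_zpow, inv_one, mul_one]
  have hml : m ^ (l ^ c) = 1 := by
    rw [hm, ← zpow_natCast, ← zpow_mul]
    have h1 : (q : ℤ) * u * ((l ^ c : ℕ) : ℤ) = ((q * l ^ c : ℕ) : ℤ) * u := by push_cast; ring
    rw [h1, zpow_mul, zpow_natCast, pow_mul, hqc, one_zpow]
  -- the element `w` of order `l`
  set w := x * m ^ (-(k : ℤ)) with hw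
  have hwl : w ^ l = 1 := by
    have h1 := trace_zpow habN hxN l hmN (-(k : ℤ))
    rw [htm, inv_mul_eq_iff_eq_mul, hxl, ← zpow_add, add_neg_cancel, zpow_zero] at h1
    exact h1
  -- the `l`-group `S`
  set B := opc l N with hB
  have hBN : B ≤ N := opc_le l N
  have hBE : NormalIn B E := hNE.opc l
  have hmB : m ∈ B := mem_opc_of_abelian_pow habN hmN hml
  have hzB : z ∈ B := mem_opc_of_abelian_pow habN hylN hzn
  set S := B ⊔ zpowers y with hS
  have hyBn : zpowers y ≤ normalizer (B : Set G) := by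
    rw [zpowers_le]
    exact hBE.le_normalizer hyE
  have hSp : IsPGroup l S := by
    refine IsPGroup.to_sup_of_normal_left' (opc_isPGroup l N) ?_ hyBn
    exact (h.Pp l hl).to_le (by rwa [zpowers_le])
  have hSE : S ≤ E := sup_le hBE.1 le_sup_right
  have hyS : y ∈ S := mem_sup_right (mem_zpowers y)
  have hAS : Permutes A S := by
    rw [permutes_iff]
    intro a' ha' s hs
    obtain ⟨b', hb', a'', ha'', h1⟩ := hp.mem_sup'.1 (mul_mem (mem_sup_left ha') (hSE hs) :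
      a' * s ∈ A ⊔ zpowers y)
    exact ⟨b', mem_sup_right hb', a'', ha'', h1.symm⟩
  have hwS : w ∈ S := mul_mem (pow_mem hyS k) (mem_sup_left (B.zpow_mem hmB _))
  have hwE : w ∈ E := hSE hwS
  have hAw : Permutes A (zpowers w) := h.her.permutes_pgroup hl hSp hAS (by rwa [zpowers_le])
  have hSF : ∀ s ∈ S, s ∈ F → s ∈ B := by
    intro s hs hsF
    obtain ⟨_, ⟨i, rfl⟩, b, hbB, rfl⟩ := (mem_sup_of_le_normalizer hyBn).1 hs
    have h1 : y ^ i ∈ F := by
      have := F.mul_mem hsF (F.inv_mem (hNF (hBN hbB)))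
      simpa using this
    have h2 := zpow_mem_zpowers_pow (y := y) (dvd_of_zpow_mem hl hylF hyF h1)
    obtain ⟨j, hj⟩ := h2
    refine B.mul_mem ?_ hbB
    show y ^ i ∈ B
    rw [← hj]
    exact B.zpow_mem hzB j
  have hwF : w ∉ F := by
    intro h1
    have h2 : y ^ (k : ℤ) ∈ F := by
      have h3 := F.mul_mem h1 (hNF (N.zpow_mem hmN (k : ℤ)))
      have h4 : w * m ^ (k : ℤ) = y ^ (k : ℤ) := by
        rw [hw, mul_assoc, ← zpow_add, neg_add_cancel, zpow_zero, mul_one, hx, zpow_natCast]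
      rwa [h4] at h3
    exact hk0 (dvd_of_zpow_mem hl hylF hyF h2)
  -- `w` normalises `A ∩ S`
  have hwBA : ∀ b ∈ A ⊓ S, w⁻¹ * b * w ∈ A ⊓ S := by
    rintro b ⟨hbA, hbS⟩
    have hbB : b ∈ B := hSF b hbS (mem_sup_left hbA)
    obtain ⟨_, ⟨i, rfl⟩, a', ha', h1⟩ := (permutes_iff.1 hAw) b hbA w (mem_zpowers w)
    have h1' : b * w = w ^ i * a' := h1
    have ha'S : a' ∈ S := by
      have h2 : a' = (w ^ i)⁻¹ * (b * w) := by rw [h1', inv_mul_cancel_left]
      rw [h2]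
      exact mul_mem (inv_mem (zpow_mem hwS i)) (mul_mem hbS hwS)
    have ha'B : a' ∈ B := hSF a' ha'S (mem_sup_left ha')
    have h2 : w⁻¹ * b * w = w ^ (i - 1) * a' := by
      rw [mul_assoc, h1', zpow_sub, zpow_one]
      have := ((Commute.refl w).zpow_left i).inv_right.eq
      rw [this, mul_assoc]
    have h3 : w ^ (i - 1) ∈ F := by
      have h4 : w ^ (i - 1) = (w⁻¹ * b * w) * a'⁻¹ := by rw [h2, mul_inv_cancel_right]
      rw [h4]
      exact F.mul_mem (hNF (hBN (hBE.conj_mem' hwE hbB))) (F.inv_mem (hNF (hBN ha'B)))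
    have h5 : w ^ (i - 1) = 1 := by
      have h6 := zpow_mem_zpowers_pow (y := w)
        (dvd_of_zpow_mem hl (by rw [hwl]; exact F.one_mem) hwF h3)
      rw [hwl] at h6
      obtain ⟨j, hj⟩ := h6
      have : (1 : G) ^ j = w ^ (i - 1) := hj
      rw [← this, one_zpow]
    rw [h2, h5, one_mul]
    exact ⟨ha', ha'S⟩
  -- write `m` in `A⟨z⟩`
  have hpz : Permutes A (zpowers z) := h.perm_zpowers hl (pow_mem hyP l)
  obtain ⟨a'', ha'', _, ⟨j, rfl⟩, hmaz⟩ := hpz.mem_sup.1 (hNF hmN : m ∈ A ⊔ zpowers z)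
  have hmaz' : a'' * z ^ j = m := hmaz
  have ha''B : a'' ∈ B := by
    have h1 : a'' = m * (z ^ j)⁻¹ := by rw [← hmaz', mul_inv_cancel_right]
    rw [h1]
    exact B.mul_mem hmB (B.inv_mem (B.zpow_mem hzB j))
  have ha''S : a'' ∈ S := mem_sup_left ha''B
  have hcom : Commute a'' (z ^ j) := habN a'' (hBN ha''B) _ (N.zpow_mem hylN j)
  set b₁ := a'' ^ (k : ℤ) with hb₁
  have hb₁BA : b₁ ∈ A ⊓ S := ⟨A.zpow_mem ha'' _, S.zpow_mem ha''S _⟩
  have hye : y ^ ((k : ℤ) * (1 - l * j)) = w * b₁ := by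
    have h1 : m ^ (-(k : ℤ)) = z ^ (j * (-(k : ℤ))) * a'' ^ (-(k : ℤ)) := by
      rw [← hmaz', hcom.mul_zpow, ← zpow_mul]
      exact (hcom.zpow_zpow (-(k : ℤ)) (-(k : ℤ))).eq.trans (by rw [← zpow_mul]) |>.trans rfl |> fun h => by
        rw [← zpow_mul] at h
        exact h
    rw [hw, h1, hb₁, mul_assoc, mul_assoc, ← zpow_add, neg_add_cancel, zpow_zero, mul_one, hx, hz,
      ← zpow_natCast y k, ← zpow_natCast y l, ← zpow_mul, ← zpow_add]
    congr 1
    ring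
  have habBA : ∀ a ∈ A ⊓ S, ∀ b ∈ A ⊓ S, a * b = b * a := by
    rintro a' ⟨ha', ha'S⟩ b' ⟨hb', hb'S⟩
    exact habN a' (hBN (hSF a' ha'S (mem_sup_left ha'))) b' (hBN (hSF b' hb'S (mem_sup_left hb')))
  have hwb : (w * b₁) ^ l ∈ A ⊓ S := by
    have h1 := (trace_aux habBA hwBA l).1 b₁ hb₁BA
    rwa [hwl, inv_one, one_mul] at h1
  have hfin : z ^ ((k : ℤ) * (1 - l * j)) ∈ A := by
    have h1 : z ^ ((k : ℤ) * (1 - l * j)) = (y ^ ((k : ℤ) * (1 - l * j))) ^ l := by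
      rw [hz, ← zpow_natCast, ← zpow_natCast, ← zpow_mul, ← zpow_mul, mul_comm]
    rw [h1, hye]
    exact hwb.1
  refine mem_of_zpow_mem_of_pow_eq_one hl hzn ?_ hfin
  intro hdvd
  have hpl : Prime (l : ℤ) := Nat.prime_iff_prime_int.1 hl
  rcases hpl.dvd_or_dvd hdvd with h1 | h1
  · exact hk0 h1
  · have h2 : (l : ℤ) ∣ 1 := by
      have := dvd_add h1 (dvd_mul_right (l : ℤ) j)
      rwa [sub_add_cancel] at this
    exact hpl.not_dvd_one h2

end steps

end MP_5771ce_al
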